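import Pool.Agent.N184.HK.W7

/-!
# From the commutant of `so(H²)` to the weight-monodromy conjecture
-/

set_option autoImplicit false

namespace Pool.Agent.H66PH

open Module Module.End Polynomial
open Pool.Agent.N184.HK Pool.Agent.Y143
open scoped Classical

section

variable {Λ : Type} [Field Λ] [CharZero Λ] [IsAlgClosed Λ] {d : ℕ} {c : ℚ}
  {Y : Cohomology Λ d c} {F : Y.Auto} {q : ℕ} (M : Monodromy F q) (hq : 1 < q) (h2d : 2 ≤ d)

/-- The generalized eigenvalues on the commutant of `so(H²)` are roots of unity. -/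
def RootsOnCen (F : Y.Auto) (i : ℕ) : Prop :=
  ∀ a ∈ cen Y i, a ≠ 0 → ∀ t, a ∈ (adE (F.φ i)).maxGenEigenspace t → ∃ m, 0 < m ∧ t ^ m = 1

/-- The determinants on the isotypic parts. -/
def DetOnCen (F : Y.Auto) (i : ℕ) : Prop :=
  ∀ z ∈ cen Y i, z * z = z → (∀ a ∈ cen Y i, Commute a z) → Commute (en (F.φ i)) z →
    ∀ n : ℕ, LinearMap.trace Λ _ z = n →
      ∃ e, 0 < e ∧ LinearMap.det (en (F.φ i) * z + (1 - z)) ^ (4 * e) = F.μ ^ (i * n * e)

include hq h2d in
omit [IsAlgClosed Λ] in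
/-- The monodromy operator comes from `so(H²)`. -/
lemma abs_N_eq {i : ℕ} (hi : i ≤ d) (h1 : RootsOnCen F i) : M.N i = Y.ρ i (M.N 2) := by
  have hq0 : (q : Λ) ≠ 0 := by exact_mod_cast hq.ne_bot
  set a := M.N i - Y.ρ i (M.N 2) with ha
  have hcen : a ∈ cen Y i := by
    intro A hA
    have h1 := M.compat i hi A hA
    have h2 := Y.bracket i (M.N 2) A M.skew hA
    rw [h2] at h1
    change Y.ρ i A * a = a * Y.ρ i A
    rw [ha, mul_sub, sub_mul]
    have h3 : M.N i * Y.ρ i A - Y.ρ i (M.N 2) * Y.ρ i A =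
        Y.ρ i A * M.N i - Y.ρ i A * Y.ρ i (M.N 2) := by
      have := h1
      rw [sub_eq_sub_iff_add_eq_add] at this ⊢
      rw [this]
      abel
    exact h3.symm
  have had : adE (F.φ i) a = (q : Λ)⁻¹ • a := by
    rw [ha, map_sub, adE_twist _ hq0 (M.twist i hi), F.hc,
      adE_twist _ hq0 (M.twist 2 h2d), map_smul, smul_sub]
  by_contra hne
  have ha0 : a ≠ 0 := fun h => hne (sub_eq_zero.1 h)
  obtain ⟨m, hm, h1⟩ := h1 a hcen ha0 (q : Λ)⁻¹ (by
    rw [Module.End.mem_maxGenEigenspace]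
    refine ⟨1, ?_⟩
    rw [pow_one, LinearMap.sub_apply, had]
    exact sub_self _)
  rw [inv_pow, inv_eq_one] at h1
  have h2 : q ^ m = 1 := by exact_mod_cast h1
  exact absurd h2 (Nat.one_lt_pow hm.ne' hq).ne'

variable {W : Wt Λ} (hWU : ∀ x, W.U x ↔ ∃ w : ℤ, IsWeilNumber q w x)
  (hWw : ∀ (w : ℤ) (x : Λ), IsWeilNumber q w x → W.w x = (w : ℚ))

omit [IsAlgClosed Λ] in
include M in
lemma abs_weights {i : ℕ} (hi : i ≤ d) : ∀ e ∈ (en (F.φ i)).charpoly.roots,
    ∃ w : ℤ, IsWeilNumber q w e := by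
  intro e he
  refine M.weights i hi e ?_
  rw [Polynomial.mem_roots (LinearMap.charpoly_monic _).ne_zero] at he
  exact (Module.End.hasEigenvalue_iff_isRoot_charpoly _ _).2 he

omit [IsAlgClosed Λ] in
include M hWU in
lemma abs_U {i : ℕ} (hi : i ≤ d) : ∀ e ∈ (en (F.φ i)).charpoly.roots, W.U e :=
  fun e he => (hWU e).2 (abs_weights M hi e he)

include M hWU hWw h2d in
/-- The operator `T` commutes with the commutant of `so(H²)`. -/
lemma abs_T_cen {i : ℕ} (hi : i ≤ d) (h1 : RootsOnCen F i) (κ : ℚ) {a : Module.End Λ (Y.H i)}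
    (ha : a ∈ cen Y i) : Commute (F.T W i κ) a := by
  have hst : ∀ x ∈ cen Y i, adE (F.φ i) x ∈ cen Y i := fun x hx => cen_ad _ hx
  set T := F.T W i κ with hT
  have key : (LinearMap.mulLeft Λ T - LinearMap.mulRight Λ T) ∘ₗ (cen Y i).subtype = 0 := by
    refine ext_gen ((adE (F.φ i)).restrict hst) fun t x hx => ?_
    rw [LinearMap.zero_apply]
    change T * (x : Module.End Λ (Y.H i)) - (x : Module.End Λ (Y.H i)) * T = 0
    have hx' : (x : Module.End Λ (Y.H i)) ∈ (adE (F.φ i)).maxGenEigenspace t := by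
      rw [Module.End.mem_maxGenEigenspace] at hx ⊢
      obtain ⟨k, hk⟩ := hx
      refine ⟨k, ?_⟩
      have h2 : ∀ (k : ℕ) (x : cen Y i),
          (((((adE (F.φ i)).restrict hst) - t • 1) ^ k) x :
            Module.End Λ (Y.H i)) =
          ((adE (F.φ i) - t • 1) ^ k) (x : Module.End Λ (Y.H i)) := by
        intro k
        induction k with
        | zero => intro x; rfl
        | succ k ih =>
          intro x
          rw [_root_.pow_succ, _root_.pow_succ, Module.End.mul_apply, Module.End.mul_apply, ih]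
          rfl
      rw [← h2, hk]
      rfl
    by_cases hx0 : (x : Module.End Λ (Y.H i)) = 0
    · rw [hx0, mul_zero, zero_mul, sub_zero]
    obtain ⟨m, hm, ht⟩ := h1 x x.2 hx0 t hx'
    have hw : W.w t = 0 := by
      have h3 : IsWeilNumber q 0 t := by
        refine IsWeilNumber.of_pow (k := m) hm ?_
        rw [ht, mul_zero]
        exact IsWeilNumber.one _
      have := hWw 0 t h3
      rw [this, Int.cast_zero]
    have h4 := T_ad (F := F) (W := W) (abs_U M hWU h2d) (abs_U M hWU hi) κ x.2 hx'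
    rw [h4, Wt.k, hw, Rat.cast_zero, zero_smul]
  have h5 := congrArg (fun f => f ⟨a, ha⟩) key
  exact sub_eq_zero.1 h5

include M hWU hWw h2d in
/-- The operator `T` is nilpotent. -/
lemma abs_T_nil {i : ℕ} (hi : i ≤ d) (hr : RootsOnCen F i) (hd : DetOnCen F i) :
    IsNilpotent (F.T W i i) := by
  set T := F.T W i i with hT
  refine nil_of_roots fun x hx => ?_
  obtain ⟨z, n, hn, hzz, hz, htz, htTz⟩ := proj_spec hx
  have hzcen : z ∈ cen Y i := fun A hA =>
    hz _ (T_comm (abs_U M hWU h2d) (abs_U M hWU hi) i hA)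
  have hzc : ∀ a ∈ cen Y i, Commute a z := fun a ha =>
    hz a (abs_T_cen M h2d hWU hWw hi hr i ha).symm
  have hzφ : Commute (en (F.φ i)) z := hz _ (T_comm_φ i _).symm
  obtain ⟨e, he, hdet⟩ := hd z hzcen hzz hzc hzφ n htz
  obtain ⟨s, hs, hcard, hsdet, htr⟩ := t_detp Λ _ _ z hzφ hzz
  rw [hsdet, M.mult] at hdet
  have hU1 : W.U 1 := (hWU 1).2 ⟨0, IsWeilNumber.one _⟩
  have hUs : ∀ e ∈ s, W.U e := fun e he => abs_U M hWU hi e (hs e he)
  have h5 := W.w_prod hU1 hUs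
  have h6 := W.w_pow hU1 h5.1 (4 * e)
  have hqW : IsWeilNumber q 2 (q : Λ) := by
    refine ⟨isAlgebraic_natCast q, fun y hy => ?_⟩
    have h7 : minpoly ℚ (q : Λ) = Polynomial.X - C (q : ℚ) := by
      have := minpoly.eq_X_sub_C Λ (q : ℚ)
      rw [map_natCast] at this
      exact this
    rw [h7] at hy
    simp only [map_sub, aeval_X, aeval_C, sub_eq_zero] at hy
    rw [hy]
    simp
  have hUq : W.U (q : Λ) := (hWU _).2 ⟨2, hqW⟩
  have hwq : W.w (q : Λ) = 2 := by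
    have := hWw 2 _ hqW
    rw [this]; norm_num
  have h8 := W.w_pow hU1 hUq 2
  have h9 := W.w_pow hU1 h8.1 (i * n * e)
  have h10 : (4 * e : ℚ) * (s.map W.w).sum = (i * n * e) * (2 * 2) := by
    have := congrArg W.w hdet
    rw [h6.2, h9.2, h8.2, h5.2, hwq] at this
    push_cast at this
    exact this
  have hpos : (0 : ℚ) < e := by exact_mod_cast he
  have h11 : (s.map W.w).sum = i * n := by
    have h12 : (4 * e : ℚ) * ((s.map W.w).sum - i * n) = 0 := by
      rw [mul_sub, h10]; ring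
    rcases mul_eq_zero.1 h12 with h | h
    · exfalso; linarith
    · linarith
  have h12 := htr W.k
  have h13 : (s.map W.k).sum = (((s.map W.w).sum : ℚ) : Λ) := cast_sum_map _ _
  rw [h13, h11, fop_split F W i (i : ℚ), add_mul, add_mul, map_add, map_add,
    tr_rho_mul (skew_S2 (abs_U M hWU h2d)) (fun B hB => hzcen B hB), smul_mul_assoc,
    one_mul, map_smul, htz, smul_eq_mul, add_zero, ← hT, htTz] at h12
  have h14 : x * n = 0 := by
    have h15 : (((i : ℚ) * n : ℚ) : Λ) = ((i : ℚ) : Λ) * n := by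
      rw [Rat.cast_mul, Rat.cast_natCast, Rat.cast_natCast]
    rw [h15] at h12
    exact add_eq_left.1 h12
  rcases mul_eq_zero.1 h14 with h | h
  · exact h
  · exfalso
    have : n = 0 := by exact_mod_cast h
    omega

include hq h2d in
/-- **mw purity in all degrees.** -/
theorem abs_pure {i : ℕ} (hi : i ≤ d) (hr : RootsOnCen F i) (hd : DetOnCen F i) :
    IsMWPure q i (en (F.φ i)) (M.N i) := by
  obtain ⟨W, hWU, hWw⟩ := t_wtb Λ q hq
  have hq0 : (q : Λ) ≠ 0 := by exact_mod_cast hq.ne_bot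
  have hqW : IsWeilNumber q 2 (q : Λ) := by
    refine ⟨isAlgebraic_natCast _, fun y hy => ?_⟩
    have h7 : minpoly ℚ (q : Λ) = Polynomial.X - C (q : ℚ) := by
      have := minpoly.eq_X_sub_C Λ (q : ℚ)
      rw [map_natCast] at this
      exact this
    rw [h7] at hy
    simp only [map_sub, aeval_X, aeval_C, sub_eq_zero] at hy
    rw [hy]
    simp
  have hU1 : W.U 1 := (hWU 1).2 ⟨0, IsWeilNumber.one _⟩
  have hUq : W.U (q : Λ) := (hWU _).2 ⟨2, hqW⟩
  have hwq : W.w (q : Λ) = 2 := by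
    have := hWw 2 _ hqW
    rw [this]; norm_num
  have hwμ : W.w F.μ / 2 = 2 := by
    rw [M.mult, (W.w_pow hU1 hUq 2).2, hwq]; norm_num
  have hwinv : W.k (q : Λ)⁻¹ = -2 := by
    have h1 := W.w_mul _ _ hUq (W.inv _ hUq)
    rw [mul_inv_cancel₀ hq0, W.w_one hU1, hwq] at h1
    have h2 : W.w (q : Λ)⁻¹ = -2 := by linarith
    rw [Wt.k, h2]; norm_num
  -- the grading of `H²`
  set D := F.S2 W with hD
  have hDskew : Skew Y.q D := skew_S2 (abs_U M hWU h2d)
  have hDfop : D = fop (en (F.φ 2)) (fun e => ((W.w e - (2 : ℤ) : ℚ) : Λ)) := by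
    have : (fun e => ((W.w e - (2 : ℤ) : ℚ) : Λ)) = fun e => W.k e - ((2 : ℚ) : Λ) := by
      ext e; rw [Rat.cast_sub]; rfl
    rw [this, fop_sub, fop_const, hD, Cohomology.Auto.S2, hwμ]
  have hN2 : M.N 2 ∈ (adE (F.φ 2)).maxGenEigenspace (q : Λ)⁻¹ := by
    rw [Module.End.mem_maxGenEigenspace]
    refine ⟨1, ?_⟩
    rw [pow_one, LinearMap.sub_apply, adE_twist _ hq0 (M.twist 2 h2d)]
    exact sub_self _
  have hDN : D * M.N 2 - M.N 2 * D = -(2 : Λ) • M.N 2 := by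
    have h1 := comm_fop W (abs_U M hWU h2d) hN2
    rw [hwinv] at h1
    rw [← h1, hD, Cohomology.Auto.S2, sub_mul, mul_sub, smul_mul_assoc, mul_smul_comm, one_mul,
      mul_one]
    abel
  have hDtop : (⨆ j : ℤ, D.eigenspace (j : Λ)) = ⊤ := by
    rw [hDfop]
    refine (t_fope Λ (Y.H 2) _ _).2.2 fun e he => ?_
    obtain ⟨w, hw⟩ := abs_weights M h2d e he
    refine ⟨w - 2, ?_⟩
    rw [hWw w e hw]
    push_cast
    ring
  have hW2 : ∀ j : ℤ, D.eigenspace (j : Λ) = WS q (en (F.φ 2)) (2 + j) := fun j => by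
    rw [hDfop]
    exact WS_eq hq (abs_weights M h2d) hWw 2 j
  have hfrm := t_frm Λ (Y.H 2) _ hq 2 _ (M.N 2) (abs_weights M h2d) (M.twist 2 h2d) M.mw_two
  have hbij : ∀ j : ℕ, Set.BijOn (⇑(M.N 2 ^ j)) (D.eigenspace (j : Λ) : Set (Y.H 2))
      (D.eigenspace (-(j : Λ)) : Set (Y.H 2)) := by
    intro j
    have h1 := hW2 (j : ℤ)
    have h2 := hW2 (-(j : ℤ))
    rw [Int.cast_natCast] at h1
    rw [Int.cast_neg, Int.cast_natCast, ← sub_eq_add_neg] at h2
    rw [h1, h2]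
    exact hfrm j
  obtain ⟨Z, hY, hDY, hYN⟩ := t_sl2a Λ (Y.H 2) Y.q Y.symm Y.nondeg D (M.N 2)
    hDskew M.skew hDN hDtop hbij
  -- the representation on `H^i`
  have b1 : Y.ρ i D * Y.ρ i Z - Y.ρ i Z * Y.ρ i D = (2 : Λ) • Y.ρ i Z := by
    rw [← Y.bracket i D Z hDskew hY, hDY, map_smul]
  have b2 : Y.ρ i D * M.N i - M.N i * Y.ρ i D = -(2 : Λ) • M.N i := by
    rw [abs_N_eq M hq h2d hi hr, ← Y.bracket i D _ hDskew M.skew, hDN, map_smul]
  have b3 : Y.ρ i Z * M.N i - M.N i * Y.ρ i Z = Y.ρ i D := by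
    rw [abs_N_eq M hq h2d hi hr, ← Y.bracket i Z _ hY M.skew, hYN]
  obtain ⟨-, hB⟩ := t_sl2b Λ (Y.H i) _ _ _ b1 b2 b3
  have hT := abs_T_nil M h2d hWU hWw hi hr hd
  have hTc : Commute (Y.ρ i D) (F.T W i i) :=
    T_comm (abs_U M hWU h2d) (abs_U M hWU hi) _ hDskew
  have hsum : Y.ρ i D + F.T W i i =
      fop (en (F.φ i)) (fun e => ((W.w e - ((i : ℤ) : ℚ) : ℚ) : Λ)) := by
    rw [Cohomology.Auto.T, hD]
    simp only [Int.cast_natCast]
    abel
  have hWi : ∀ j : ℤ, (Y.ρ i D).maxGenEigenspace (j : Λ) =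
      WS q (en (F.φ i)) ((i : ℤ) + j) := fun j => by
    rw [← t_wsp Λ (Y.H i) _ _ hTc hT, hsum, (t_fope Λ (Y.H i) _ _).2.1]
    exact WS_eq hq (abs_weights M hi) hWw (i : ℤ) j
  refine t_tom Λ (Y.H i) _ hq i _ (M.N i) (abs_weights M hi) (M.twist i hi) fun j => ?_
  have h1 := hWi (j : ℤ)
  have h2 := hWi (-(j : ℤ))
  rw [Int.cast_natCast] at h1
  rw [Int.cast_neg, Int.cast_natCast, ← sub_eq_add_neg] at h2
  rw [← h1, ← h2]
  exact hB j

end

end Pool.Agent.H66PH
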