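import Pool.Agent.H66PH.Defs

/-!
# The action on operators
-/

set_option autoImplicit false

namespace Pool.Agent.H66PH

open Module TensorProduct NumberField IsDedekindDomain Filter Topology
open Pool.Agent.W401.Cheb Pool.Agent.N184.HK

section

variable {K : Type} [Field K] [NumberField K] {u : HeightOneSpectrum (𝓞 K)} {G : WeilGroup K u}
  {Ω : Type} [Field Ω] {χ : GK K → Ω} (B : PeriodField G Ω χ)
  {V : Type} [AddCommGroup V] [Module Ω V] (r : GK K →* Module.End Ω V)

/-- The embedding of `V` in `L ⊗ V`. -/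
noncomputable def PeriodField.al (V : Type) [AddCommGroup V] [Module Ω V] : V →ₗ[Ω] B.TL V :=
  (TensorProduct.mk Ω B.L V 1 : V →ₗ[Ω] B.L ⊗[Ω] V)

lemma PeriodField.jX (V : Type) [AddCommGroup V] [Module Ω V] : IsBaseChange B.L (B.al V) :=
  TensorProduct.isBaseChange Ω V B.L

lemma PeriodField.Dpst_eq : B.Dpst r = fixd G.filt (B.act r) := by
  ext x
  exact G.near_iff _

lemma PeriodField.const' (l : B.L) (h : ∀ᶠ g in G.filt, B.τ g l = l) :
    ∃ c : B.C, algebraMap B.C B.L c = l :=
  B.const l ((G.near_iff _).2 h)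

lemma PeriodField.act_al (g : G.W) (x : V) : B.act r g (B.al V x) = B.al V (r (G.res g) x) := by
  have h1 : B.al V x = B.tm 1 x := rfl
  rw [h1, B.act_tmul, map_one]
  rfl

lemma PeriodField.mon_al (x : V) : B.mon V (B.al V x) = 0 := by
  have h1 : B.al V x = B.tm 1 x := rfl
  rw [h1, B.mon_tmul]
  have h := B.leibniz 1 1
  rw [mul_one, mul_one, one_mul] at h
  rw [left_eq_add.1 h]
  exact TensorProduct.zero_tmul B.L x

lemma PeriodField.act_inv_left (g : G.W) (x : B.TL V) :
    B.act r g⁻¹ (B.act r g x) = x := by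
  rw [← B.act_mul, inv_mul_cancel, B.act_one]

lemma PeriodField.act_inv_right (g : G.W) (x : B.TL V) :
    B.act r g (B.act r g⁻¹ x) = x := by
  rw [← B.act_mul, mul_inv_cancel, B.act_one]

lemma PeriodField.τ_inv_left (g : G.W) (x : B.L) : B.τ g⁻¹ (B.τ g x) = x := by
  rw [← AlgEquiv.mul_apply, ← map_mul, inv_mul_cancel, map_one]; rfl

lemma PeriodField.τ_inv_right (g : G.W) (x : B.L) : B.τ g (B.τ g⁻¹ x) = x := by
  rw [← AlgEquiv.mul_apply, ← map_mul, mul_inv_cancel, map_one]; rfl

/-- Conjugation of a linear operator with the semilinear action. -/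
noncomputable def PeriodField.ad (g : G.W) (A : Module.End B.L (B.TL V)) :
    Module.End B.L (B.TL V) where
  toFun x := B.act r g (A (B.act r g⁻¹ x))
  map_add' x y := by rw [map_add, map_add, map_add]
  map_smul' l x := by
    rw [B.act_smul, map_smul, B.act_smul, B.τ_inv_right]
    rfl

lemma PeriodField.ad_apply (g : G.W) (A : Module.End B.L (B.TL V)) (x : B.TL V) :
    B.ad r g A x = B.act r g (A (B.act r g⁻¹ x)) := rfl

lemma PeriodField.ad_act (g : G.W) (A : Module.End B.L (B.TL V)) (x : B.TL V) :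
    B.ad r g A (B.act r g x) = B.act r g (A x) := by
  rw [B.ad_apply, B.act_inv_left]

lemma PeriodField.ad_add (g : G.W) (A A' : Module.End B.L (B.TL V)) :
    B.ad r g (A + A') = B.ad r g A + B.ad r g A' := by
  ext x
  simp [B.ad_apply]

lemma PeriodField.ad_sub (g : G.W) (A A' : Module.End B.L (B.TL V)) :
    B.ad r g (A - A') = B.ad r g A - B.ad r g A' := by
  ext x
  simp [B.ad_apply]

lemma PeriodField.ad_zero (g : G.W) : B.ad r g (0 : Module.End B.L (B.TL V)) = 0 := by
  ext x
  simp [B.ad_apply]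

lemma PeriodField.ad_smul (g : G.W) (l : B.L) (A : Module.End B.L (B.TL V)) :
    B.ad r g (l • A) = B.τ g l • B.ad r g A := by
  refine LinearMap.ext fun x => ?_
  rw [B.ad_apply, LinearMap.smul_apply, B.act_smul, LinearMap.smul_apply, B.ad_apply]

lemma PeriodField.ad_mul (g : G.W) (A A' : Module.End B.L (B.TL V)) :
    B.ad r g (A * A') = B.ad r g A * B.ad r g A' := by
  refine LinearMap.ext fun x => ?_
  rw [Module.End.mul_apply, B.ad_apply, B.ad_apply, B.ad_apply, B.act_inv_left, Module.End.mul_apply]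

/-- Conjugation of rational operators. -/
lemma PeriodField.ad_eH (g : G.W) (a a' : Module.End Ω V)
    (h : a' * r (G.res g) = r (G.res g) * a) :
    B.ad r g (eH (B.jX V) a) = eH (B.jX V) a' := by
  refine bc_ext (B.jX V) fun v => ?_
  have h1 : r (G.res g) (r (G.res g⁻¹) v) = v := by
    rw [← Module.End.mul_apply, ← map_mul, ← map_mul, mul_inv_cancel, map_one, map_one]
    rfl
  rw [B.ad_apply, B.act_al, eH_apply, B.act_al, eH_apply]
  have h2 := congrArg (fun f : Module.End Ω V => f (r (G.res g⁻¹) v)) h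
  change a' (r (G.res g) (r (G.res g⁻¹) v)) = r (G.res g) (a (r (G.res g⁻¹) v)) at h2
  rw [h1] at h2
  rw [h2]

section fin

variable [FiniteDimensional Ω V]

instance : FiniteDimensional B.L (B.TL V) := bc_finite (B.jX V)

instance : FiniteDimensional B.C (B.Dpst r) := by
  rw [B.Dpst_eq]
  exact fixd_finite (τ := fun g => (B.τ g : B.L →+* B.L)) (fun g l x => B.act_smul r g l x)
    B.const'

variable {r} in
lemma PeriodField.jD (h : B.IsPst r) : IsBaseChange B.L (B.Dpst r).subtype := by
  have h1 : Submodule.span B.L ((fixd G.filt (B.act r) : Submodule B.C (B.TL V)) :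
      Set (B.TL V)) = ⊤ := by
    rw [← B.Dpst_eq]
    exact h
  have h2 := fixd_bc (τ := fun g => (B.τ g : B.L →+* B.L)) (fun g l x => B.act_smul r g l x)
    B.const' h1
  rw [← B.Dpst_eq] at h2
  exact h2

/-- The elements of the inertia group near `1` act trivially on `D_pst(V)`. -/
lemma PeriodField.near_all : ∀ᶠ g in G.filt, ∀ x ∈ B.Dpst r, B.act r g x = x := by
  set b := Module.finBasis B.C (B.Dpst r) with hb
  have h1 : ∀ᶠ g in G.filt, ∀ i, B.act r g (b i : B.TL V) = b i := by
    rw [Filter.eventually_all]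
    exact fun i => (G.near_iff _).1 (b i).2
  filter_upwards [h1] with g hg x hx
  have h2 := b.sum_repr ⟨x, hx⟩
  have h3 := congrArg (fun x : B.Dpst r => (x : B.TL V)) h2
  simp only [Submodule.coe_sum, Submodule.coe_smul] at h3
  rw [← h3, map_sum]
  refine Finset.sum_congr rfl fun i _ => ?_
  rw [map_smul, hg]

omit [FiniteDimensional Ω V] in
/-- An operator which commutes with the inertia group near `1` preserves `D_pst(V)`. -/
lemma PeriodField.preserves {A : Module.End B.L (B.TL V)} (hA : ∀ᶠ g in G.filt, B.ad r g A = A)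
    {x : B.TL V} (hx : x ∈ B.Dpst r) : A x ∈ B.Dpst r := by
  rw [B.Dpst_eq, mem_fixd] at hx ⊢
  filter_upwards [hA, hx] with g h1 h2
  have h3 := B.ad_act r g A x
  rw [h1, h2] at h3
  exact h3.symm

variable {r} in
/-- The extensions of the operators on `D_pst(V)` commute with the inertia group near `1`. -/
lemma PeriodField.near_ad (h : B.IsPst r) (a : Module.End B.C (B.Dpst r)) :
    ∀ᶠ g in G.filt, B.ad r g (eH (B.jD h) a) = eH (B.jD h) a := by
  filter_upwards [B.near_all r] with g hg
  refine bc_ext (B.jD h) fun x => ?_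
  have h1 : B.ad r g (eH (B.jD h) a) (B.act r g x) = B.act r g (eH (B.jD h) a x) :=
    B.ad_act r g _ _
  rw [hg x x.2] at h1
  have h2 : eH (B.jD h) a (x : B.TL V) = (a x : B.TL V) := eH_apply (B.jD h) a x
  have h3 := hg (a x : B.TL V) (a x).2
  change B.ad r g (eH (B.jD h) a) (x : B.TL V) = eH (B.jD h) a (x : B.TL V)
  rw [h1, h2, h3]

variable {r} in
/-- The restriction to `D_pst(V)` of an operator which preserves it. -/
lemma PeriodField.eH_restrict (h : B.IsPst r) {A : Module.End B.L (B.TL V)}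
    (a : Module.End B.C (B.Dpst r)) (ha : ∀ x : B.Dpst r, (a x : B.TL V) = A x) :
    eH (B.jD h) a = A := by
  refine bc_ext (B.jD h) fun x => ?_
  have h2 : eH (B.jD h) a (x : B.TL V) = (a x : B.TL V) := eH_apply (B.jD h) a x
  change eH (B.jD h) a (x : B.TL V) = A x
  rw [h2, ha]

end fin

end

end Pool.Agent.H66PH
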