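import Pool.Agent.H66PH.Lin

/-!
# Fixed vectors of semilinear actions: Artin's lemma
-/

set_option autoImplicit false

namespace Pool.Agent.H66PH

open Module TensorProduct Filter

section artin

variable {C L : Type} [Field C] [Field L] [Algebra C L] {U : Type} [AddCommGroup U] [Module L U]
  [Module C U] [IsScalarTower C L U] {W : Type} (𝓕 : Filter W) (τ : W → (L →+* L))
  (s : W → (U →ₗ[C] U))

/-- The vectors which are fixed by almost all operators. -/
def fixd : Submodule C U where
  carrier := {u | ∀ᶠ h in 𝓕, s h u = u}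
  add_mem' := fun {a b} ha hb => by
    filter_upwards [ha, hb] with h h1 h2
    rw [map_add, h1, h2]
  zero_mem' := by
    change ∀ᶠ h in 𝓕, s h 0 = 0
    exact Eventually.of_forall fun h => map_zero _
  smul_mem' := fun c a ha => by
    filter_upwards [ha] with h h1
    rw [map_smul, h1]

variable {𝓕 τ s}

lemma mem_fixd {u : U} : u ∈ fixd 𝓕 s ↔ ∀ᶠ h in 𝓕, s h u = u := Iff.rfl

/-- Vectors in the fixed space which are linearly independent over `C` are linearly independent
over `L`. -/
lemma artin (hs : ∀ h l u, s h (l • u) = τ h l • s h u)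
    (hc : ∀ l : L, (∀ᶠ h in 𝓕, τ h l = l) → ∃ c : C, algebraMap C L c = l)
    {ι : Type} {b : ι → U} (hb : ∀ i, b i ∈ fixd 𝓕 s) (hli : LinearIndependent C b) :
    LinearIndependent L b := by
  classical
  rw [linearIndependent_iff']
  intro S
  induction S using Finset.induction_on with
  | empty => intro g _ i hi; exact absurd hi (Finset.notMem_empty i)
  | insert i₀ S hi₀ ih =>
    intro g hg
    by_cases h0 : g i₀ = 0
    · have h1 : ∑ i ∈ S, g i • b i = 0 := by
        rw [Finset.sum_insert hi₀, h0, zero_smul, zero_add] at hg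
        exact hg
      intro i hi
      rcases Finset.mem_insert.1 hi with rfl | hi
      · exact h0
      · exact ih g h1 i hi
    · exfalso
      set g' : ι → L := fun i => (g i₀)⁻¹ * g i with hg'
      have h1 : b i₀ + ∑ i ∈ S, g' i • b i = 0 := by
        have := congrArg (fun u => (g i₀)⁻¹ • u) hg
        simp only [smul_zero] at this
        rw [Finset.sum_insert hi₀, smul_add, smul_smul, inv_mul_cancel₀ h0, one_smul,
          Finset.smul_sum] at this
        rw [← this]
        congr 1
        exact Finset.sum_congr rfl fun i _ => by rw [smul_smul]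
      have h2 : ∀ i ∈ S, ∀ᶠ h in 𝓕, τ h (g' i) = g' i := by
        have h3 : ∀ᶠ h in 𝓕, ∀ i ∈ S, τ h (g' i) = g' i := by
          have h4 : ∀ᶠ h in 𝓕, ∀ i ∈ insert i₀ S, s h (b i) = b i := by
            rw [Filter.eventually_all_finset]
            exact fun i _ => hb i
          filter_upwards [h4] with h h4
          have h5 := congrArg (s h) h1
          rw [map_zero, map_add, map_sum, h4 i₀ (Finset.mem_insert_self _ _)] at h5
          have h6 : ∑ i ∈ S, (τ h (g' i) - g' i) • b i = 0 := by
            have h7 : ∑ i ∈ S, s h (g' i • b i) = ∑ i ∈ S, τ h (g' i) • b i :=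
              Finset.sum_congr rfl fun i hi => by
                rw [hs, h4 i (Finset.mem_insert_of_mem hi)]
            rw [h7] at h5
            simp only [sub_smul, Finset.sum_sub_distrib]
            have := h5.trans h1.symm
            rw [add_left_cancel_iff] at this
            rw [this, sub_self]
          intro i hi
          exact sub_eq_zero.1 (ih _ h6 i hi)
        intro i hi
        filter_upwards [h3] with h h3
        exact h3 i hi
      choose! c hcc using fun i hi => hc (g' i) (h2 i hi)
      have h3 : ∑ i ∈ insert i₀ S, (if i = i₀ then 1 else c i) • b i = 0 := by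
        rw [Finset.sum_insert hi₀, if_pos rfl, one_smul, ← h1]
        congr 1
        refine Finset.sum_congr rfl fun i hi => ?_
        have hne : i ≠ i₀ := fun h => hi₀ (h ▸ hi)
        rw [if_neg hne, ← hcc i hi, algebraMap_smul]
      have h4 := linearIndependent_iff'.1 hli _ _ h3 i₀ (Finset.mem_insert_self _ _)
      rw [if_pos rfl] at h4
      exact one_ne_zero h4

lemma fixd_finite [FiniteDimensional L U] (hs : ∀ h l u, s h (l • u) = τ h l • s h u)
    (hc : ∀ l : L, (∀ᶠ h in 𝓕, τ h l = l) → ∃ c : C, algebraMap C L c = l) :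
    FiniteDimensional C (fixd 𝓕 s) := by
  have h1 : LinearIndependent L (fun i => ((Basis.ofVectorSpace C (fixd 𝓕 s) i : fixd 𝓕 s) : U)) := by
    refine artin hs hc (fun i => (Basis.ofVectorSpace C (fixd 𝓕 s) i).2) ?_
    exact (Basis.ofVectorSpace C (fixd 𝓕 s)).linearIndependent.map' (fixd 𝓕 s).subtype
      (Submodule.ker_subtype _)
  have := h1.finite
  exact Module.Finite.of_basis (Basis.ofVectorSpace C (fixd 𝓕 s))

/-- If the fixed vectors span the space, it is the base change of the space of fixed vectors. -/
lemma fixd_bc [FiniteDimensional L U] (hs : ∀ h l u, s h (l • u) = τ h l • s h u)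
    (hc : ∀ l : L, (∀ᶠ h in 𝓕, τ h l = l) → ∃ c : C, algebraMap C L c = l)
    (hsp : Submodule.span L ((fixd 𝓕 s : Submodule C U) : Set U) = ⊤) :
    IsBaseChange L (fixd 𝓕 s).subtype := by
  classical
  have := fixd_finite hs hc
  set b := Module.finBasis C (fixd 𝓕 s) with hb
  have h1 : LinearIndependent L (fun i => ((b i : fixd 𝓕 s) : U)) := by
    refine artin hs hc (fun i => (b i).2) ?_
    exact b.linearIndependent.map' (fixd 𝓕 s).subtype (Submodule.ker_subtype _)
  have h2 : ⊤ ≤ Submodule.span L (Set.range fun i => ((b i : fixd 𝓕 s) : U)) := by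
    rw [← hsp, Submodule.span_le]
    intro u hu
    have h3 := b.sum_repr ⟨u, hu⟩
    have h4 := congrArg (fun x : fixd 𝓕 s => (x : U)) h3
    simp only [Submodule.coe_sum, Submodule.coe_smul] at h4
    change u ∈ Submodule.span L (Set.range fun i => ((b i : fixd 𝓕 s) : U))
    rw [← h4]
    refine Submodule.sum_mem _ fun i _ => ?_
    rw [← algebraMap_smul L]
    exact Submodule.smul_mem _ _ (Submodule.subset_span ⟨i, rfl⟩)
  set b' := Basis.mk h1 h2 with hb'
  refine IsBaseChange.of_equiv ((Algebra.TensorProduct.basis L b).equiv b' (Equiv.refl _)) fun x => ?_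
  have h3 := b.sum_repr x
  conv_lhs => rw [← h3]
  rw [TensorProduct.tmul_sum, map_sum]
  conv_rhs => rw [← h3]
  rw [map_sum]
  refine Finset.sum_congr rfl fun i _ => ?_
  have h4 : (1 : L) ⊗ₜ[C] (b i) = Algebra.TensorProduct.basis L b i := by
    rw [Algebra.TensorProduct.basis_apply]
  have h5 : (1 : L) ⊗ₜ[C] (b.repr x i • b i) =
      (algebraMap C L (b.repr x i)) • Algebra.TensorProduct.basis L b i := by
    rw [← h4, TensorProduct.tmul_smul, algebraMap_smul]
  rw [h5, map_smul, Basis.equiv_apply, Equiv.refl_apply, hb', Basis.mk_apply, algebraMap_smul]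
  rfl

end artin

end Pool.Agent.H66PH
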