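import Pool.Agent.N184.HK.WDefs

/-!
# Potentially semistable representations of the Weil group
-/

set_option autoImplicit false

namespace Pool.Agent.H66PH

open Module TensorProduct NumberField IsDedekindDomain
open Pool.Agent.W401.Cheb Pool.Agent.N184.HK Pool.Agent.Y143

/-- The Weil group `W` of the completion of the number field `K` at the place `u`, with the
restriction map to the absolute Galois group of `K` and the normalized valuation. The kernel of
the valuation is the inertia group, and the elements of valuation `1` are the geometric Frobenius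
elements. -/
structure Weil (K : Type) [Field K] [NumberField K] (u : HeightOneSpectrum (𝓞 K)) (W : Type)
    [Group W] where
  res : W →* GK K
  val : W →* Multiplicative ℤ
  inert : ∀ g, val g = 1 → IsInert u (res g)
  frob : ∀ g, val g = Multiplicative.ofAdd 1 → IsFrob u (res g)⁻¹

/-- The cyclotomic character `χ` of the absolute Galois group of `K`, with values in the topological
field `Ω` (an extension of `ℚ_p`): it is continuous, and `χ σ = N v ^ (-1)` for a geometric Frobenius
element `σ` at a place `v` which is not in the finite set `bad` (which contains the places above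
`p`). -/
structure CycChar (K : Type) [Field K] [NumberField K] (Ω : Type) [Field Ω]
    [TopologicalSpace Ω] (bad : Set (HeightOneSpectrum (𝓞 K))) where
  χ : GK K → Ω
  cont : Continuous χ
  frob : ∀ v, v ∉ bad → ∀ σ, IsFrob v σ⁻¹ → χ σ * (Ideal.absNorm v.asIdeal : Ω) = 1

section

variable {C U : Type} [Field C] [CharZero C] [AddCommGroup U] [Module C U]

/-- The operators `Φ` and `N` map the subspace `D` to itself, and `D` is mw pure of weight `i` for
these operators: every eigenvalue of `Φ` on the graded piece `M_a / M_(a - 1)` of the monodromy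
filtration `M` of `N` on `D` is a `q`-Weil number of weight `a + i`. -/
def IsPureOn (q : ℕ) (i : ℤ) (D : Submodule C U) (Φ N : Module.End C U) : Prop :=
  ∃ Φ' N' : Module.End C D, (∀ x : D, (Φ' x : U) = Φ x) ∧ (∀ x : D, (N' x : U) = N x) ∧
    IsMWPure q i Φ' N'

/-- The eigenvalues of `Φ` on the subspace `D` are `q`-Weil numbers of integral weights. -/
def IsWeightedOn (q : ℕ) (D : Submodule C U) (Φ : Module.End C U) : Prop :=
  ∀ x ∈ D, x ≠ 0 → ∀ e : C, Φ x = e • x → ∃ w : ℤ, IsWeilNumber q w e

end

section

variable {K : Type} [Field K] [NumberField K] {u : HeightOneSpectrum (𝓞 K)} {W : Type} [Group W]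

/-- The valuation as an integer. -/
def Weil.deg (G : Weil K u W) (g : W) : ℤ := (G.val g).toAdd

/-- The elements of the inertia group in `O`. -/
def Weil.inertia (G : Weil K u W) (O : Set (GK K)) : Set W := {g | G.deg g = 0 ∧ G.res g ∈ O}

/-- The field `L` is a field of `p`-adic periods for the completion of `K` at the place `u` above
`p`, whose residue field has `q` elements. The example is as follows. `C` is an algebraic closure of
`W(k)[1/p]`, where `k` is an algebraic closure of the residue field; `L` is the fraction field of
`C ⊗ B`, where `B` is Fontaine's ring of semistable periods over `W(k)[1/p]` (more precisely its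
subring `⋂ φ ^ n (B)`, on which `φ` is bijective); `Ω` is an algebraic closure of `ℚ_p` in `C`. The
element `g` of the Weil group acts on `L` by `τ g`, the `C`-linear extension of `g ∘ φ ^ n(g)`; `N` is
the monodromy operator, a `C`-linear derivation with `N ∘ τ g = q ^ val(g) τ g ∘ N`; `t` is Fontaine's
element, with `N t = 0` and `τ g t = χ(g) q ^ val(g) t`. The elements of `L` which are fixed by an
open subgroup of the inertia group are the elements of `C`. -/
structure Periods (G : Weil K u W) {Ω : Type} [Field Ω] (χ : GK K → Ω) (C L : Type) [Field C]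
    [Field L] [Algebra C L] [Algebra Ω L] where
  τ : W →* (L ≃ₐ[C] L)
  N : L →ₗ[C] L
  t : L
  leibniz : ∀ x y, N (x * y) = N x * y + x * N y
  N_τ : ∀ g x, N (τ g x) = (Ideal.absNorm u.asIdeal : L) ^ G.deg g * τ g (N x)
  t_ne : t ≠ 0
  N_t : N t = 0
  τ_t : ∀ g, τ g t =
    algebraMap Ω L (χ (G.res g)) * (Ideal.absNorm u.asIdeal : L) ^ G.deg g * t
  const : ∀ O, IsOpen O → 1 ∈ O → ∀ x, (∀ g ∈ G.inertia O, τ g x = x) →
    ∃ c, algebraMap C L c = x

variable {G : Weil K u W} {Ω : Type} [Field Ω] {χ : GK K → Ω} {C L : Type} [Field C] [Field L]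
  [Algebra Ω C] [Algebra C L] [Algebra Ω L] [IsScalarTower Ω C L] (P : Periods G χ C L)

/-- The action of the Weil group on `L ⊗ V`, for a representation `r` of the Galois group on `V`:
`g (l ⊗ x) = τ g l ⊗ r g x`. -/
noncomputable def Periods.act {V : Type} [AddCommGroup V] [Module Ω V]
    (r : GK K → Module.End Ω V) (g : W) : Module.End C (L ⊗[Ω] V) :=
  AlgebraTensorModule.map (P.τ g).toLinearMap (r (G.res g))

/-- The monodromy operator on `L ⊗ V`: `N (l ⊗ x) = N l ⊗ x`. -/
noncomputable def Periods.mon (V : Type) [AddCommGroup V] [Module Ω V] :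
    Module.End C (L ⊗[Ω] V) :=
  AlgebraTensorModule.map P.N LinearMap.id

/-- The space `D_pst(V)`: the union, over the neighbourhoods `O` of `1`, of the subspaces of the
elements of `L ⊗ V` which are fixed by the elements of the inertia group in `O`. -/
noncomputable def Periods.Dpst {V : Type} [AddCommGroup V] [Module Ω V]
    (r : GK K → Module.End Ω V) : Submodule C (L ⊗[Ω] V) :=
  ⨆ O : {O : Set (GK K) // IsOpen O ∧ 1 ∈ O}, ⨅ g ∈ G.inertia O.1, (P.act r g).eigenspace 1

/-- The representation `r` is potentially semistable: `L ⊗ V` is spanned by `D_pst(V)`. -/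
def Periods.IsPst {V : Type} [AddCommGroup V] [Module Ω V] (r : GK K → Module.End Ω V) : Prop :=
  Submodule.span L (P.Dpst r : Set (L ⊗[Ω] V)) = ⊤

variable [CharZero C]

/-- All eigenvalues of the element `g` of the Weil group, of valuation `n`, on `D_pst(V)` are
`q ^ n`-Weil numbers of integral weights. -/
def Periods.IsWeighted {V : Type} [AddCommGroup V] [Module Ω V] (r : GK K → Module.End Ω V)
    (g : W) (n : ℕ) : Prop :=
  IsWeightedOn (Ideal.absNorm u.asIdeal ^ n) (P.Dpst r) (P.act r g)

/-- The space `D_pst(V)`, with the action of the element `g` of the Weil group, of valuation `n`, and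
with the monodromy operator, is mw pure of weight `i`. -/
def Periods.IsPure {V : Type} [AddCommGroup V] [Module Ω V] (r : GK K → Module.End Ω V)
    (g : W) (n : ℕ) (i : ℤ) : Prop :=
  IsPureOn (Ideal.absNorm u.asIdeal ^ n) i (P.Dpst r) (P.act r g) (P.mon V)

end

end Pool.Agent.H66PH
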