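import Pool.Agent.H66PH.Det
import Pool.Agent.H66PH.Pst

/-!
# The main theorem
-/

set_option autoImplicit false

namespace Pool.Agent.H66PH

open Module TensorProduct NumberField IsDedekindDomain
open Pool.Agent.W401.Cheb Pool.Agent.N184.HK Pool.Agent.Y143

section

variable {C V V' : Type} [Field C] [CharZero C] [AddCommGroup V] [Module C V] [AddCommGroup V']
  [Module C V']

/-- Transport of mw purity. -/
lemma mw_equiv (e : V ≃ₗ[C] V') {Φ N : Module.End C V} {Φ' N' : Module.End C V'}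
    (hΦ : ∀ x, e (Φ x) = Φ' (e x)) (hN : ∀ x, e (N x) = N' (e x)) {q : ℕ} {i : ℤ}
    (h : IsMWPure q i Φ N) : IsMWPure q i Φ' N' := by
  obtain ⟨M, hM, hst, hw⟩ := h
  have hNk : ∀ (k : ℕ) x, e ((N ^ k) x) = (N' ^ k) (e x) := by
    intro k
    induction k with
    | zero => intro x; rfl
    | succ k ih =>
      intro x
      rw [pow_succ, pow_succ, Module.End.mul_apply, Module.End.mul_apply, ih, hN]
  have hmem : ∀ a x, e x ∈ (M a).map e.toLinearMap ↔ x ∈ M a := by
    intro a x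
    constructor
    · rintro ⟨y, hy, hyx⟩
      rw [← e.injective hyx]
      exact hy
    · exact fun hx => ⟨x, hx, rfl⟩
  refine ⟨fun a => (M a).map e.toLinearMap, ⟨fun a b hab => Submodule.map_mono (hM.mono hab), ?_,
    ?_, ?_, ?_, ?_⟩, ?_, ?_⟩
  · obtain ⟨a, ha⟩ := hM.bot
    exact ⟨a, by rw [ha, Submodule.map_bot]⟩
  · obtain ⟨a, ha⟩ := hM.top
    refine ⟨a, ?_⟩
    rw [ha, Submodule.map_top]
    exact LinearMap.range_eq_top.2 e.surjective
  · intro a y hy
    obtain ⟨x, rfl⟩ := e.surjective y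
    rw [hmem] at hy
    rw [← hN, hmem]
    exact hM.map a x hy
  · intro a y hy hy'
    obtain ⟨x, rfl⟩ := e.surjective y
    rw [hmem] at hy
    rw [← hNk, hmem] at hy'
    rw [hmem]
    exact hM.inj a x hy hy'
  · intro a y hy
    obtain ⟨x, rfl⟩ := e.surjective y
    rw [hmem] at hy
    obtain ⟨z, hz, hz'⟩ := hM.surj a x hy
    refine ⟨e z, (hmem a z).2 hz, ?_⟩
    rw [← hNk, ← map_sub, hmem]
    exact hz'
  · intro a y hy
    obtain ⟨x, rfl⟩ := e.surjective y
    rw [hmem] at hy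
    rw [← hΦ, hmem]
    exact hst a x hy
  · intro a α y hy hy' hy''
    obtain ⟨x, rfl⟩ := e.surjective y
    rw [hmem] at hy hy'
    rw [← hΦ, ← map_smul, ← map_sub, hmem] at hy''
    exact hw a α x hy hy' hy''

end

section

variable {K : Type} [Field K] [NumberField K] {u : HeightOneSpectrum (𝓞 K)} {W : Type} [Group W]

/-- The Weil group. -/
def Weil.bundle (G : Weil K u W) : WeilGroup K u where
  W := W
  res := G.res
  v := G.val
  inert := G.inert
  frob := G.frob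

variable {G : Weil K u W} {Ω : Type} [Field Ω] {χ : GK K → Ω} {C L : Type} [Field C] [Field L]
  [Algebra Ω C] [Algebra C L] [Algebra Ω L] [IsScalarTower Ω C L] (P : Periods G χ C L)

/-- The period field. -/
noncomputable def Periods.bundle [IsAlgClosed C] : PeriodField G.bundle Ω χ where
  C := C
  L := L
  τ := P.τ
  N := P.N
  leibniz := P.leibniz
  N_τ := P.N_τ
  t := P.t
  t_ne := P.t_ne
  N_t := P.N_t
  τ_t := P.τ_t
  const := by
    rintro x ⟨O, hO, hO1, h⟩
    exact P.const O hO hO1 x fun g hg => h g hg.1 hg.2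

variable {V : Type} [AddCommGroup V] [Module Ω V] (r : GK K →* Module.End Ω V)

lemma Periods.mem_Dpst (x : L ⊗[Ω] V) : x ∈ P.Dpst (fun σ => r σ) ↔
    ∃ O : Set (GK K), IsOpen O ∧ 1 ∈ O ∧ ∀ g, G.deg g = 0 → G.res g ∈ O →
      P.act (fun σ => r σ) g x = x := by
  have : Nonempty {O : Set (GK K) // IsOpen O ∧ 1 ∈ O} :=
    ⟨⟨Set.univ, isOpen_univ, Set.mem_univ _⟩⟩
  rw [Periods.Dpst, Submodule.mem_iSup_of_directed]
  · constructor
    · rintro ⟨⟨O, hO, hO1⟩, h⟩
      refine ⟨O, hO, hO1, fun g hg hgO => ?_⟩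
      rw [Submodule.mem_iInf] at h
      have h1 := h g
      rw [Submodule.mem_iInf] at h1
      have h2 := h1 ⟨hg, hgO⟩
      rw [Module.End.mem_eigenspace_iff, one_smul] at h2
      exact h2
    · rintro ⟨O, hO, hO1, h⟩
      refine ⟨⟨O, hO, hO1⟩, ?_⟩
      rw [Submodule.mem_iInf]
      intro g
      rw [Submodule.mem_iInf]
      rintro ⟨hg, hgO⟩
      rw [Module.End.mem_eigenspace_iff, one_smul]
      exact h g hg hgO
  · rintro ⟨O, hO, hO1⟩ ⟨O', hO', hO1'⟩
    refine ⟨⟨O ∩ O', hO.inter hO', ⟨hO1, hO1'⟩⟩, ?_, ?_⟩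
    · exact iInf_mono fun g => iInf_mono' fun hg => ⟨⟨hg.1, hg.2.1⟩, le_rfl⟩
    · exact iInf_mono fun g => iInf_mono' fun hg => ⟨⟨hg.1, hg.2.2⟩, le_rfl⟩

variable [IsAlgClosed C]

lemma Periods.Dpst_iff (x : L ⊗[Ω] V) :
    x ∈ P.Dpst (fun σ => r σ) ↔ (x : P.bundle.TL V) ∈ P.bundle.Dpst r :=
  P.mem_Dpst r x

/-- The module structure. -/
noncomputable instance Periods.modC : Module C (P.bundle.Dpst r) :=
  inferInstanceAs (Module P.bundle.C (P.bundle.Dpst r))

/-- The identification of the two models of `D_pst(V)`. -/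
def Periods.eqv : P.Dpst (fun σ => r σ) ≃ₗ[C] P.bundle.Dpst r where
  toFun x := ⟨(x : L ⊗[Ω] V), (P.Dpst_iff r x).1 x.2⟩
  map_add' _ _ := rfl
  map_smul' _ _ := rfl
  invFun x := ⟨x.1, (P.Dpst_iff r x.1).2 x.2⟩
  left_inv _ := rfl
  right_inv _ := rfl

lemma Periods.isPst_iff : P.IsPst (fun σ => r σ) → P.bundle.IsPst r := by
  intro h
  have h1 : ((P.Dpst fun σ => r σ : Submodule C (L ⊗[Ω] V)) : Set (L ⊗[Ω] V)) =
      ((P.bundle.Dpst r : Submodule P.bundle.C (P.bundle.TL V)) : Set (P.bundle.TL V)) := by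
    ext x
    exact P.Dpst_iff r x
  rw [Periods.IsPst, h1] at h
  exact h

variable [CharZero Ω] [CharZero C] (g : W) {n : ℕ} {i : ℤ}

lemma Periods.pure_up (h : P.IsPure (fun σ => r σ) g n i) :
    IsMWPure (Ideal.absNorm u.asIdeal ^ n) i (P.bundle.frobD r g) (P.bundle.monD r) := by
  obtain ⟨Φ, N, hΦ, hN, hp⟩ := h
  let Φ' : Module.End C (P.bundle.Dpst r) := P.bundle.frobD r g
  let N' : Module.End C (P.bundle.Dpst r) := P.bundle.monD r
  exact mw_equiv (C := C) (P.eqv r) (Φ' := Φ') (N' := N')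
    (fun x => Subtype.ext (hΦ x)) (fun x => Subtype.ext (hN x)) hp

lemma Periods.pure_down
    (h : IsMWPure (Ideal.absNorm u.asIdeal ^ n) i (P.bundle.frobD r g) (P.bundle.monD r)) :
    P.IsPure (fun σ => r σ) g n i := by
  let Φ' : Module.End C (P.bundle.Dpst r) := P.bundle.frobD r g
  let N' : Module.End C (P.bundle.Dpst r) := P.bundle.monD r
  refine ⟨(P.eqv r).symm.toLinearMap ∘ₗ Φ' ∘ₗ (P.eqv r).toLinearMap,
    (P.eqv r).symm.toLinearMap ∘ₗ N' ∘ₗ (P.eqv r).toLinearMap, fun x => rfl, fun x => rfl, ?_⟩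
  exact mw_equiv (C := C) (P.eqv r).symm (Φ := Φ') (N := N') (fun x => rfl) (fun x => rfl) h

lemma Periods.weighted_up (h : P.IsWeighted (fun σ => r σ) g n) :
    Weighted (Ideal.absNorm u.asIdeal ^ n) (P.bundle.frobD r g) := by
  intro e he
  obtain ⟨x, hx⟩ := he.exists_hasEigenvector
  refine h x.1 ((P.Dpst_iff r x.1).2 x.2) (fun h0 => hx.2 (Subtype.ext h0)) e ?_
  exact congrArg Subtype.val hx.apply_eq_smul

end

/-- **Main theorem.** -/
theorem pst_main {K : Type} [Field K] [NumberField K] {Ω : Type} [Field Ω] [CharZero Ω]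
    [IsAlgClosed Ω] [TopologicalSpace Ω] [IsTopologicalRing Ω] [T2Space Ω]
    (X : HKVariety K Ω) (χ : CycChar K Ω X.bad) (u : HeightOneSpectrum (𝓞 K))
    (W : Type) [Group W] (G : Weil K u W) (C L : Type) [Field C] [IsAlgClosed C] [CharZero C]
    [Field L] [Algebra Ω C] [Algebra C L] [Algebra Ω L] [IsScalarTower Ω C L]
    (P : Periods G χ.χ C L) (hpst : ∀ i, P.IsPst fun σ => X.E.Φ σ i)
    (n : ℕ) (hn : 1 ≤ n) (g : W) (hg : G.deg g = n)
    (hw : ∀ i ≤ X.d, P.IsWeighted (fun σ => X.E.Φ σ i) g n)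
    (h2 : P.IsPure (fun σ => X.E.Φ σ 2) g n 2) :
    ∀ i ≤ X.d, P.IsPure (fun σ => X.E.Φ σ i) g n i := by
  intro i hi
  -- the multiplier is the inverse of the square of the cyclotomic character
  have hμ : ∀ σ, X.E.mu σ * χ.χ σ ^ 2 = 1 := by
    intro σ
    have h0 := dense_zero X isOpen_univ (g := fun σ => X.E.mu σ * χ.χ σ ^ 2 - 1)
      ((X.E.cont_μ.mul (χ.cont.pow 2)).sub continuous_const) (fun v hv hp σ _ hσ => by
        have h1 := X.mult v hv σ hσ
        have h2 := χ.frob v hv σ hσ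
        rw [h1, ← mul_pow, mul_comm, h2, one_pow, sub_self]) σ (Set.mem_univ σ)
    exact sub_eq_zero.1 h0
  have hq : 1 < Ideal.absNorm u.asIdeal ^ n :=
    Nat.one_lt_pow (by omega) (NumberField.HeightOneSpectrum.one_lt_absNorm u)
  have hpst' : ∀ i, P.bundle.IsPst (coRep X.E i) := fun i => P.isPst_iff (coRep X.E i) (hpst i)
  refine P.pure_down (coRep X.E i) g ?_
  exact abs_pure (P.bundle.MD X.E hμ hpst' g hg
    (fun i hi => P.weighted_up (coRep X.E i) g (hw i hi)) (P.pure_up (coRep X.E 2) g h2)) hq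
    X.two_le hi (P.bundle.rootsOnCen X hμ hpst' g hi) (P.bundle.detOnCen X hμ hpst' g hi)

end Pool.Agent.H66PH
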