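import Mathlib

/-!
# A filtration of a quasi-unipotent representation on whose quotients an open set acts trivially
-/

set_option autoImplicit false

namespace Pool.Agent.H66PH

open Module Polynomial

/-- An operator is nilpotent if the traces of its positive powers vanish. -/
theorem nil_of_tr {Λ W : Type} [Field Λ] [CharZero Λ] [AddCommGroup W] [Module Λ W]
    [FiniteDimensional Λ W]
    (b : Module.End Λ W) (h : ∀ k : ℕ, LinearMap.trace Λ W (b ^ (k + 1)) = 0) : IsNilpotent b := by
  have hint : IsIntegral Λ b := Algebra.IsIntegral.isIntegral b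
  have hμ : minpoly Λ b ≠ 0 := minpoly.ne_zero hint
  obtain ⟨q, hq, hnd⟩ := Polynomial.exists_eq_pow_rootMultiplicity_mul_and_not_dvd (minpoly Λ b) hμ 0
  set s := (minpoly Λ b).rootMultiplicity 0
  rw [map_zero, sub_zero] at hq hnd
  have hcop : IsCoprime (X ^ (s + 1) : Λ[X]) q :=
    IsCoprime.pow_left ((Polynomial.irreducible_X.coprime_iff_not_dvd).2 hnd)
  obtain ⟨u, v, huv⟩ := hcop
  have hμ0 : aeval b (minpoly Λ b) = 0 := minpoly.aeval Λ b
  let e : Module.End Λ W := aeval b (u * X ^ (s + 1))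
  have he : IsIdempotentElem e := by
    have h1 : e - e * e = 0 := by
      change aeval b (u * X ^ (s + 1)) - aeval b (u * X ^ (s + 1)) * aeval b (u * X ^ (s + 1)) = 0
      rw [← map_mul, ← map_sub]
      have h2 : u * X ^ (s + 1) - u * X ^ (s + 1) * (u * X ^ (s + 1)) =
          (u * v * X) * minpoly Λ b := by
        rw [hq]
        have h3 : u * X ^ (s + 1) = 1 - v * q := by rw [← huv]; ring
        calc u * X ^ (s + 1) - u * X ^ (s + 1) * (u * X ^ (s + 1))
            = u * X ^ (s + 1) * (1 - u * X ^ (s + 1)) := by ring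
          _ = u * X ^ (s + 1) * (v * q) := by rw [h3]; ring
          _ = (u * v * X) * (X ^ s * q) := by ring
      rw [h2, map_mul, hμ0, mul_zero]
    exact (sub_eq_zero.1 h1).symm
  have htr : LinearMap.trace Λ W e = 0 := by
    have h1 : ∀ r : Λ[X], LinearMap.trace Λ W (aeval b (r * X)) = 0 := by
      intro r
      induction r using Polynomial.induction_on' with
      | add p q hp hq => rw [add_mul, map_add, map_add, hp, hq, add_zero]
      | monomial n a =>
        rw [← C_mul_X_pow_eq_monomial, mul_assoc, ← pow_succ, map_mul, aeval_C, map_pow, aeval_X,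
          ← Algebra.smul_def, map_smul, h, smul_zero]
    have h2 := h1 (u * X ^ s)
    rw [mul_assoc, ← pow_succ] at h2
    exact h2
  have he0 : e = 0 := LinearMap.IsIdempotentElem.eq_zero_of_trace_eq_zero he htr
  refine ⟨s, ?_⟩
  have h4 : b ^ s = aeval b (X ^ s * (u * X ^ (s + 1)) + v * minpoly Λ b) := by
    have h5 : (X ^ s * (u * X ^ (s + 1)) + v * minpoly Λ b : Λ[X]) = X ^ s := by
      rw [hq]
      calc (X ^ s * (u * X ^ (s + 1)) + v * (X ^ s * q) : Λ[X])
          = X ^ s * (u * X ^ (s + 1) + v * q) := by ring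
        _ = X ^ s := by rw [huv, mul_one]
    rw [h5, map_pow, aeval_X]
  rw [h4, map_add, map_mul (aeval b) (X ^ s) _, map_mul (aeval b) v _, hμ0, mul_zero, add_zero]
  change _ * e = 0
  rw [he0, mul_zero]

section

variable {Λ A Γ : Type} [Field Λ] [AddCommGroup A] [Module Λ A] [Group Γ]
  (r : Γ →* Module.End Λ A)

/-- The algebra spanned by the operators of the representation. -/
def alg : Submodule Λ (Module.End Λ A) := Submodule.span Λ (Set.range r)

lemma mem_alg (g : Γ) : r g ∈ alg r := Submodule.subset_span ⟨g, rfl⟩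

lemma one_mem_alg : (1 : Module.End Λ A) ∈ alg r := by
  rw [← map_one r]
  exact mem_alg r 1

variable {r} in
lemma mul_mem_alg {x y : Module.End Λ A} (hx : x ∈ alg r) (hy : y ∈ alg r) : x * y ∈ alg r := by
  refine Submodule.span_induction (p := fun x _ => x * y ∈ alg r) ?_ (by simp)
    (fun a b _ _ ha hb => by rw [add_mul]; exact add_mem ha hb)
    (fun c a _ ha => by rw [smul_mul_assoc]; exact Submodule.smul_mem _ _ ha) hx
  rintro _ ⟨g, rfl⟩
  refine Submodule.span_induction (p := fun y _ => r g * y ∈ alg r) ?_ (by simp)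
    (fun a b _ _ ha hb => by rw [mul_add]; exact add_mem ha hb)
    (fun c a _ ha => by rw [mul_smul_comm]; exact Submodule.smul_mem _ _ ha) hy
  rintro _ ⟨h, rfl⟩
  rw [← map_mul]
  exact mem_alg r _

variable {r} in
lemma pow_mem_alg {x : Module.End Λ A} (hx : x ∈ alg r) (k : ℕ) : x ^ k ∈ alg r := by
  induction k with
  | zero => rw [pow_zero]; exact one_mem_alg r
  | succ k ih => rw [pow_succ]; exact mul_mem_alg ih hx

/-- The radical of the trace form of the algebra. -/
def rad : Submodule Λ (Module.End Λ A) where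
  carrier := {x | x ∈ alg r ∧ ∀ y ∈ alg r, LinearMap.trace Λ A (x * y) = 0}
  add_mem' := by
    rintro a b ⟨ha, ha'⟩ ⟨hb, hb'⟩
    refine ⟨add_mem ha hb, fun y hy => ?_⟩
    rw [add_mul, map_add, ha' y hy, hb' y hy, add_zero]
  zero_mem' := ⟨zero_mem _, fun y _ => by rw [zero_mul, map_zero]⟩
  smul_mem' := by
    rintro c a ⟨ha, ha'⟩
    refine ⟨Submodule.smul_mem _ _ ha, fun y hy => ?_⟩
    rw [smul_mul_assoc, map_smul, ha' y hy, smul_zero]

variable {r}

lemma mul_mem_rad {x y : Module.End Λ A} (hx : x ∈ rad r) (hy : y ∈ alg r) : x * y ∈ rad r :=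
  ⟨mul_mem_alg hx.1 hy, fun z hz => by rw [mul_assoc]; exact hx.2 _ (mul_mem_alg hy hz)⟩

lemma mul_mem_rad' {x y : Module.End Λ A} (hx : x ∈ rad r) (hy : y ∈ alg r) : y * x ∈ rad r :=
  ⟨mul_mem_alg hy hx.1, fun z hz => by
    rw [mul_assoc, LinearMap.trace_mul_comm, mul_assoc]
    exact hx.2 _ (mul_mem_alg hz hy)⟩

lemma rad_nil [CharZero Λ] [FiniteDimensional Λ A] {x : Module.End Λ A} (hx : x ∈ rad r) :
    IsNilpotent x :=
  nil_of_tr x fun k => by
    rw [pow_succ']
    exact hx.2 _ (pow_mem_alg hx.1 k)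

variable (r) in
/-- The filtration by the powers of the radical. -/
def fil : ℕ → Submodule Λ A
  | 0 => ⊥
  | k + 1 => ⨅ x : rad r, (fil k).comap (x : Module.End Λ A)

lemma mem_fil_succ {k : ℕ} {a : A} : a ∈ fil r (k + 1) ↔ ∀ x ∈ rad r, x a ∈ fil r k := by
  rw [fil, Submodule.mem_iInf]
  exact ⟨fun h x hx => h ⟨x, hx⟩, fun h x => h x x.2⟩

lemma fil_stable {k : ℕ} {x : Module.End Λ A} (hx : x ∈ alg r) {a : A} (ha : a ∈ fil r k) :
    x a ∈ fil r k := by
  cases k with
  | zero =>
    have : a = 0 := ha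
    rw [this, map_zero]
    exact zero_mem _
  | succ k =>
    rw [mem_fil_succ] at ha ⊢
    intro y hy
    exact ha _ (mul_mem_rad hy hx)

lemma fil_le (k : ℕ) : fil r k ≤ fil r (k + 1) := by
  induction k with
  | zero => exact bot_le
  | succ k ih =>
    intro a ha
    rw [mem_fil_succ] at ha ⊢
    exact fun x hx => ih (ha x hx)

lemma fil_mono : Monotone (fil r) := monotone_nat_of_le_succ fil_le

variable (r) in
lemma fil_top [CharZero Λ] [FiniteDimensional Λ A] : ∃ n, fil r n = ⊤ := by
  classical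
  obtain ⟨n, hn⟩ := monotone_stabilizes_iff_noetherian.2
    (inferInstance : IsNoetherian Λ A) ⟨fil r, fil_mono⟩
  refine ⟨n, ?_⟩
  have hn1 : fil r n = fil r (n + 1) := hn (n + 1) (Nat.le_succ n)
  by_contra hne
  -- the submodule generated by an element and `fil n`
  set P : A → Submodule Λ A := fun s => fil r n ⊔ (alg r).map (LinearMap.applyₗ s) with hP
  have hex : ∃ m : ℕ, ∃ s, s ∉ fil r n ∧ finrank Λ (P s) = m := by
    obtain ⟨s, -, hs⟩ := SetLike.exists_of_lt (lt_top_iff_ne_top.2 hne)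
    exact ⟨_, s, hs, rfl⟩
  obtain ⟨s, hs, hsm⟩ := Nat.find_spec hex
  have h1 : ∃ x ∈ rad r, x s ∉ fil r n := by
    by_contra hcon
    push Not at hcon
    exact hs (hn1 ▸ mem_fil_succ.2 hcon)
  obtain ⟨x, hx, hxs⟩ := h1
  have h2 : P (x s) ≤ P s := by
    refine sup_le le_sup_left ?_
    rintro _ ⟨y, hy, rfl⟩
    exact Submodule.mem_sup_right ⟨y * x, mul_mem_alg hy hx.1, rfl⟩
  have h3 : finrank Λ (P s) ≤ finrank Λ (P (x s)) := by
    rw [hsm]
    exact Nat.find_min' hex ⟨x s, hxs, rfl⟩
  have h4 : P (x s) = P s := Submodule.eq_of_le_of_finrank_le h2 h3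
  have h5 : s ∈ P (x s) := by
    rw [h4]
    exact Submodule.mem_sup_right ⟨1, one_mem_alg r, rfl⟩
  obtain ⟨a, ha, _, ⟨y, hy, rfl⟩, hsum⟩ := Submodule.mem_sup.1 h5
  -- `(1 - y x) s = a`
  have h6 : (1 - y * x) s = a := by
    change s - y (x s) = a
    have h7 : a + y (x s) = s := hsum
    rw [← h7]
    abel_nf
    rw [h7]
    abel
  obtain ⟨k, hk⟩ := rad_nil (mul_mem_rad' hx hy)
  -- the inverse
  have h7 : (∑ j ∈ Finset.range k, (y * x) ^ j) * (1 - y * x) = 1 := by
    rw [geom_sum_mul_neg, hk, sub_zero]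
  have h8 : s = (∑ j ∈ Finset.range k, (y * x) ^ j) a := by
    rw [← h6, ← Module.End.mul_apply, h7]
    rfl
  apply hs
  rw [h8]
  exact fil_stable (Submodule.sum_mem _ fun j _ => pow_mem_alg (mul_mem_alg hy hx.1) j) ha

end

section top

variable {Λ A Γ : Type} [Field Λ] [CharZero Λ] [IsAlgClosed Λ] [AddCommGroup A] [Module Λ A]
  [FiniteDimensional Λ A]

omit [CharZero Λ] in
/-- The trace of an operator whose eigenvalues are roots of unity is one of finitely many numbers. -/
lemma trace_finite {M m : ℕ} (hM : 0 < M) : ∃ Z : Set Λ, Z.Finite ∧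
    ∀ T : Module.End Λ A, (T ^ M - 1) ^ m = 0 → LinearMap.trace Λ A T ∈ Z := by
  classical
  set S : Finset Λ := (Polynomial.nthRoots M (1 : Λ)).toFinset with hS
  refine ⟨Set.range fun f : S → Fin (finrank Λ A + 1) => ∑ e : S, (f e : ℕ) • (e : Λ),
    Set.finite_range _, fun T hT => ?_⟩
  have hsub : T.charpoly.roots.toFinset ⊆ S := by
    intro e he
    rw [Multiset.mem_toFinset, Polynomial.mem_roots (LinearMap.charpoly_monic _).ne_zero] at he
    have h1 := (Module.End.hasEigenvalue_iff_isRoot_charpoly _ _).2 he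
    obtain ⟨v, hv⟩ := h1.exists_hasEigenvector
    have hgn : ∀ n : ℕ, (T ^ n) v = e ^ n • v := by
      intro n
      induction n with
      | zero => simp
      | succ n ih =>
        rw [_root_.pow_succ', Module.End.mul_apply, ih, map_smul, hv.apply_eq_smul, smul_smul,
          _root_.pow_succ]
    have hgm : ∀ m : ℕ, ((T ^ M - 1) ^ m) v = (e ^ M - 1) ^ m • v := by
      intro m
      induction m with
      | zero => simp
      | succ m ih =>
        rw [_root_.pow_succ', Module.End.mul_apply, ih, map_smul, LinearMap.sub_apply, hgn,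
          _root_.pow_succ, mul_smul, sub_smul, one_smul]
        rfl
    have h2 := hgm m
    rw [hT, LinearMap.zero_apply] at h2
    have h3 := (smul_eq_zero.1 h2.symm).resolve_right hv.2
    rw [hS, Multiset.mem_toFinset, Polynomial.mem_nthRoots hM]
    exact sub_eq_zero.1 (eq_zero_of_pow_eq_zero h3)
  have hcard : ∀ e, T.charpoly.roots.count e < finrank Λ A + 1 := by
    intro e
    rw [Nat.lt_succ_iff]
    refine (Multiset.count_le_card _ _).trans ?_
    refine (Polynomial.card_roots' _).trans ?_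
    rw [LinearMap.charpoly_natDegree]
  have htr : LinearMap.trace Λ A T = T.charpoly.roots.sum := by
    rw [LinearMap.trace_eq_matrix_trace Λ (Module.finBasis Λ A),
      Matrix.trace_eq_sum_roots_charpoly, LinearMap.charpoly_toMatrix]
  refine ⟨fun e => ⟨T.charpoly.roots.count (e : Λ), hcard e⟩, ?_⟩
  rw [htr, Finset.sum_multiset_count_of_subset _ _ hsub]
  exact Finset.sum_coe_sort S (fun e => T.charpoly.roots.count e • e)

variable [TopologicalSpace Λ] [IsTopologicalRing Λ] [T2Space Λ] [Group Γ] [TopologicalSpace Γ]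
  [IsTopologicalGroup Γ] (r : Γ →* Module.End Λ A)

omit [T2Space Λ] [CharZero Λ] [IsAlgClosed Λ] [IsTopologicalGroup Γ] in
lemma cts_trace (hc : ∀ (f : Module.Dual Λ A) (a : A), Continuous fun g => f (r g a)) :
    Continuous fun g => LinearMap.trace Λ A (r g) := by
  have h1 : (fun g => LinearMap.trace Λ A (r g)) = fun g =>
      ∑ i, (Module.finBasis Λ A).coord i (r g (Module.finBasis Λ A i)) := by
    funext g
    rw [LinearMap.trace_eq_matrix_trace Λ (Module.finBasis Λ A), Matrix.trace]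
    refine Finset.sum_congr rfl fun i _ => ?_
    rw [Matrix.diag_apply, LinearMap.toMatrix_apply]
    rfl
  rw [h1]
  exact continuous_finsetSum _ fun i _ => hc _ _

/-- An open set acts trivially on the quotients of the filtration. -/
lemma open_rad (hc : ∀ (f : Module.Dual Λ A) (a : A), Continuous fun g => f (r g a))
    {M m : ℕ} (hM : 0 < M) (hq : ∀ g, (r g ^ M - 1) ^ m = 0) :
    ∃ O : Set Γ, IsOpen O ∧ 1 ∈ O ∧ ∀ g ∈ O, r g - 1 ∈ rad r := by
  obtain ⟨Z, hZ, hZt⟩ := trace_finite (Λ := Λ) (A := A) (M := M) (m := m) hM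
  have hct := cts_trace r hc
  obtain ⟨s, hs, hspan⟩ := (Submodule.fg_span_iff_fg_span_finset_subset (Set.range r)).1
    (IsNoetherian.noetherian (Submodule.span Λ (Set.range r)))
  -- the open sets
  have hO : ∀ x ∈ s, ∃ O : Set Γ, IsOpen O ∧ 1 ∈ O ∧
      ∀ g ∈ O, LinearMap.trace Λ A (r g * x) = LinearMap.trace Λ A x := by
    intro x hx
    obtain ⟨h, rfl⟩ := hs hx
    have hc' : Continuous fun g => LinearMap.trace Λ A (r (g * h)) :=
      hct.comp (continuous_mul_const h)
    refine ⟨(fun g => LinearMap.trace Λ A (r (g * h))) ⁻¹' (Z \ {LinearMap.trace Λ A (r h)})ᶜ,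
      ((hZ.subset Set.sdiff_subset).isClosed.isOpen_compl).preimage hc', ?_, fun g hg => ?_⟩
    · change LinearMap.trace Λ A (r (1 * h)) ∈ (Z \ {LinearMap.trace Λ A (r h)})ᶜ
      rw [one_mul]
      exact fun hcon => hcon.2 rfl
    · by_contra hne
      refine hg ⟨hZt _ (hq _), ?_⟩
      rw [← map_mul] at hne
      exact hne
  choose O hO1 hO2 hO3 using hO
  refine ⟨⋂ x : s, O x.1 x.2, isOpen_iInter_of_finite fun x => hO1 _ _,
    Set.mem_iInter.2 fun x => hO2 _ _, fun g hg => ⟨sub_mem (mem_alg r g) (one_mem_alg r), ?_⟩⟩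
  intro y hy
  rw [alg, hspan] at hy
  refine Submodule.span_induction (p := fun y _ => LinearMap.trace Λ A ((r g - 1) * y) = 0) ?_
    (by rw [mul_zero, map_zero]) (fun a b _ _ ha hb => by rw [mul_add, map_add, ha, hb, add_zero])
    (fun c a _ ha => by rw [mul_smul_comm, map_smul, ha, smul_zero]) hy
  intro x hx
  rw [sub_mul, one_mul, map_sub, hO3 x hx g (Set.mem_iInter.1 hg ⟨x, hx⟩), sub_self]

end top

end Pool.Agent.H66PH
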