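import Pool.Agent.H66PH.Act
import Pool.Agent.H66PH.Fil

/-!
# Eigenvalues of the Weil group on the fixed vectors
-/

set_option autoImplicit false

namespace Pool.Agent.H66PH

open Module TensorProduct NumberField IsDedekindDomain Filter Topology
open Pool.Agent.W401.Cheb Pool.Agent.N184.HK

section cj

variable {Γ Ω V : Type} [Group Γ] [Field Ω] [AddCommGroup V] [Module Ω V]

/-- Conjugation. -/
noncomputable def cj (r : Γ →* Module.End Ω V) : Γ →* Module.End Ω (Module.End Ω V) where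
  toFun σ := LinearMap.mulLeft Ω (r σ) * LinearMap.mulRight Ω (r σ⁻¹)
  map_one' := by
    ext a
    simp
  map_mul' σ τ := by
    refine LinearMap.ext fun a => ?_
    change r (σ * τ) * (a * r (σ * τ)⁻¹) = r σ * ((r τ * (a * r τ⁻¹)) * r σ⁻¹)
    rw [map_mul, mul_inv_rev, map_mul]
    simp only [mul_assoc]

lemma cj_apply (r : Γ →* Module.End Ω V) (σ : Γ) (a : Module.End Ω V) :
    cj r σ a = r σ * (a * r σ⁻¹) := rfl

lemma cj_mul (r : Γ →* Module.End Ω V) (σ : Γ) (a : Module.End Ω V) :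
    cj r σ a * r σ = r σ * a := by
  rw [cj_apply, mul_assoc, mul_assoc, ← map_mul, inv_mul_cancel, map_one, mul_one]

/-- The restriction of a representation to a stable subspace. -/
noncomputable def resRep {A : Type} [AddCommGroup A] [Module Ω A] (r : Γ →* Module.End Ω A)
    (P : Submodule Ω A) (h : ∀ σ, ∀ a ∈ P, r σ a ∈ P) : Γ →* Module.End Ω P where
  toFun σ := (r σ).restrict (h σ)
  map_one' := by
    refine LinearMap.ext fun a => Subtype.ext ?_
    change r 1 (a : A) = a
    rw [map_one]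
    rfl
  map_mul' σ τ := by
    refine LinearMap.ext fun a => Subtype.ext ?_
    change r (σ * τ) (a : A) = r σ (r τ a)
    rw [map_mul]
    rfl

lemma resRep_apply {A : Type} [AddCommGroup A] [Module Ω A] (r : Γ →* Module.End Ω A)
    (P : Submodule Ω A) (h : ∀ σ, ∀ a ∈ P, r σ a ∈ P) (σ : Γ) (a : P) :
    (resRep r P h σ a : A) = r σ a := rfl

end cj

section

variable {K : Type} [Field K] [NumberField K] {u : HeightOneSpectrum (𝓞 K)} {G : WeilGroup K u}
  {Ω : Type} [Field Ω] {χ : GK K → Ω} (B : PeriodField G Ω χ)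
  {V : Type} [AddCommGroup V] [Module Ω V] [FiniteDimensional Ω V] (r : GK K →* Module.End Ω V)

/-- The extension of a functional. -/
noncomputable def PeriodField.ev (f : Module.Dual Ω (Module.End Ω V)) :
    Module.End B.L (B.TL V) →ₗ[B.L] B.L :=
  (eH_bc (B.jX V)).lift (Algebra.linearMap Ω B.L ∘ₗ f)

lemma PeriodField.ev_eH (f : Module.Dual Ω (Module.End Ω V)) (a : Module.End Ω V) :
    B.ev f (eH (B.jX V) a) = algebraMap Ω B.L (f a) :=
  (eH_bc (B.jX V)).lift_eq _ a

lemma PeriodField.ev_sub (f f' : Module.Dual Ω (Module.End Ω V)) (x : Module.End B.L (B.TL V)) :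
    B.ev (f - f') x = B.ev f x - B.ev f' x := by
  have h : B.ev (f - f') = B.ev f - B.ev f' := bc_ext (eH_bc (B.jX V)) fun a => by
    rw [LinearMap.sub_apply, B.ev_eH, B.ev_eH, B.ev_eH, LinearMap.sub_apply, map_sub]
  rw [h]
  rfl

lemma PeriodField.ad_cj (g : G.W) (a : Module.End Ω V) :
    B.ad r g (eH (B.jX V) a) = eH (B.jX V) (cj r (G.res g) a) :=
  B.ad_eH r g a _ (cj_mul r _ a)

lemma PeriodField.τ_alg (g : G.W) (c : Ω) : B.τ g (algebraMap Ω B.L c) = algebraMap Ω B.L c := by
  rw [IsScalarTower.algebraMap_apply Ω B.C B.L, AlgEquiv.commutes]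

lemma PeriodField.ev_ad (f : Module.Dual Ω (Module.End Ω V)) (g : G.W)
    (x : Module.End B.L (B.TL V)) :
    B.ev f (B.ad r g x) = B.τ g (B.ev (f ∘ₗ cj r (G.res g)) x) := by
  have hx : x ∈ Submodule.span B.L (Set.range (eH (B.jX V))) := by
    rw [bc_span (eH_bc (B.jX V))]
    exact Submodule.mem_top
  refine Submodule.span_induction
    (p := fun x _ => B.ev f (B.ad r g x) = B.τ g (B.ev (f ∘ₗ cj r (G.res g)) x)) ?_ ?_ ?_ ?_ hx
  · rintro _ ⟨a, rfl⟩
    rw [B.ad_cj, B.ev_eH, B.ev_eH, B.τ_alg]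
    rfl
  · rw [B.ad_zero, map_zero, map_zero, map_zero]
  · intro a b _ _ ha hb
    rw [B.ad_add, map_add, map_add, map_add, ha, hb]
  · intro l a _ ha
    rw [B.ad_smul, map_smul, map_smul, ha, smul_eq_mul, smul_eq_mul, map_mul]

lemma PeriodField.ev_span (f : Module.Dual Ω (Module.End Ω V)) {S : Set (Module.End Ω V)}
    (hf : ∀ a ∈ S, f a = 0) {x : Module.End B.L (B.TL V)}
    (hx : x ∈ Submodule.span B.L (eH (B.jX V) '' S)) : B.ev f x = 0 := by
  refine Submodule.span_induction (p := fun x _ => B.ev f x = 0) ?_ (map_zero _)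
    (fun a b _ _ ha hb => by rw [map_add, ha, hb, add_zero])
    (fun l a _ ha => by rw [map_smul, ha, smul_zero]) hx
  rintro _ ⟨a, ha, rfl⟩
  rw [B.ev_eH, hf a ha, map_zero]

lemma PeriodField.ev_zero {x : Module.End B.L (B.TL V)}
    (hx : ∀ f : Module.Dual Ω (Module.End Ω V), B.ev f x = 0) : x = 0 := by
  have h := ker_span (eH_bc (B.jX V)) (ι := Module.Dual Ω (Module.End Ω V)) (V' := fun _ => Ω)
    (U' := fun _ => B.L) (fun _ => Algebra.linearMap Ω B.L)
    (fun _ => IsBaseChange.linearMap Ω B.L) (fun f => B.ev f) (fun f => f)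
    (fun f a => B.ev_eH f a) x hx
  have h1 : {v : Module.End Ω V | ∀ f : Module.Dual Ω (Module.End Ω V), f v = 0} ⊆ {0} :=
    fun v hv => (Module.forall_dual_apply_eq_zero_iff Ω v).1 hv
  have h2 := Submodule.span_mono (R := B.L) (Set.image_mono (f := eH (B.jX V)) h1) h
  rw [Set.image_singleton, map_zero, Submodule.span_zero_singleton, Submodule.mem_bot] at h2
  exact h2

variable [CharZero Ω] [IsAlgClosed Ω] [TopologicalSpace Ω] [IsTopologicalRing Ω] [T2Space Ω]

/-- **Eigenvalues of the Weil group on the vectors which are fixed by the inertia group near `1`.** -/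
theorem PeriodField.eig_root (P : Submodule Ω (Module.End Ω V))
    (hP : ∀ σ, ∀ a ∈ P, cj r σ a ∈ P)
    (hc : ∀ (f : Module.Dual Ω P) (a : P), Continuous fun σ => f (resRep (cj r) P hP σ a))
    {M m : ℕ} (hM : 0 < M) (hq : ∀ σ, (resRep (cj r) P hP σ ^ M - 1) ^ m = 0)
    {x : Module.End B.L (B.TL V)} (hx0 : x ≠ 0)
    (hx : x ∈ Submodule.span B.L (eH (B.jX V) '' P))
    (hnear : ∀ᶠ g in G.filt, B.ad r g x = x) {g : G.W} {t : B.C} (ht : B.ad r g x = t • x) :
    t ^ M = 1 := by
  classical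
  set ρ := resRep (cj r) P hP with hρ
  obtain ⟨O, hO, hO1, hOr⟩ := open_rad ρ hc hM hq
  obtain ⟨n, hn⟩ := fil_top ρ
  -- the statement about the functionals
  set S : ℕ → Prop := fun k => ∀ f : Module.Dual Ω (Module.End Ω V),
    (∀ a ∈ fil ρ k, f (a : Module.End Ω V) = 0) → B.ev f x = 0 with hS
  have hSn : S n := by
    intro f hf
    refine B.ev_span f (fun a ha => ?_) hx
    exact hf ⟨a, ha⟩ (by rw [hn]; exact Submodule.mem_top)
  have hex : ∃ n, S n := ⟨n, hSn⟩
  have hk0 : Nat.find hex ≠ 0 := by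
    intro h0
    have h1 := Nat.find_spec hex
    rw [h0] at h1
    refine hx0 (B.ev_zero fun f => h1 f fun a ha => ?_)
    have : a = 0 := ha
    rw [this]
    exact map_zero f
  obtain ⟨k, hk⟩ := Nat.exists_eq_succ_of_ne_zero hk0
  have hS1 : S (k + 1) := by
    rw [← Nat.succ_eq_add_one, ← hk]
    exact Nat.find_spec hex
  have hS0 : ¬ S k := Nat.find_min hex (by omega)
  -- the functionals which vanish on `fil k`
  have hstab : ∀ (f : Module.Dual Ω (Module.End Ω V)),
      (∀ a ∈ fil ρ k, f (a : Module.End Ω V) = 0) → ∀ σ, ∀ a ∈ fil ρ k,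
        (f ∘ₗ cj r σ) (a : Module.End Ω V) = 0 := fun f hf σ a ha =>
    hf (ρ σ a) (fil_stable (mem_alg ρ σ) ha)
  have hcon : ∀ (f : Module.Dual Ω (Module.End Ω V)),
      (∀ a ∈ fil ρ k, f (a : Module.End Ω V) = 0) →
        ∃ c : B.C, algebraMap B.C B.L c = B.ev f x := by
    intro f hf
    refine B.const' _ ?_
    have hOf : ∀ᶠ g in G.filt, G.res g ∈ O := by
      rw [← G.near_iff]
      exact ⟨O, hO, hO1, fun g _ hg => hg⟩
    filter_upwards [hnear, hOf] with g h1 h2
    have h3 := B.ev_ad r f g x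
    rw [h1] at h3
    have h4 : B.ev (f ∘ₗ cj r (G.res g) - f) x = 0 := by
      refine hS1 _ fun a ha => ?_
      have h5 := mem_fil_succ.1 ha _ (hOr _ h2)
      have h6 := hf _ h5
      change f (cj r (G.res g) (a : Module.End Ω V)) - f (a : Module.End Ω V) = 0
      rw [← map_sub]
      exact h6
    rw [B.ev_sub, sub_eq_zero] at h4
    rw [h4] at h3
    exact h3.symm
  -- the eigenvalue
  have heig : ∀ (f : Module.Dual Ω (Module.End Ω V)),
      (∀ a ∈ fil ρ k, f (a : Module.End Ω V) = 0) →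
        B.ev (f ∘ₗ cj r (G.res g)) x = algebraMap B.C B.L t * B.ev f x := by
    intro f hf
    have h1 := B.ev_ad r f g x
    obtain ⟨c, hc⟩ := hcon _ (hstab f hf (G.res g))
    rw [ht, ← algebraMap_smul B.L t x, map_smul, smul_eq_mul, ← hc, AlgEquiv.commutes] at h1
    rw [← hc, h1]
  have heigM : ∀ (j : ℕ) (f : Module.Dual Ω (Module.End Ω V)),
      (∀ a ∈ fil ρ k, f (a : Module.End Ω V) = 0) →
        (∀ a ∈ fil ρ k, (f ∘ₗ (cj r (G.res g)) ^ j) (a : Module.End Ω V) = 0) ∧
        B.ev (f ∘ₗ (cj r (G.res g)) ^ j) x = algebraMap B.C B.L t ^ j * B.ev f x := by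
    intro j
    induction j with
    | zero =>
      intro f hf
      have h1 : f ∘ₗ (cj r (G.res g)) ^ 0 = f := by
        rw [pow_zero]; rfl
      rw [h1, pow_zero, one_mul]
      exact ⟨hf, rfl⟩
    | succ j ih =>
      intro f hf
      have h1 : f ∘ₗ (cj r (G.res g)) ^ (j + 1) =
          (f ∘ₗ cj r (G.res g)) ∘ₗ (cj r (G.res g)) ^ j := by
        rw [pow_succ']; rfl
      rw [h1]
      obtain ⟨h2, h3⟩ := ih _ (hstab f hf (G.res g))
      refine ⟨h2, ?_⟩
      rw [h3, heig f hf, pow_succ, mul_assoc]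
  have heigm : ∀ (j : ℕ) (f : Module.Dual Ω (Module.End Ω V)),
      (∀ a ∈ fil ρ k, f (a : Module.End Ω V) = 0) →
        B.ev (f ∘ₗ ((cj r (G.res g)) ^ M - 1) ^ j) x =
          (algebraMap B.C B.L t ^ M - 1) ^ j * B.ev f x := by
    intro j
    induction j with
    | zero =>
      intro f _
      have h1 : f ∘ₗ ((cj r (G.res g)) ^ M - 1) ^ 0 = f := by
        rw [pow_zero]; rfl
      rw [h1, pow_zero, one_mul]
    | succ j ih =>
      intro f hf
      have h1 : f ∘ₗ ((cj r (G.res g)) ^ M - 1) ^ (j + 1) =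
          (f ∘ₗ (cj r (G.res g)) ^ M - f) ∘ₗ ((cj r (G.res g)) ^ M - 1) ^ j := by
        rw [pow_succ']
        refine LinearMap.ext fun a => ?_
        change f (((cj r (G.res g)) ^ M - 1) ((((cj r (G.res g)) ^ M - 1) ^ j) a)) = _
        rw [LinearMap.sub_apply, map_sub]
        rfl
      obtain ⟨h2, h3⟩ := heigM M f hf
      rw [h1, ih _ fun a ha => by rw [LinearMap.sub_apply, h2 a ha, hf a ha, sub_zero], B.ev_sub,
        h3, pow_succ]
      ring
  -- conclusion
  rw [hS] at hS0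
  push Not at hS0
  obtain ⟨f, hf, hfx⟩ := hS0
  have h1 := heigm m f hf
  have h2 : B.ev (f ∘ₗ ((cj r (G.res g)) ^ M - 1) ^ m) x = 0 := by
    refine B.ev_span _ (fun a ha => ?_) hx
    have h3 : ∀ (j : ℕ) (b : P), (((ρ (G.res g)) ^ j) b : Module.End Ω V) =
        ((cj r (G.res g)) ^ j) (b : Module.End Ω V) := by
      intro j
      induction j with
      | zero => intro b; rfl
      | succ j ih =>
        intro b
        rw [pow_succ, pow_succ, Module.End.mul_apply, Module.End.mul_apply, ih]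
        rfl
    have h4 : ∀ (j : ℕ) (b : P), ((((ρ (G.res g)) ^ M - 1) ^ j) b : Module.End Ω V) =
        (((cj r (G.res g)) ^ M - 1) ^ j) (b : Module.End Ω V) := by
      intro j
      induction j with
      | zero => intro b; rfl
      | succ j ih =>
        intro b
        rw [pow_succ, pow_succ, Module.End.mul_apply, Module.End.mul_apply, ih]
        congr 1
        rw [LinearMap.sub_apply, LinearMap.sub_apply, ← h3]
        rfl
    have h5 := h4 m ⟨a, ha⟩
    rw [hq] at h5
    rw [LinearMap.comp_apply, ← h5]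
    exact map_zero f
  rw [h2] at h1
  have h3 := (mul_eq_zero.1 h1.symm).resolve_right hfx
  have h4 := sub_eq_zero.1 (eq_zero_of_pow_eq_zero h3)
  apply (algebraMap B.C B.L).injective
  rw [map_pow, h4, map_one]

end

end Pool.Agent.H66PH
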