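import Pool.Agent.H66PH.FD
import Pool.Agent.H66PH.Ev
import Pool.Agent.H66PH.Abs

/-!
# The commutants of `so(H²)` in the étale cohomology and in `D_pst`
-/

set_option autoImplicit false

namespace Pool.Agent.H66PH

open Module Module.End TensorProduct NumberField IsDedekindDomain Filter Topology
open Pool.Agent.W401.Cheb Pool.Agent.N184.HK Pool.Agent.Y143

section

variable {K : Type} [Field K] [NumberField K] {u : HeightOneSpectrum (𝓞 K)} {G : WeilGroup K u}
  {Ω : Type} [Field Ω] [CharZero Ω] [TopologicalSpace Ω] {χ : GK K → Ω} (B : PeriodField G Ω χ)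
  {d : ℕ} {c : ℚ} (E : GaloisCohomology K Ω d c) (hμ : ∀ g, E.mu g * χ g ^ 2 = 1)
  (hpst : ∀ i, B.IsPst (coRep E i))

/-- The operators `ρ i A` of `so(H²)`, for the étale cohomology. -/
def soX (i : ℕ) : Set (Module.End Ω (E.X.H i)) := E.X.ρ i '' {A | Skew E.X.q A}

/-- The operators `ρ i A` of `so(H²)`, for `D_pst`. -/
def PeriodField.soD (i : ℕ) : Set (Module.End B.C (B.Dpst (coRep E i))) :=
  B.ρD E hpst i '' {A | Skew (B.qD E hμ) A}

/-- The commutant of `so(H²)` in `D_pst`. -/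
def PeriodField.cD (i : ℕ) : Set (Module.End B.C (B.Dpst (coRep E i))) :=
  {b | ∀ s ∈ B.soD E hμ hpst i, Commute s b}

lemma PeriodField.mem_cenD {i : ℕ} {b : Module.End B.C (B.Dpst (coRep E i))} :
    b ∈ cen (B.XD E hμ hpst) i ↔ b ∈ B.cD E hμ hpst i := by
  constructor
  · rintro h _ ⟨A, hA, rfl⟩
    exact h A hA
  · intro h A hA
    exact h _ ⟨A, hA, rfl⟩

omit [CharZero Ω] in
lemma mem_cenX {i : ℕ} {b : Module.End Ω (E.X.H i)} :
    b ∈ cen E.X i ↔ ∀ s ∈ soX E i, Commute s b := by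
  constructor
  · rintro h _ ⟨A, hA, rfl⟩
    exact h A hA
  · intro h A hA
    exact h _ ⟨A, hA, rfl⟩

/-- The operators of `so(H²)` for the étale cohomology are linear combinations of the ones for
`D_pst`. -/
lemma PeriodField.so_up {i : ℕ} {s : Module.End Ω (E.X.H i)} (hs : s ∈ soX E i) :
    eH (B.jX (E.X.H i)) s ∈ Submodule.span B.L (eH (B.jD (hpst i)) '' B.soD E hμ hpst i) := by
  obtain ⟨a, ha, rfl⟩ := hs
  have h1 : Skew (B.Q E) (eH (B.jX (E.X.H 2)) a) :=
    (skew_eH (V := E.X.H) (U := fun i => B.TL (E.X.H i)) (fun i => B.jX (E.X.H i)) one_ne_zero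
      (B.Q_al E)).2 ha
  have h2 := skew_span (k := B.C) (L := B.L) (V := fun i => B.Dpst (coRep E i))
    (U := fun i => B.TL (E.X.H i)) (α := fun i => (B.Dpst (coRep E i)).subtype) (Q := B.Q E)
    (fun i => B.jD (hpst i)) (pow_ne_zero 2 B.t_ne) (B.qD_spec E hμ) h1
  rw [← B.R_eH]
  refine Submodule.span_induction
    (p := fun x _ => B.R E i x ∈
      Submodule.span B.L (eH (B.jD (hpst i)) '' B.soD E hμ hpst i)) ?_ (by
        rw [map_zero]; exact zero_mem _)
    (fun x y _ _ hx hy => by rw [map_add]; exact add_mem hx hy)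
    (fun l x _ hx => by rw [map_smul]; exact Submodule.smul_mem _ _ hx) h2
  rintro _ ⟨A, hA, rfl⟩
  rw [B.ρD_spec E hpst]
  exact Submodule.subset_span ⟨_, ⟨A, hA, rfl⟩, rfl⟩

lemma PeriodField.so_down {i : ℕ} {s : Module.End B.C (B.Dpst (coRep E i))}
    (hs : s ∈ B.soD E hμ hpst i) :
    eH (B.jD (hpst i)) s ∈ Submodule.span B.L (eH (B.jX (E.X.H i)) '' soX E i) := by
  obtain ⟨a, ha, rfl⟩ := hs
  have h1 : Skew (B.Q E) (eH (B.jD (hpst 2)) a) :=
    (skew_eH (k := B.C) (L := B.L) (V := fun i => B.Dpst (coRep E i))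
      (U := fun i => B.TL (E.X.H i)) (α := fun i => (B.Dpst (coRep E i)).subtype) (Q := B.Q E)
      (fun i => B.jD (hpst i)) (pow_ne_zero 2 B.t_ne) (B.qD_spec E hμ)).2 ha
  have h2 := skew_span (V := E.X.H) (U := fun i => B.TL (E.X.H i)) (fun i => B.jX (E.X.H i))
    one_ne_zero (B.Q_al E) h1
  rw [← B.ρD_spec E hpst]
  refine Submodule.span_induction
    (p := fun x _ => B.R E i x ∈
      Submodule.span B.L (eH (B.jX (E.X.H i)) '' soX E i)) ?_ (by
        rw [map_zero]; exact zero_mem _)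
    (fun x y _ _ hx hy => by rw [map_add]; exact add_mem hx hy)
    (fun l x _ hx => by rw [map_smul]; exact Submodule.smul_mem _ _ hx) h2
  rintro _ ⟨A, hA, rfl⟩
  rw [B.R_eH]
  exact Submodule.subset_span ⟨_, ⟨A, hA, rfl⟩, rfl⟩

/-- Elements which commute with a set commute with its span. -/
lemma comm_of_span {L U : Type} [Field L] [AddCommGroup U] [Module L U]
    {S : Set (Module.End L U)} {x b : Module.End L U} (hx : x ∈ Submodule.span L S)
    (h : ∀ s ∈ S, Commute s b) : Commute x b := by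
  refine Submodule.span_induction (p := fun x _ => Commute x b) h (Commute.zero_left _)
    (fun x y _ _ hx hy => hx.add_left hy) (fun l x _ hx => hx.smul_left l) hx

lemma comm_eH {k L V U : Type} [Field k] [Field L] [Algebra k L] [AddCommGroup V] [Module k V]
    [AddCommGroup U] [Module k U] [Module L U] [IsScalarTower k L U] {α : V →ₗ[k] U}
    (j : IsBaseChange L α) {a b : Module.End k V} (h : Commute a b) :
    Commute (eH j a) (eH j b) := by
  change eH j a * eH j b = eH j b * eH j a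
  rw [← eH_mul, ← eH_mul, h.eq]

/-- The commutant of `so(H²)` in `D_pst` is contained in the span of the one for the étale
cohomology. -/
lemma PeriodField.cen_up {i : ℕ} {b : Module.End B.C (B.Dpst (coRep E i))}
    (hb : b ∈ B.cD E hμ hpst i) :
    eH (B.jD (hpst i)) b ∈ Submodule.span B.L (eH (B.jX (E.X.H i)) '' cen E.X i) := by
  have h := comm_span (B.jX (E.X.H i)) (soX E i) (eH (B.jD (hpst i)) b) fun s hs => by
    refine comm_of_span (B.so_up E hμ hpst hs) ?_
    rintro _ ⟨s', hs', rfl⟩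
    exact comm_eH _ (hb s' hs')
  refine Submodule.span_mono (Set.image_mono ?_) h
  exact fun a ha => (mem_cenX E).2 ha

lemma PeriodField.cen_down {i : ℕ} {a : Module.End Ω (E.X.H i)} (ha : a ∈ cen E.X i) :
    eH (B.jX (E.X.H i)) a ∈
      Submodule.span B.L (eH (B.jD (hpst i)) '' B.cD E hμ hpst i) := by
  have h := comm_span (B.jD (hpst i)) (B.soD E hμ hpst i) (eH (B.jX (E.X.H i)) a) fun s hs => by
    refine comm_of_span (B.so_down E hμ hpst hs) ?_
    rintro _ ⟨s', hs', rfl⟩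
    exact comm_eH _ ((mem_cenX E).1 ha s' hs')
  exact h

/-- The centre of the commutant. -/
lemma PeriodField.centre_up {i : ℕ} {z : Module.End B.C (B.Dpst (coRep E i))}
    (hz : z ∈ B.cD E hμ hpst i) (hzc : ∀ a ∈ B.cD E hμ hpst i, Commute a z) :
    eH (B.jD (hpst i)) z ∈ Submodule.span B.L (eH (B.jX (E.X.H i)) ''
      {a | a ∈ cen E.X i ∧ ∀ b ∈ cen E.X i, Commute b a}) := by
  have h := comm_span (B.jX (E.X.H i)) (soX E i ∪ cen E.X i) (eH (B.jD (hpst i)) z) fun s hs => by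
    rcases hs with hs | hs
    · refine comm_of_span (B.so_up E hμ hpst hs) ?_
      rintro _ ⟨s', hs', rfl⟩
      exact comm_eH _ (hz s' hs')
    · refine comm_of_span (B.cen_down E hμ hpst hs) ?_
      rintro _ ⟨s', hs', rfl⟩
      exact comm_eH _ (hzc s' hs')
  refine Submodule.span_mono (Set.image_mono ?_) h
  exact fun a ha => ⟨(mem_cenX E).2 fun s hs => ha s (Or.inl hs), fun b hb => ha b (Or.inr hb)⟩

end

section

variable {K : Type} [Field K] [NumberField K] {u : HeightOneSpectrum (𝓞 K)} {G : WeilGroup K u}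
  {Ω : Type} [Field Ω] [CharZero Ω] [IsAlgClosed Ω] [TopologicalSpace Ω] [IsTopologicalRing Ω]
  [T2Space Ω] {χ : GK K → Ω} (B : PeriodField G Ω χ)
  (X : HKVariety K Ω) (hμ : ∀ g, X.E.mu g * χ g ^ 2 = 1)
  (hpst : ∀ i, B.IsPst (coRep X.E i))

omit [CharZero Ω] [IsAlgClosed Ω] [IsTopologicalRing Ω] [T2Space Ω] in
lemma cj_adE (i : ℕ) (σ : GK K) (a : Module.End Ω (X.E.X.H i)) :
    cj (coRep X.E i) σ a = adE ((X.E.F σ).φ i) a := by
  refine LinearMap.ext fun x => ?_
  have h1 : (X.E.F σ⁻¹).φ i x = ((X.E.F σ).φ i).symm x := by rw [phi_inv]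
  change (X.E.F σ).φ i (a ((X.E.F σ⁻¹).φ i x)) = adE ((X.E.F σ).φ i) a x
  rw [h1]
  simp [adE, LinearEquiv.conj_apply]

omit [CharZero Ω] [IsAlgClosed Ω] [IsTopologicalRing Ω] [T2Space Ω] in
lemma cj_cen (i : ℕ) (σ : GK K) (a : Module.End Ω (X.E.X.H i)) (ha : a ∈ cen X.E.X i) :
    cj (coRep X.E i) σ a ∈ cen X.E.X i := by
  rw [cj_adE]
  exact cen_ad _ ha

lemma PeriodField.root_of_eig (g : G.W) {i : ℕ} (hi : i ≤ X.d)
    (b : Module.End B.C (B.Dpst (coRep X.E i))) (hb0 : b ≠ 0) (hbc : b ∈ B.cD X.E hμ hpst i)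
    {t : B.C} (hgb : (B.frobE (coRep X.E i) g).toLinearMap ∘ₗ b ∘ₗ
        (B.frobE (coRep X.E i) g).symm.toLinearMap = t • b) : t ^ expo X i = 1 := by
  refine B.eig_root (coRep X.E i) (cen X.E.X i) (cj_cen X i) ?_ (M := expo X i)
    (m := finrank Ω (cen X.E.X i)) (Nat.factorial_pos _) ?_ (x := eH (B.jD (hpst i)) b) ?_ ?_ ?_
    (g := g) ?_
  · intro f a
    obtain ⟨f', hf'⟩ := LinearMap.exists_extend f
    have h1 : (fun σ => f (resRep (cj (coRep X.E i)) (cen X.E.X i) (cj_cen X i) σ a)) =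
        fun σ => f' (adE ((X.E.F σ).φ i) (a : Module.End Ω (X.E.X.H i))) := by
      funext σ
      rw [← hf', ← cj_adE]
      rfl
    rw [h1]
    exact cts_adE X.E i (g := fun _ => (a : Module.End Ω (X.E.X.H i)))
      (fun L => continuous_const) f'
  · intro σ
    refine LinearMap.ext fun a => Subtype.ext ?_
    have h1 := restrict_quasi (p := cen X.E.X i)
      (f := resRep (cj (coRep X.E i)) (cen X.E.X i) (cj_cen X i) σ)
      (g := adE ((X.E.F σ).φ i)) (fun x => cj_adE X i σ x) (expo X i)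
      (finrank Ω (cen X.E.X i)) a
    rw [h1, all_quasi X hi a.2 σ]
    rfl
  · intro h0
    exact hb0 (eH_inj (B.jD (hpst i)) (by rw [h0, map_zero]))
  · exact B.cen_up X.E hμ hpst hbc
  · exact B.near_ad (hpst i) b
  · rw [B.ad_frobE X.E hpst i g b, hgb, map_smul]

/-- **(H1)** The eigenvalues on the commutant are roots of unity. -/
theorem PeriodField.rootsOnCen (g : G.W) {i : ℕ} (hi : i ≤ X.d) :
    RootsOnCen (B.FD X.E hμ hpst g) i := by
  intro a ha ha0 t hat
  -- an eigenvector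
  have hst : ∀ k : ℕ, ((adE (((B.FD X.E hμ hpst g)).φ i) - t • 1) ^ k) a ∈
      cen (B.XD X.E hμ hpst) i := by
    intro k
    induction k with
    | zero => exact ha
    | succ k ih =>
      rw [_root_.pow_succ', Module.End.mul_apply, LinearMap.sub_apply]
      exact Submodule.sub_mem _ (cen_ad _ ih) (Submodule.smul_mem _ _ ih)
  rw [Module.End.mem_maxGenEigenspace] at hat
  classical
  have hk1 := Nat.find_spec hat
  have hk0 : Nat.find hat ≠ 0 := fun h0 => by
    rw [h0] at hk1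
    exact ha0 hk1
  obtain ⟨k, hk⟩ := Nat.exists_eq_succ_of_ne_zero hk0
  set b := ((adE (((B.FD X.E hμ hpst g)).φ i) - t • 1) ^ k) a with hb
  have hb0 : b ≠ 0 := Nat.find_min hat (by omega : k < Nat.find hat)
  have hbc : b ∈ cen (B.XD X.E hμ hpst) i := hst k
  have hgb : adE (((B.FD X.E hμ hpst g)).φ i) b = t • b := by
    have h1 : (adE (((B.FD X.E hμ hpst g)).φ i) - t • 1) b = 0 := by
      rw [hb, ← Module.End.mul_apply, ← _root_.pow_succ', ← Nat.succ_eq_add_one, ← hk]
      exact hk1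
    rw [LinearMap.sub_apply, sub_eq_zero] at h1
    exact h1
  exact ⟨expo X i, Nat.factorial_pos _,
    B.root_of_eig X hμ hpst g hi b hb0 ((B.mem_cenD X.E hμ hpst).1 hbc) hgb⟩

end

end Pool.Agent.H66PH
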