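import Pool.Agent.N184.HK.W4
import Pool.Agent.H66PH.Art

/-!
# Potentially semistable representations: definitions
-/

set_option autoImplicit false

namespace Pool.Agent.H66PH

open Module TensorProduct NumberField IsDedekindDomain Filter Topology
open Pool.Agent.W401.Cheb Pool.Agent.N184.HK

/-- The Weil group of the completion of the number field `K` at the place `u`: the group `W` with
its restriction map to the absolute Galois group of `K` and the normalized valuation `v`. The kernel
of `v` is the inertia group, and the elements of valuation `1` are the geometric Frobenius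
elements. -/
structure WeilGroup (K : Type) [Field K] [NumberField K] (u : HeightOneSpectrum (𝓞 K)) where
  W : Type
  [group : Group W]
  res : W →* GK K
  v : W →* Multiplicative ℤ
  inert : ∀ g, v g = 1 → IsInert u (res g)
  frob : ∀ g, v g = Multiplicative.ofAdd 1 → IsFrob u (res g)⁻¹

attribute [instance] WeilGroup.group

section

variable {K : Type} [Field K] [NumberField K] {u : HeightOneSpectrum (𝓞 K)}

/-- The degree: the valuation as an integer. -/
def WeilGroup.deg (G : WeilGroup K u) (g : G.W) : ℤ := (G.v g).toAdd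

/-- The property `p` holds for all elements of some neighbourhood of `1` in the inertia group. -/
def WeilGroup.Near (G : WeilGroup K u) (p : G.W → Prop) : Prop :=
  ∃ O : Set (GK K), IsOpen O ∧ 1 ∈ O ∧ ∀ g, G.deg g = 0 → G.res g ∈ O → p g

end

/-- The cyclotomic character `χ` of the absolute Galois group of `K`, with values in the topological
field `Ω` (an extension of `ℚ_p`): it is continuous, and `χ σ = N v ^ (-1)` for a geometric Frobenius
element at a place `v` which is not in the finite set `bad` (which contains the places above `p`). -/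
structure Cyclotomic (K : Type) [Field K] [NumberField K] (Ω : Type) [Field Ω]
    [TopologicalSpace Ω] (bad : Set (HeightOneSpectrum (𝓞 K))) where
  χ : GK K → Ω
  cont : Continuous χ
  frob : ∀ v, v ∉ bad → ∀ σ, IsFrob v σ⁻¹ → χ σ * (Ideal.absNorm v.asIdeal : Ω) = 1

/-- A field of `p`-adic periods for the completion of `K` at the place `u` above `p`, whose residue
field has `q` elements. The example is as follows. `C` is an algebraic closure of `W(k)[1/p]`, where
`k` is an algebraic closure of the residue field; `L` is the fraction field of `C ⊗ B`, where `B` is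
Fontaine's semistable period ring over `W(k)[1/p]` (more precisely its subring `⋂ φ ^ n (B)`, on
which `φ` is bijective); `Ω` is an algebraic closure of `ℚ_p` in `C`. The element `g` of the Weil
group acts on `L` by `τ g`, the `C`-linear extension of `g ∘ φ ^ n(g)`; `N` is the monodromy operator,
a `C`-linear derivation with `N ∘ τ g = q ^ v(g) τ g ∘ N`; `t` is Fontaine's element, with `N t = 0`
and `τ g t = χ(g) q ^ v(g) t`. The elements of `L` which are fixed by an open subgroup of the inertia
group are the elements of `C`. -/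
structure PeriodField {K : Type} [Field K] [NumberField K] {u : HeightOneSpectrum (𝓞 K)}
    (G : WeilGroup K u) (Ω : Type) [Field Ω] (χ : GK K → Ω) where
  C : Type
  [fieldC : Field C]
  [closedC : IsAlgClosed C]
  [algΩC : Algebra Ω C]
  L : Type
  [fieldL : Field L]
  [algCL : Algebra C L]
  [algΩL : Algebra Ω L]
  [tower : IsScalarTower Ω C L]
  τ : G.W →* (L ≃ₐ[C] L)
  N : L →ₗ[C] L
  leibniz : ∀ x y, N (x * y) = N x * y + x * N y
  N_τ : ∀ g x, N (τ g x) = (Ideal.absNorm u.asIdeal : L) ^ G.deg g * τ g (N x)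
  t : L
  t_ne : t ≠ 0
  N_t : N t = 0
  τ_t : ∀ g, τ g t =
    algebraMap Ω L (χ (G.res g)) * (Ideal.absNorm u.asIdeal : L) ^ G.deg g * t
  const : ∀ x, G.Near (fun g => τ g x = x) → ∃ c, algebraMap C L c = x

attribute [instance] PeriodField.fieldC PeriodField.closedC PeriodField.algΩC PeriodField.fieldL
  PeriodField.algCL PeriodField.algΩL PeriodField.tower

section

variable {K : Type} [Field K] [NumberField K] {u : HeightOneSpectrum (𝓞 K)} {G : WeilGroup K u}
  {Ω : Type} [Field Ω] {χ : GK K → Ω} (B : PeriodField G Ω χ)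

section TL

variable (V : Type) [AddCommGroup V] [Module Ω V]

/-- The space `L ⊗ V`. -/
def PeriodField.TL : Type := B.L ⊗[Ω] V

noncomputable instance : AddCommGroup (B.TL V) := inferInstanceAs (AddCommGroup (B.L ⊗[Ω] V))
noncomputable instance : Module B.L (B.TL V) := inferInstanceAs (Module B.L (B.L ⊗[Ω] V))
noncomputable instance : Module B.C (B.TL V) := inferInstanceAs (Module B.C (B.L ⊗[Ω] V))
noncomputable instance : Module Ω (B.TL V) := inferInstanceAs (Module Ω (B.L ⊗[Ω] V))
instance : IsScalarTower B.C B.L (B.TL V) :=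
  inferInstanceAs (IsScalarTower B.C B.L (B.L ⊗[Ω] V))
instance : IsScalarTower Ω B.L (B.TL V) :=
  inferInstanceAs (IsScalarTower Ω B.L (B.L ⊗[Ω] V))

end TL

variable {V : Type} [AddCommGroup V] [Module Ω V] (r : GK K →* Module.End Ω V)

/-- The element `l ⊗ x` of `L ⊗ V`. -/
noncomputable def PeriodField.tm (l : B.L) (x : V) : B.TL V := l ⊗ₜ[Ω] x

/-- The action of the Weil group on `L ⊗ V`: `g (l ⊗ x) = τ g l ⊗ r g x`. -/
noncomputable def PeriodField.act (g : G.W) : B.TL V →ₗ[B.C] B.TL V :=
  (TensorProduct.AlgebraTensorModule.map (B.τ g).toLinearMap (r (G.res g)) :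
    B.L ⊗[Ω] V →ₗ[B.C] B.L ⊗[Ω] V)

/-- The monodromy operator on `L ⊗ V`: `N (l ⊗ x) = N l ⊗ x`. -/
noncomputable def PeriodField.mon (V : Type) [AddCommGroup V] [Module Ω V] :
    B.TL V →ₗ[B.C] B.TL V :=
  (TensorProduct.AlgebraTensorModule.map B.N (LinearMap.id : V →ₗ[Ω] V) :
    B.L ⊗[Ω] V →ₗ[B.C] B.L ⊗[Ω] V)

/-- The space `D_pst(V)`: the elements of `L ⊗ V` which are fixed by an open subgroup of the inertia
group. -/
def PeriodField.Dpst : Submodule B.C (B.TL V) where
  carrier := {x | G.Near fun g => B.act r g x = x}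
  add_mem' := by
    rintro a b ⟨O, hO, hO1, ha⟩ ⟨O', hO', hO1', hb⟩
    refine ⟨O ∩ O', hO.inter hO', ⟨hO1, hO1'⟩, fun g hg hgO => ?_⟩
    exact (map_add _ _ _).trans (congrArg₂ _ (ha g hg hgO.1) (hb g hg hgO.2))
  zero_mem' := ⟨Set.univ, isOpen_univ, Set.mem_univ _, fun g _ _ => map_zero _⟩
  smul_mem' := by
    rintro c a ⟨O, hO, hO1, ha⟩
    exact ⟨O, hO, hO1, fun g hg hgO => (map_smul _ _ _).trans (congrArg _ (ha g hg hgO))⟩

/-- The representation `V` is potentially semistable: `D_pst(V)` spans `L ⊗ V`. -/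
def PeriodField.IsPst : Prop :=
  Submodule.span B.L ((B.Dpst r : Submodule B.C (B.TL V)) : Set (B.TL V)) = ⊤

/-- The filter of the neighbourhoods of `1` in the inertia group. -/
noncomputable def WeilGroup.filt (G : WeilGroup K u) : Filter G.W :=
  Filter.comap G.res (𝓝 1) ⊓ 𝓟 {g | G.deg g = 0}

lemma WeilGroup.near_iff (G : WeilGroup K u) (p : G.W → Prop) : G.Near p ↔ ∀ᶠ g in G.filt, p g := by
  rw [WeilGroup.filt, Filter.eventually_inf_principal, Filter.eventually_comap]
  constructor
  · rintro ⟨O, hO, hO1, h⟩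
    filter_upwards [hO.mem_nhds hO1] with a ha g hg hd
    exact h g hd (by rw [hg]; exact ha)
  · intro h
    obtain ⟨O, hO, hO1, h1⟩ := mem_nhds_iff.1 h
    exact ⟨O, hO1, h1, fun g hd hm => hO hm g rfl hd⟩

@[elab_as_elim]
lemma PeriodField.tl_ind {p : B.TL V → Prop} (x : B.TL V) (h0 : p 0)
    (ht : ∀ l v, p (B.tm l v)) (ha : ∀ x y, p x → p y → p (x + y)) : p x :=
  TensorProduct.induction_on (motive := p) x h0 ht ha

lemma PeriodField.act_tmul (g : G.W) (l : B.L) (x : V) :
    B.act r g (B.tm l x) = B.tm (B.τ g l) (r (G.res g) x) := rfl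

lemma PeriodField.mon_tmul (l : B.L) (x : V) : B.mon V (B.tm l x) = B.tm (B.N l) x := rfl

lemma PeriodField.smul_tm (a l : B.L) (x : V) : a • B.tm l x = B.tm (a * l) x :=
  TensorProduct.smul_tmul' a l x

lemma PeriodField.csmul_tm (a : B.C) (l : B.L) (x : V) : a • B.tm l x = B.tm (a • l) x :=
  TensorProduct.smul_tmul' a l x

lemma PeriodField.add_tm (a l : B.L) (x : V) : B.tm (a + l) x = B.tm a x + B.tm l x :=
  TensorProduct.add_tmul a l x

lemma PeriodField.act_smul (g : G.W) (l : B.L) (x : B.TL V) :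
    B.act r g (l • x) = B.τ g l • B.act r g x := by
  refine B.tl_ind x ?_ (fun a v => ?_) fun a b ha hb => ?_
  · rw [smul_zero, map_zero, smul_zero]
  · rw [B.smul_tm, B.act_tmul, B.act_tmul, B.smul_tm, map_mul]
  · rw [smul_add, map_add, map_add, smul_add, ha, hb]

lemma PeriodField.act_mul (g h : G.W) (x : B.TL V) :
    B.act r (g * h) x = B.act r g (B.act r h x) := by
  refine B.tl_ind x ?_ (fun a v => ?_) fun a b ha hb => ?_
  · rw [map_zero, map_zero, map_zero]
  · rw [B.act_tmul, B.act_tmul, B.act_tmul, map_mul, map_mul, map_mul]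
    rfl
  · rw [map_add, map_add, map_add, ha, hb]

lemma PeriodField.act_one (x : B.TL V) : B.act r 1 x = x := by
  refine B.tl_ind x ?_ (fun a v => ?_) fun a b ha hb => ?_
  · rw [map_zero]
  · rw [B.act_tmul, map_one, map_one, map_one]; rfl
  · rw [map_add, ha, hb]

lemma PeriodField.mon_smul (l : B.L) (x : B.TL V) :
    B.mon V (l • x) = B.N l • x + l • B.mon V x := by
  refine B.tl_ind x ?_ (fun a v => ?_) fun a b ha hb => ?_
  · rw [smul_zero, map_zero, smul_zero, smul_zero, add_zero]
  · rw [B.smul_tm, B.mon_tmul, B.mon_tmul, B.smul_tm, B.smul_tm, B.leibniz, B.add_tm]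
  · rw [smul_add, map_add, ha, hb, map_add, smul_add, smul_add]
    abel

/-- The relation `N g = q ^ v(g) g N`. -/
lemma PeriodField.mon_act (g : G.W) (x : B.TL V) :
    B.mon V (B.act r g x) = (Ideal.absNorm u.asIdeal : B.C) ^ G.deg g • B.act r g (B.mon V x) := by
  refine B.tl_ind x ?_ (fun a v => ?_) fun a b ha hb => ?_
  · rw [map_zero, map_zero, map_zero, smul_zero]
  · rw [B.act_tmul, B.mon_tmul, B.mon_tmul, B.act_tmul, B.N_τ, B.csmul_tm,
      Algebra.smul_def, map_zpow₀, map_natCast]
  · rw [map_add, map_add, ha, hb, map_add, map_add, smul_add]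

lemma WeilGroup.deg_mul (g h : G.W) : G.deg (g * h) = G.deg g + G.deg h := by
  rw [WeilGroup.deg, map_mul]; rfl

lemma WeilGroup.deg_inv (g : G.W) : G.deg g⁻¹ = -G.deg g := by
  rw [WeilGroup.deg, map_inv]; rfl

lemma WeilGroup.near_conj {p : G.W → Prop} (hp : G.Near p) (g : G.W) :
    G.Near fun h => p (g⁻¹ * h * g) := by
  obtain ⟨O, hO, hO1, h⟩ := hp
  refine ⟨(fun x => (G.res g)⁻¹ * x * G.res g) ⁻¹' O,
    hO.preimage ((continuous_const.mul continuous_id).mul continuous_const), ?_, fun h' hd hm => ?_⟩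
  · change (G.res g)⁻¹ * 1 * G.res g ∈ O
    rw [mul_one, inv_mul_cancel]
    exact hO1
  · refine h _ ?_ ?_
    · rw [G.deg_mul, G.deg_mul, G.deg_inv, hd]
      ring
    · rw [map_mul, map_mul, map_inv]
      exact hm

lemma PeriodField.act_mem (g : G.W) {x : B.TL V} (hx : x ∈ B.Dpst r) :
    B.act r g x ∈ B.Dpst r := by
  obtain ⟨O, hO, hO1, h⟩ := G.near_conj hx g
  refine ⟨O, hO, hO1, fun h' hd hm => ?_⟩
  have h1 : B.act r (g⁻¹ * h' * g) x = x := h h' hd hm
  have h2 : h' * g = g * (g⁻¹ * h' * g) := by group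
  change B.act r h' (B.act r g x) = B.act r g x
  rw [← B.act_mul, h2, B.act_mul, h1]

lemma PeriodField.mon_mem {x : B.TL V} (hx : x ∈ B.Dpst r) : B.mon V x ∈ B.Dpst r := by
  obtain ⟨O, hO, hO1, h⟩ := hx
  refine ⟨O, hO, hO1, fun g hd hm => ?_⟩
  have h1 := B.mon_act r g x
  have h2 : B.act r g x = x := h g hd hm
  rw [hd, zpow_zero, one_smul, h2] at h1
  exact h1.symm

/-- The action of the Weil group on `D_pst(V)`. -/
noncomputable def PeriodField.frobD (g : G.W) : Module.End B.C (B.Dpst r) :=
  (B.act r g).restrict fun _ hx => B.act_mem r g hx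

/-- The monodromy operator on `D_pst(V)`. -/
noncomputable def PeriodField.monD : Module.End B.C (B.Dpst r) :=
  (B.mon V).restrict fun _ hx => B.mon_mem r hx

end

/-- The representation of the Galois group on `H^i`. -/
noncomputable def coRep {K : Type} [Field K] [NumberField K] {Ω : Type} [Field Ω] [TopologicalSpace Ω]
    {d : ℕ} {c : ℚ} (E : GaloisCohomology K Ω d c) (i : ℕ) : GK K →* Module.End Ω (E.X.H i) where
  toFun σ := en ((E.F σ).φ i)
  map_one' := by
    ext x
    exact phi_one E i x
  map_mul' σ τ := by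
    ext x
    exact congrArg (fun f => f x) (E.mul σ τ i)

end Pool.Agent.H66PH
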