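import Pool.Agent.H66PH.Lin

/-!
# Idempotents and determinants over extensions of fields
-/

set_option autoImplicit false

namespace Pool.Agent.H66PH

open Module Module.End

section

variable {k L V U : Type} [Field k] [IsAlgClosed k] [Field L] [Algebra k L] [AddCommGroup V]
  [Module k V] [FiniteDimensional k V] [AddCommGroup U] [Module k U] [Module L U]
  [IsScalarTower k L U] {α : V →ₗ[k] U} (j : IsBaseChange L α)

omit [IsAlgClosed k] [FiniteDimensional k V] in
lemma comm_span2 {S : Set (Module.End k V)} (hS : ∀ a ∈ S, ∀ b ∈ S, Commute a b)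
    {x y : Module.End L U} (hx : x ∈ Submodule.span L (eH j '' S))
    (hy : y ∈ Submodule.span L (eH j '' S)) : Commute x y := by
  refine Submodule.span_induction (p := fun x _ => Commute x y) ?_ (Commute.zero_left _)
    (fun x z _ _ hx hz => hx.add_left hz) (fun l x _ hx => hx.smul_left l) hx
  rintro _ ⟨a, ha, rfl⟩
  refine Submodule.span_induction (p := fun y _ => Commute (eH j a) y) ?_ (Commute.zero_right _)
    (fun x z _ _ hx hz => hx.add_right hz) (fun l x _ hx => hx.smul_right l) hy
  rintro _ ⟨b, hb, rfl⟩
  change eH j a * eH j b = eH j b * eH j a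
  rw [← eH_mul, ← eH_mul, (hS a ha b hb).eq]

/-- An idempotent in the span of commuting rational operators is rational. -/
lemma idem_descent {S : Set (Module.End k V)} (hS : ∀ a ∈ S, ∀ b ∈ S, Commute a b)
    {z : Module.End L U} (hz : z ∈ Submodule.span L (eH j '' S)) (hzz : z * z = z) :
    ∃ z0 : Module.End k V, eH j z0 = z := by
  -- on the simultaneous generalized eigenspaces
  have h1 : ∀ χ : S → k, ∀ x ∈ Submodule.span L (eH j '' S), ∃ c : L,
      ∀ v ∈ (⨅ a : S, (a : Module.End k V).maxGenEigenspace (χ a)),
        α v ∈ x.maxGenEigenspace c := by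
    intro χ x hx
    induction hx using Submodule.span_induction with
    | mem x hx =>
      obtain ⟨a, ha, rfl⟩ := hx
      refine ⟨algebraMap k L (χ ⟨a, ha⟩), fun v hv => ?_⟩
      rw [Submodule.mem_iInf] at hv
      have h2 := hv ⟨a, ha⟩
      rw [Module.End.mem_maxGenEigenspace] at h2 ⊢
      obtain ⟨m, hm⟩ := h2
      refine ⟨m, ?_⟩
      have h3 : ∀ (m : ℕ) (v : V), ((eH j a - (algebraMap k L (χ ⟨a, ha⟩)) • 1) ^ m) (α v) =
          α (((a - χ ⟨a, ha⟩ • 1) ^ m) v) := by
        intro m
        induction m with
        | zero => intro v; rfl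
        | succ m ih =>
          intro v
          rw [pow_succ, pow_succ, Module.End.mul_apply, Module.End.mul_apply, ← ih]
          congr 1
          rw [LinearMap.sub_apply, LinearMap.smul_apply, eH_apply, LinearMap.sub_apply, map_sub,
            LinearMap.smul_apply, map_smul, algebraMap_smul]
          rfl
      rw [h3, hm, map_zero]
    | zero =>
      refine ⟨0, fun v _ => ?_⟩
      rw [Module.End.mem_maxGenEigenspace]
      exact ⟨1, by simp⟩
    | add x y hx hy ihx ihy =>
      obtain ⟨c, hc⟩ := ihx
      obtain ⟨c', hc'⟩ := ihy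
      refine ⟨c + c', fun v hv => ?_⟩
      have h2 := genEigenspace_inf_le_add x y c c' ⊤ ⊤ (comm_span2 j hS hx hy)
      have h3 := h2 (Submodule.mem_inf.2 ⟨hc v hv, hc' v hv⟩)
      rw [top_add] at h3
      exact h3
    | smul l x _ ihx =>
      obtain ⟨c, hc⟩ := ihx
      refine ⟨l * c, fun v hv => ?_⟩
      exact genEigenspace_le_smul x c l ⊤ (hc v hv)
  -- the range of `α` is stable
  have h2 : ∀ v : V, z (α v) ∈ (LinearMap.range α : Submodule k U) := by
    have h3 := iSup_iInf_maxGenEigenspace_eq_top_of_iSup_maxGenEigenspace_eq_top_of_commute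
      (fun a : S => (a : Module.End k V)) (fun a b _ => hS a a.2 b b.2)
      (fun a => iSup_maxGenEigenspace_eq_top _)
    have h4 : (⊤ : Submodule k V) ≤
        (LinearMap.range α : Submodule k U).comap ((z.restrictScalars k) ∘ₗ α) := by
      rw [← h3]
      refine iSup_le fun χ v hv => ?_
      rw [Submodule.mem_comap, LinearMap.comp_apply, LinearMap.restrictScalars_apply]
      obtain ⟨c, hc⟩ := h1 χ z hz
      have h5 := hc v hv
      rw [Module.End.mem_maxGenEigenspace] at h5
      obtain ⟨m, hm⟩ := h5
      have hpow : ∀ m : ℕ, ((z - c • 1) ^ m) * z = (1 - c) ^ m • z := by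
        intro m
        induction m with
        | zero => simp
        | succ m ih =>
          have h6 : (z - c • 1) * z = (1 - c) • z := by
            rw [sub_mul, hzz, smul_mul_assoc, one_mul, sub_smul, one_smul]
          rw [pow_succ, mul_assoc, h6, mul_smul_comm, ih, smul_smul, pow_succ']
      have hpow' : ∀ m : ℕ, ((z - c • 1) ^ m) * (1 - z) = (-c) ^ m • (1 - z) := by
        intro m
        induction m with
        | zero => simp
        | succ m ih =>
          have h6 : (z - c • 1) * (1 - z) = (-c) • (1 - z) := by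
            rw [sub_mul, mul_sub, mul_one, hzz, sub_self, smul_mul_assoc, one_mul, zero_sub,
              neg_smul]
          rw [pow_succ, mul_assoc, h6, mul_smul_comm, ih, smul_smul, pow_succ']
      have hcomm : Commute ((z - c • 1) ^ m) z := by
        refine Commute.pow_left ?_ m
        exact (Commute.refl z).sub_left ((Commute.one_left z).smul_left c)
      have e1 : (1 - c) ^ m • z (α v) = 0 := by
        have := congrArg z hm
        rw [map_zero, ← Module.End.mul_apply, ← hcomm.eq, hpow, LinearMap.smul_apply] at this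
        exact this
      have e2 : (-c) ^ m • ((1 - z) (α v)) = 0 := by
        have := congrArg (⇑(1 - z : Module.End L U)) hm
        have hcomm' : Commute ((z - c • 1) ^ m) (1 - z) := (Commute.one_right _).sub_right hcomm
        rw [map_zero, ← Module.End.mul_apply, ← hcomm'.eq, hpow', LinearMap.smul_apply] at this
        exact this
      by_cases hc1 : c = 1
      · have e3 : (1 - z) (α v) = 0 := by
          rcases smul_eq_zero.1 e2 with h | h
          · exact absurd h (pow_ne_zero _ (by rw [hc1]; exact neg_ne_zero.2 one_ne_zero))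
          · exact h
        rw [LinearMap.sub_apply, sub_eq_zero] at e3
        exact ⟨v, e3⟩
      · have e3 : z (α v) = 0 := by
          rcases smul_eq_zero.1 e1 with h | h
          · exact absurd h (pow_ne_zero _ (sub_ne_zero.2 (Ne.symm hc1)))
          · exact h
        rw [e3]
        exact zero_mem _
    exact fun v => h4 (Submodule.mem_top (x := v))
  -- the descent
  set f : V →ₗ[k] (LinearMap.range α : Submodule k U) :=
    ((z.restrictScalars k) ∘ₗ α).codRestrict _ h2 with hf
  refine ⟨(LinearEquiv.ofInjective α (bc_injective j)).symm.toLinearMap ∘ₗ f,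
    bc_ext j fun v => ?_⟩
  rw [eH_apply]
  have h3 : α (((LinearEquiv.ofInjective α (bc_injective j)).symm.toLinearMap ∘ₗ f) v) =
      ((LinearEquiv.ofInjective α (bc_injective j))
        ((LinearEquiv.ofInjective α (bc_injective j)).symm (f v)) : U) := rfl
  rw [h3, LinearEquiv.apply_symm_apply]
  rfl

omit [IsAlgClosed k] in
/-- Bases of the image of an idempotent. -/
lemma frame {z : Module.End k V} (hz : z * z = z) {zL : Module.End L U} (h : eH j z = zL) :
    ∃ (b : Basis (Fin (finrank L (LinearMap.range zL))) k (LinearMap.range z))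
      (e : Basis (Fin (finrank L (LinearMap.range zL))) L (LinearMap.range zL)),
      ∀ i, (e i : U) = α (b i) := by
  have hfinU : FiniteDimensional L U := bc_finite j
  have hproj : LinearMap.IsProj (LinearMap.range z) z := by
    refine ⟨fun x => ⟨x, rfl⟩, ?_⟩
    rintro _ ⟨x, rfl⟩
    rw [← Module.End.mul_apply, hz]
  set b0 := Module.finBasis k (LinearMap.range z) with hb0
  set b1 := Module.finBasis k (LinearMap.ker z) with hb1
  set bb := (b0.prod b1).map (Submodule.prodEquivOfIsCompl _ _ hproj.isCompl) with hbb
  have hbb0 : ∀ i, bb (Sum.inl i) = (b0 i : V) := by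
    intro i
    rw [hbb, Basis.map_apply, Basis.prod_apply]
    simp
  have hbb1 : ∀ i, bb (Sum.inr i) = (b1 i : V) := by
    intro i
    rw [hbb, Basis.map_apply, Basis.prod_apply]
    simp
  have hzb0 : ∀ i, z (b0 i) = (b0 i : V) := fun i => hproj.map_id _ (b0 i).2
  have hzb1 : ∀ i, z (b1 i) = 0 := fun i => LinearMap.mem_ker.1 (b1 i).2
  -- the basis of the image
  have hmem : ∀ i, α (b0 i) ∈ LinearMap.range zL := by
    intro i
    refine ⟨α (b0 i), ?_⟩
    rw [← h, eH_apply, hzb0]
  set e0 : Fin (finrank k (LinearMap.range z)) → LinearMap.range zL := fun i => ⟨_, hmem i⟩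
    with he0
  have hli : LinearIndependent L e0 := by
    refine LinearIndependent.of_comp (LinearMap.range zL).subtype ?_
    have h3 : (LinearMap.range zL).subtype ∘ e0 = (j.basis bb) ∘ Sum.inl := by
      funext i
      change α (b0 i) = j.basis bb (Sum.inl i)
      rw [IsBaseChange.basis_apply, hbb0]
    rw [h3]
    exact (j.basis bb).linearIndependent.comp _ Sum.inl_injective
  have hsp : ⊤ ≤ Submodule.span L (Set.range e0) := by
    rintro ⟨_, ⟨x, rfl⟩⟩ _
    have h4 : ∀ x : U, ∀ hx : zL x ∈ LinearMap.range zL,
        (⟨zL x, hx⟩ : LinearMap.range zL) ∈ Submodule.span L (Set.range e0) := by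
      intro x hx
      have h5 : (⟨zL x, hx⟩ : LinearMap.range zL) = zL.rangeRestrict x := rfl
      rw [h5]
      have h6 : x ∈ Submodule.span L (Set.range (j.basis bb)) := by
        rw [(j.basis bb).span_eq]
        exact Submodule.mem_top
      refine Submodule.span_induction
        (p := fun x _ => zL.rangeRestrict x ∈ Submodule.span L (Set.range e0)) ?_
        (by rw [map_zero]; exact zero_mem _)
        (fun a b _ _ ha hb => by rw [map_add]; exact add_mem ha hb)
        (fun l a _ ha => by rw [map_smul]; exact Submodule.smul_mem _ _ ha) h6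
      rintro _ ⟨i, rfl⟩
      rcases i with i | i
      · refine Submodule.subset_span ⟨i, ?_⟩
        apply Subtype.ext
        change α (b0 i) = zL (j.basis bb (Sum.inl i))
        rw [IsBaseChange.basis_apply, hbb0, ← h, eH_apply, hzb0]
      · have h7 : zL.rangeRestrict (j.basis bb (Sum.inr i)) = 0 := by
          apply Subtype.ext
          change zL (j.basis bb (Sum.inr i)) = 0
          rw [IsBaseChange.basis_apply, hbb1, ← h, eH_apply, hzb1, map_zero]
        rw [h7]
        exact zero_mem _
    exact h4 x _
  set e := Basis.mk hli hsp with he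
  have hn : finrank k (LinearMap.range z) = finrank L (LinearMap.range zL) := by
    rw [Module.finrank_eq_card_basis e, Fintype.card_fin]
  refine ⟨b0.reindex (finCongr hn), e.reindex (finCongr hn), fun i => ?_⟩
  rw [Basis.reindex_apply, Basis.reindex_apply, he, Basis.mk_apply]

end

section det

/-- The determinant of an operator on the image of a commuting idempotent. -/
lemma det_range {k V : Type} [Field k] [AddCommGroup V] [Module k V] [FiniteDimensional k V]
    {φ z : Module.End k V} (hz : z * z = z) (hmaps : ∀ x ∈ LinearMap.range z, φ x ∈ LinearMap.range z)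
    {n : ℕ} (b : Basis (Fin n) k (LinearMap.range z)) :
    LinearMap.det (φ * z + (1 - z)) =
      (LinearMap.toMatrix b b (φ.restrict hmaps)).det := by
  have hproj : LinearMap.IsProj (LinearMap.range z) z := by
    refine ⟨fun x => ⟨x, rfl⟩, ?_⟩
    rintro _ ⟨x, rfl⟩
    rw [← Module.End.mul_apply, hz]
  set T := φ * z + (1 - z) with hT
  set ψ := (Submodule.prodEquivOfIsCompl _ _ hproj.isCompl) with hψ
  have h1 : T = ψ.toLinearMap ∘ₗ ((φ.restrict hmaps).prodMap (1 : Module.End k (LinearMap.ker z))) ∘ₗ
      ψ.symm.toLinearMap := by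
    ext x
    obtain ⟨y, rfl⟩ := ψ.surjective x
    rw [LinearMap.comp_apply, LinearMap.comp_apply, LinearEquiv.coe_coe, LinearEquiv.coe_coe,
      LinearEquiv.symm_apply_apply, hψ, Submodule.coe_prodEquivOfIsCompl', LinearMap.prodMap_apply,
      Submodule.coe_prodEquivOfIsCompl', map_add, hT]
    congr 1
    · rw [LinearMap.add_apply, LinearMap.sub_apply, Module.End.mul_apply, Module.End.one_apply,
        hproj.map_id _ y.1.2, sub_self, add_zero]
      rfl
    · rw [LinearMap.add_apply, LinearMap.sub_apply, Module.End.mul_apply, Module.End.one_apply,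
        LinearMap.mem_ker.1 y.2.2, map_zero, sub_zero, zero_add]
      rfl
  rw [h1, LinearMap.det_conj, LinearMap.det_prodMap, map_one, mul_one, LinearMap.det_toMatrix]

/-- Determinants of a semilinear operator in two bases. -/
lemma semi_det {L U : Type} [Field L] [AddCommGroup U] [Module L U] (σ : L →+* L) (S : U → U)
    (hadd : ∀ x y, S (x + y) = S x + S y)
    (hS : ∀ (l : L) x, S (l • x) = σ l • S x) {W : Submodule L U} {n : ℕ}
    (e e' : Basis (Fin n) L W) (A A' : Matrix (Fin n) (Fin n) L)
    (hA : ∀ i, S (e i) = ∑ k, A k i • (e k : U)) (hA' : ∀ i, S (e' i) = ∑ k, A' k i • (e' k : U)) :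
    A.det * σ (e.toMatrix e').det = (e.toMatrix e').det * A'.det := by
  set P := e.toMatrix e' with hP
  have hzero : S 0 = 0 := by
    have := hS 0 0
    rwa [zero_smul, map_zero, zero_smul] at this
  have hsum : ∀ (f : Fin n → U), S (∑ k, f k) = ∑ k, S (f k) := by
    intro f
    set Sh : U →+ U := { toFun := S, map_zero' := hzero, map_add' := hadd }
    exact map_sum Sh f Finset.univ
  have he' : ∀ i, (e' i : U) = ∑ k, P k i • (e k : U) := by
    intro i
    have h1 := e.sum_repr (e' i)
    have h2 := congrArg (fun x : W => (x : U)) h1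
    simp only [Submodule.coe_sum, Submodule.coe_smul] at h2
    exact h2.symm
  have key : A * P.map σ = P * A' := by
    ext l i
    have h1 : S (e' i) = ∑ l, (A * P.map σ) l i • (e l : U) := by
      rw [he', hsum]
      have h2 : ∀ k, S (P k i • (e k : U)) = ∑ l, (σ (P k i) * A l k) • (e l : U) := by
        intro k
        rw [hS, hA, Finset.smul_sum]
        exact Finset.sum_congr rfl fun l _ => by rw [smul_smul]
      rw [Finset.sum_congr rfl fun k _ => h2 k, Finset.sum_comm]
      refine Finset.sum_congr rfl fun l _ => ?_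
      rw [← Finset.sum_smul, Matrix.mul_apply]
      congr 1
      exact Finset.sum_congr rfl fun k _ => by rw [Matrix.map_apply, mul_comm]
    have h2 : S (e' i) = ∑ l, (P * A') l i • (e l : U) := by
      rw [hA']
      have h2 : ∀ k, A' k i • (e' k : U) = ∑ l, (A' k i * P l k) • (e l : U) := by
        intro k
        rw [he', Finset.smul_sum]
        exact Finset.sum_congr rfl fun l _ => by rw [smul_smul]
      rw [Finset.sum_congr rfl fun k _ => h2 k, Finset.sum_comm]
      refine Finset.sum_congr rfl fun l _ => ?_
      rw [← Finset.sum_smul, Matrix.mul_apply]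
      congr 1
      exact Finset.sum_congr rfl fun k _ => by rw [mul_comm]
    rw [h1] at h2
    have h3 : ∑ l, (A * P.map σ) l i • e l = ∑ l, (P * A') l i • e l := by
      apply Subtype.ext
      simpa only [Submodule.coe_sum, Submodule.coe_smul] using h2
    have h4 := congrArg (fun x => e.repr x l) h3
    simpa only [Basis.repr_sum_self] using h4
  have h1 := congrArg Matrix.det key
  rw [Matrix.det_mul, Matrix.det_mul] at h1
  rw [← h1]
  congr 1
  exact RingHom.map_det σ P

lemma maps_range {k V : Type} [Field k] [AddCommGroup V] [Module k V] {φ z : Module.End k V}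
    (h : Commute φ z) : ∀ x ∈ LinearMap.range z, φ x ∈ LinearMap.range z := by
  rintro _ ⟨x, rfl⟩
  refine ⟨φ x, ?_⟩
  rw [← Module.End.mul_apply, ← Module.End.mul_apply, h.eq]

lemma restrict_sum {k V U : Type} [Field k] [AddCommGroup V] [Module k V] [AddCommGroup U]
    [Module k U] (α : V →ₗ[k] U) {W : Submodule k V} {n : ℕ} (b : Basis (Fin n) k W)
    (f : Module.End k W) (i : Fin n) :
    α (f (b i) : V) = ∑ l, LinearMap.toMatrix b b f l i • α (b l) := by
  have h2 : f (b i) = ∑ l, LinearMap.toMatrix b b f l i • b l := by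
    rw [← b.sum_repr (f (b i))]
    refine Finset.sum_congr rfl fun l _ => ?_
    rw [LinearMap.toMatrix_apply]
  rw [h2]
  simp only [Submodule.coe_sum, Submodule.coe_smul, map_sum, map_smul]

/-- The comparison of the determinants. -/
lemma det_two {k C L V D U : Type} [Field k] [Field C] [Field L] [Algebra k L] [Algebra C L]
    [AddCommGroup V] [Module k V] [FiniteDimensional k V] [AddCommGroup D] [Module C D]
    [FiniteDimensional C D] [AddCommGroup U] [Module k U] [Module C U] [Module L U]
    [IsScalarTower k L U] [IsScalarTower C L U] {αV : V →ₗ[k] U} {αD : D →ₗ[C] U}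
    (jV : IsBaseChange L αV) (jD : IsBaseChange L αD) {z0 : Module.End k V} (hz00 : z0 * z0 = z0)
    {z : Module.End C D} (hzz : z * z = z) (h0 : eH jV z0 = eH jD z) :
    ∃ p : L, p ≠ 0 ∧ ∀ (σ : L →+* L) (S : U → U), (∀ x y, S (x + y) = S x + S y) →
      (∀ (l : L) x, S (l • x) = σ l • S x) → ∀ (φ : Module.End k V) (F : Module.End C D),
      Commute φ z0 → Commute F z → (∀ v, S (αV v) = αV (φ v)) → (∀ x, S (αD x) = αD (F x)) →
      algebraMap k L (LinearMap.det (φ * z0 + (1 - z0))) * σ p =
        p * algebraMap C L (LinearMap.det (F * z + (1 - z))) := by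
  obtain ⟨bV, eV, hV⟩ := frame jV hz00 h0
  obtain ⟨bD, eD, hD⟩ := frame jD hzz rfl
  refine ⟨(eV.toMatrix eD).det, ?_, fun σ S hadd hS φ F hφ hF hSV hSD => ?_⟩
  · have h1 := eV.isUnit_det eD
    rw [Basis.det_apply] at h1
    exact h1.ne_zero
  · have key := semi_det σ S hadd hS eV eD
      ((LinearMap.toMatrix bV bV (φ.restrict (maps_range hφ))).map (algebraMap k L))
      ((LinearMap.toMatrix bD bD (F.restrict (maps_range hF))).map (algebraMap C L)) ?_ ?_
    · rw [← RingHom.mapMatrix_apply, ← RingHom.mapMatrix_apply, ← RingHom.map_det,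
        ← RingHom.map_det, ← det_range hz00, ← det_range hzz] at key
      exact key
    · intro a
      rw [hV, hSV]
      have h1 : φ (bV a : V) = (φ.restrict (maps_range hφ) (bV a) : V) := rfl
      rw [h1, restrict_sum αV bV]
      refine Finset.sum_congr rfl fun l _ => ?_
      rw [Matrix.map_apply, hV, algebraMap_smul]
    · intro a
      rw [hD, hSD]
      have h1 : F (bD a : D) = (F.restrict (maps_range hF) (bD a) : D) := rfl
      rw [h1, restrict_sum αD bD]
      refine Finset.sum_congr rfl fun l _ => ?_
      rw [Matrix.map_apply, hD, algebraMap_smul]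

end det

end Pool.Agent.H66PH
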