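import Pool.Agent.H66PH.Cen
import Pool.Agent.H66PH.Idem

/-!
# The determinants on the isotypic parts
-/

set_option autoImplicit false

namespace Pool.Agent.H66PH

open Module Module.End TensorProduct NumberField IsDedekindDomain Filter Topology
open Pool.Agent.W401.Cheb Pool.Agent.N184.HK Pool.Agent.Y143

section

variable {K : Type} [Field K] [NumberField K]
  {Ω : Type} [Field Ω] [CharZero Ω] [IsAlgClosed Ω] [TopologicalSpace Ω] [IsTopologicalRing Ω]
  [T2Space Ω] (X : HKVariety K Ω)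

/-- The determinant of a Galois element on the image of an idempotent of the centre of the
commutant. -/
lemma det_gal {i : ℕ} (hi : i ≤ X.d) {z : Module.End Ω (X.E.X.H i)} (hzcen : z ∈ cen X.E.X i)
    (hzz : z * z = z) (hzc : ∀ a ∈ cen X.E.X i, Commute a z) {n : ℕ}
    (htz : LinearMap.trace Ω _ z = n) {σ₀ : GK K} (hσ₀ : Commute (en ((X.E.F σ₀).φ i)) z) :
    LinearMap.det (en ((X.E.F σ₀).φ i) * z + (1 - z)) ^ (4 * expo2 X i n) =
      (X.E.F σ₀).μ ^ (i * n * expo2 X i n) := by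
  obtain ⟨O, hO, hO1, hOz⟩ := t_open Ω (X.E.X.H i) (GK K) (fun σ => (X.E.F σ).φ i)
    (fun σ τ => X.E.mul σ τ i) (X.E.cont i) z hzz fun σ => (hzc _ (cen_ad _ hzcen)).symm
  have hcomm : ∀ (φ : X.E.X.H i ≃ₗ[Ω] X.E.X.H i), adE φ z = z ↔ Commute (en φ) z := by
    intro φ
    constructor
    · intro h
      change en φ * z = z * en φ
      ext y
      have := congrArg (fun f : Module.End Ω (X.E.X.H i) => f (φ y)) h
      simp only [adE_apply] at this
      exact this
    · intro h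
      ext y
      have h1 := congrArg (fun f : Module.End Ω (X.E.X.H i) => f (φ.symm y)) h.eq
      have h2 : adE φ z y = φ (z (φ.symm y)) := by simp [adE, LinearEquiv.conj_apply]
      rw [h2]
      change φ (z (φ.symm y)) = z (φ (φ.symm y)) at h1
      rw [h1, LinearEquiv.apply_symm_apply]
  set O' : Set (GK K) := (fun σ => σ₀⁻¹ * σ) ⁻¹' O with hO'
  have hO'o : IsOpen O' := hO.preimage (continuous_const.mul continuous_id)
  have hmem : σ₀ ∈ O' := by
    change σ₀⁻¹ * σ₀ ∈ O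
    rw [inv_mul_cancel]
    exact hO1
  have hO'z : ∀ σ ∈ O', Commute (en ((X.E.F σ).φ i)) z := by
    intro σ hσ
    refine (hcomm _).1 ?_
    have h1 : σ = σ₀ * (σ₀⁻¹ * σ) := by group
    rw [h1, adE_mul_apply X.E, hOz _ hσ]
    exact (hcomm _).2 hσ₀
  have hcts : Cts fun σ => en ((X.E.F σ).φ i) * z + (1 - z) := by
    intro M
    have h1 := (t_cts Ω (X.E.X.H i) (GK K) _ (fun _ => z) (X.E.cont i)
      (fun M => continuous_const)).1 M
    simp only [map_add]
    exact h1.add continuous_const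
  have hg : Continuous fun σ => LinearMap.det (en ((X.E.F σ).φ i) * z + (1 - z)) ^
      (4 * expo2 X i n) - (X.E.F σ).μ ^ (i * n * expo2 X i n) :=
    ((t_cts Ω (X.E.X.H i) (GK K) _ _ hcts hcts).2.pow _).sub (X.E.cont_μ.pow _)
  have h0 := dense_zero X hO'o hg (fun v hv hp σ hσ hfr =>
    sub_eq_zero.2 (good_det X hv hp hfr hi hzcen hzz (hO'z σ hσ) htz)) σ₀ hmem
  exact sub_eq_zero.1 h0

end

section

variable {K : Type} [Field K] [NumberField K] {u : HeightOneSpectrum (𝓞 K)} {G : WeilGroup K u}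
  {Ω : Type} [Field Ω] [CharZero Ω] [IsAlgClosed Ω] [TopologicalSpace Ω] [IsTopologicalRing Ω]
  [T2Space Ω] {χ : GK K → Ω} (B : PeriodField G Ω χ)
  (X : HKVariety K Ω) (hμ : ∀ g, X.E.mu g * χ g ^ 2 = 1)
  (hpst : ∀ i, B.IsPst (coRep X.E i))

omit [CharZero Ω] [IsAlgClosed Ω] [IsTopologicalRing Ω] [T2Space Ω] in
/-- Commutation with the Weil group. -/
lemma PeriodField.comm_gal {i : ℕ} {z0 : Module.End Ω (X.E.X.H i)}
    {zL : Module.End B.L (B.TL (X.E.X.H i))} (h0 : eH (B.jX (X.E.X.H i)) z0 = zL) {g : G.W}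
    (h : B.ad (coRep X.E i) g zL = zL) : Commute (coRep X.E i (G.res g)) z0 := by
  have h1 := B.ad_cj (coRep X.E i) g z0
  rw [h0, h, ← h0] at h1
  have h2 := eH_inj (B.jX (X.E.X.H i)) h1
  have h3 := cj_mul (coRep X.E i) (G.res g) z0
  rw [← h2] at h3
  exact h3.symm

omit [CharZero Ω] [IsAlgClosed Ω] [IsTopologicalRing Ω] [T2Space Ω] in
/-- The comparison of the determinants. -/
lemma PeriodField.det_compare {i : ℕ} {z0 : Module.End Ω (X.E.X.H i)} (hz00 : z0 * z0 = z0)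
    {z : Module.End B.C (B.Dpst (coRep X.E i))} (hzz : z * z = z)
    (h0 : eH (B.jX (X.E.X.H i)) z0 = eH (B.jD (hpst i)) z) :
    ∃ p : B.L, p ≠ 0 ∧ ∀ g : G.W, Commute (coRep X.E i (G.res g)) z0 →
      Commute (B.frobD (coRep X.E i) g) z →
      algebraMap Ω B.L (LinearMap.det (coRep X.E i (G.res g) * z0 + (1 - z0))) * B.τ g p =
        p * algebraMap B.C B.L (LinearMap.det (B.frobD (coRep X.E i) g * z + (1 - z))) := by
  obtain ⟨p, hp, h⟩ := det_two (B.jX (X.E.X.H i)) (B.jD (hpst i)) hz00 hzz h0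
  exact ⟨p, hp, fun g hg hg' => h (B.τ g : B.L →+* B.L) (B.act (coRep X.E i) g)
    (fun x y => map_add _ x y) (fun l x => B.act_smul (coRep X.E i) g l x) _ _ hg hg'
    (fun v => B.act_al _ g v) fun x => rfl⟩

include hμ in
lemma PeriodField.det_clean (g : G.W) {i : ℕ} (hi : i ≤ X.d)
    (z : Module.End B.C (B.Dpst (coRep X.E i))) (hzz : z * z = z)
    (hz : z ∈ B.cD X.E hμ hpst i) (hzc : ∀ a ∈ B.cD X.E hμ hpst i, Commute a z)
    (hzF : Commute (B.frobD (coRep X.E i) g) z) {n : ℕ}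
    (hn : LinearMap.trace B.C _ z = n) :
    ∃ e, 0 < e ∧ LinearMap.det (B.frobD (coRep X.E i) g * z + (1 - z)) ^ (4 * e) =
      (((Ideal.absNorm u.asIdeal : B.C) ^ G.deg g) ^ 2) ^ (i * n * e) := by
  have hLL : eH (B.jD (hpst i)) z * eH (B.jD (hpst i)) z = eH (B.jD (hpst i)) z := by
    rw [← eH_mul, hzz]
  have hspan := B.centre_up X.E hμ hpst hz hzc
  obtain ⟨z0, hz0⟩ := idem_descent (B.jX (X.E.X.H i))
    (fun a ha b hb => hb.2 a ha.1) hspan hLL
  have hz00 : z0 * z0 = z0 := eH_inj (B.jX (X.E.X.H i)) (by rw [eH_mul, hz0]; exact hLL)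
  -- commutation
  have hcomm : ∀ s : Module.End Ω (X.E.X.H i),
      (∀ a ∈ {a | a ∈ cen X.E.X i ∧ ∀ b ∈ cen X.E.X i, Commute b a}, Commute a s) →
      Commute s z0 := by
    intro s hs
    have h1 : Commute (eH (B.jD (hpst i)) z) (eH (B.jX (X.E.X.H i)) s) := by
      refine comm_of_span hspan ?_
      rintro _ ⟨a, ha, rfl⟩
      exact comm_eH _ (hs a ha)
    rw [← hz0] at h1
    have h2 := h1.eq
    rw [← eH_mul, ← eH_mul] at h2
    exact (eH_inj (B.jX (X.E.X.H i)) h2).symm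
  have hz0c : z0 ∈ cen X.E.X i := (mem_cenX X.E).2 fun s hs =>
    hcomm s fun a ha => ((mem_cenX X.E).1 ha.1 s hs).symm
  have hz0cc : ∀ a ∈ cen X.E.X i, Commute a z0 := fun a ha =>
    hcomm a fun b hb => (hb.2 a ha).symm
  have htr : LinearMap.trace Ω _ z0 = n := by
    apply (algebraMap Ω B.L).injective
    rw [← eH_trace (B.jX (X.E.X.H i)), hz0, eH_trace, hn, map_natCast, map_natCast]
  -- the comparison
  obtain ⟨p, hp0, hp⟩ := B.det_compare X hpst hz00 hzz hz0
  set e := expo2 X i n with he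
  have hgal : ∀ h : G.W, Commute (coRep X.E i (G.res h)) z0 →
      LinearMap.det (coRep X.E i (G.res h) * z0 + (1 - z0)) ^ (4 * e) =
        X.E.mu (G.res h) ^ (i * n * e) := fun h hh =>
    det_gal X hi hz0c hz00 hz0cc htr hh
  have hχ : ∀ σ, algebraMap Ω B.L (X.E.mu σ) * algebraMap Ω B.L (χ σ) ^ 2 = 1 := fun σ => by
    rw [← map_pow, ← map_mul, hμ, map_one]
  have hχk : ∀ σ (k : ℕ), algebraMap Ω B.L (X.E.mu σ) ^ k *
      algebraMap Ω B.L (χ σ) ^ (2 * k) = 1 := fun σ k => by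
    rw [pow_mul (algebraMap Ω B.L (χ σ)) 2 k, ← mul_pow, hχ, one_pow]
  -- the constant
  have hconst : ∃ κ : B.C, algebraMap B.C B.L κ = p ^ (4 * e) * (B.t ^ (2 * (i * n * e)))⁻¹ := by
    refine B.const' _ ?_
    have hdeg : ∀ᶠ g in G.filt, G.deg g = 0 := by
      rw [WeilGroup.filt]
      exact Filter.eventually_inf_principal.2 (Eventually.of_forall fun g hg => hg)
    filter_upwards [B.near_ad (hpst i) z, B.near_all (coRep X.E i), hdeg] with h h1 h2 h3
    have h4 : B.frobD (coRep X.E i) h = 1 := LinearMap.ext fun x => Subtype.ext (h2 x x.2)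
    have h5 := B.comm_gal X hz0 h1
    have h6 := hp h h5 (by rw [h4]; exact Commute.one_left z)
    have h7 : B.frobD (coRep X.E i) h * z + (1 - z) = 1 := by rw [h4, one_mul]; abel
    rw [h7, map_one, map_one, mul_one] at h6
    have h8 := hgal h h5
    have h9 : algebraMap Ω B.L (X.E.mu (G.res h)) ^ (i * n * e) * B.τ h p ^ (4 * e) =
        p ^ (4 * e) := by
      rw [← map_pow, ← h8, map_pow, ← mul_pow, h6]
    have h10 : B.τ h B.t = algebraMap Ω B.L (χ (G.res h)) * B.t := by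
      rw [B.τ_t, h3, zpow_zero, mul_one]
    have h11 := hχk (G.res h) (i * n * e)
    have hχ0 : algebraMap Ω B.L (χ (G.res h)) ≠ 0 := by
      intro h0
      have := hχ (G.res h)
      rw [h0] at this
      simp at this
    have ht0 := B.t_ne
    rw [map_mul, map_pow, map_inv₀, map_pow, h10, mul_pow, mul_inv, ← h9]
    have h12 : B.τ h p ^ (4 * e) = (algebraMap Ω B.L (X.E.mu (G.res h)) ^ (i * n * e) *
        algebraMap Ω B.L (χ (G.res h)) ^ (2 * (i * n * e))) * B.τ h p ^ (4 * e) := by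
      rw [h11, one_mul]
    have h13 : (algebraMap Ω B.L (χ (G.res h)) ^ (2 * (i * n * e))) ≠ 0 := pow_ne_zero _ hχ0
    conv_lhs => rw [h12]
    field_simp
  obtain ⟨κ, hκ⟩ := hconst
  refine ⟨e, expo2_pos X i n, ?_⟩
  have hadg : B.ad (coRep X.E i) g (eH (B.jD (hpst i)) z) = eH (B.jD (hpst i)) z := by
    rw [B.ad_frobE X.E hpst i g z]
    congr 1
    refine LinearMap.ext fun x => ?_
    change B.frobD (coRep X.E i) g (z ((B.frobE (coRep X.E i) g).symm x)) = z x
    have h1 := congrArg (fun f : Module.End B.C (B.Dpst (coRep X.E i)) =>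
      f ((B.frobE (coRep X.E i) g).symm x)) hzF.eq
    change B.frobD (coRep X.E i) g (z ((B.frobE (coRep X.E i) g).symm x)) =
      z ((B.frobE (coRep X.E i) g) ((B.frobE (coRep X.E i) g).symm x)) at h1
    rw [h1, LinearEquiv.apply_symm_apply]
  have h5 := B.comm_gal X hz0 hadg
  have h6 := hp g h5 hzF
  have h8 := hgal g h5
  set δ := LinearMap.det (B.frobD (coRep X.E i) g * z + (1 - z)) with hδ
  have h9 : algebraMap Ω B.L (X.E.mu (G.res g)) ^ (i * n * e) * B.τ g (p ^ (4 * e)) =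
      p ^ (4 * e) * algebraMap B.C B.L δ ^ (4 * e) := by
    rw [← map_pow, ← h8, map_pow, map_pow, ← mul_pow, h6, mul_pow]
  have ht0 : B.t ^ (2 * (i * n * e)) ≠ 0 := pow_ne_zero _ B.t_ne
  have hp4 : p ^ (4 * e) = algebraMap B.C B.L κ * B.t ^ (2 * (i * n * e)) := by
    rw [hκ, mul_assoc, inv_mul_cancel₀ ht0, mul_one]
  have hκ0 : algebraMap B.C B.L κ ≠ 0 := by
    intro h0
    rw [h0, zero_mul] at hp4
    exact pow_ne_zero _ hp0 hp4
  have h11 := hχk (G.res g) (i * n * e)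
  rw [hp4, map_mul, AlgEquiv.commutes, map_pow, B.τ_t, mul_pow, mul_pow] at h9
  have h12 : (algebraMap B.C B.L κ * B.t ^ (2 * (i * n * e))) *
      ((Ideal.absNorm u.asIdeal : B.L) ^ G.deg g) ^ (2 * (i * n * e)) =
      (algebraMap B.C B.L κ * B.t ^ (2 * (i * n * e))) * algebraMap B.C B.L δ ^ (4 * e) := by
    rw [← h9]
    calc _ = (algebraMap Ω B.L (X.E.mu (G.res g)) ^ (i * n * e) *
        algebraMap Ω B.L (χ (G.res g)) ^ (2 * (i * n * e))) *
          ((algebraMap B.C B.L κ * B.t ^ (2 * (i * n * e))) *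
      ((Ideal.absNorm u.asIdeal : B.L) ^ G.deg g) ^ (2 * (i * n * e))) := by rw [h11, one_mul]
      _ = _ := by ring
  have h13 := mul_left_cancel₀ (mul_ne_zero hκ0 ht0) h12
  apply (algebraMap B.C B.L).injective
  rw [map_pow, ← h13, map_pow, map_pow, map_zpow₀, map_natCast, ← pow_mul]

/-- **(H2)** The determinants on the isotypic parts. -/
theorem PeriodField.detOnCen (g : G.W) {i : ℕ} (hi : i ≤ X.d) :
    DetOnCen (B.FD X.E hμ hpst g) i := by
  intro z hz hzz hzc hzF n hn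
  exact B.det_clean X hμ hpst g hi z hzz ((B.mem_cenD X.E hμ hpst).1 hz)
    (fun a ha => hzc a ((B.mem_cenD X.E hμ hpst).2 ha)) hzF hn

end

end Pool.Agent.H66PH
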