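import Pool.Agent.H66PH.XD2

/-!
# The cohomology `D_pst(H^i)`: Frobenius and monodromy
-/

set_option autoImplicit false

namespace Pool.Agent.H66PH

open Module TensorProduct NumberField IsDedekindDomain Filter Topology
open Pool.Agent.W401.Cheb Pool.Agent.N184.HK Pool.Agent.Y143

section

variable {K : Type} [Field K] [NumberField K] {u : HeightOneSpectrum (𝓞 K)} {G : WeilGroup K u}
  {Ω : Type} [Field Ω] [CharZero Ω] [TopologicalSpace Ω] {χ : GK K → Ω} (B : PeriodField G Ω χ)
  {d : ℕ} {c : ℚ} (E : GaloisCohomology K Ω d c) (hμ : ∀ g, E.mu g * χ g ^ 2 = 1)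
  (hpst : ∀ i, B.IsPst (coRep E i))

/-- The automorphism of `D_pst(V)` given by an element of the Weil group. -/
noncomputable def PeriodField.frobE {V : Type} [AddCommGroup V] [Module Ω V]
    (r : GK K →* Module.End Ω V) (g : G.W) : B.Dpst r ≃ₗ[B.C] B.Dpst r :=
  LinearEquiv.ofLinearMap (B.frobD r g) (B.frobD r g⁻¹)
    (LinearMap.ext fun x => Subtype.ext (B.act_inv_right r g x))
    (LinearMap.ext fun x => Subtype.ext (B.act_inv_left r g x))

lemma PeriodField.ad_frobE (i : ℕ) (g : G.W) (A : Module.End B.C (B.Dpst (coRep E i))) :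
    B.ad (coRep E i) g (eH (B.jD (hpst i)) A) =
      eH (B.jD (hpst i)) ((B.frobE (coRep E i) g).toLinearMap ∘ₗ A ∘ₗ
        (B.frobE (coRep E i) g).symm.toLinearMap) := by
  refine (B.eH_restrict (hpst i) _ fun x => ?_).symm
  rw [B.ad_apply]
  have h1 : eH (B.jD (hpst i)) A (B.act (coRep E i) g⁻¹ x) =
      (A ((B.frobE (coRep E i) g).symm x) : B.TL (E.X.H i)) :=
    eH_apply (B.jD (hpst i)) A ((B.frobE (coRep E i) g).symm x)
  rw [h1]
  rfl

lemma PeriodField.qD_similar (g : G.W) (x y : B.Dpst (coRep E 2)) :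
    B.qD E hμ (B.frobE (coRep E 2) g x) (B.frobE (coRep E 2) g y) =
      ((Ideal.absNorm u.asIdeal : B.C) ^ G.deg g) ^ 2 * B.qD E hμ x y := by
  apply (algebraMap B.C B.L).injective
  apply mul_left_cancel₀ (pow_ne_zero 2 B.t_ne)
  have h1 := B.qD_spec E hμ (B.frobE (coRep E 2) g x) (B.frobE (coRep E 2) g y)
  have h2 := B.Q_act E g x y
  have h3 : B.Q E (B.act (coRep E 2) g x) (B.act (coRep E 2) g y) =
    B.Q E ((B.Dpst (coRep E 2)).subtype (B.frobE (coRep E 2) g x))
      ((B.Dpst (coRep E 2)).subtype (B.frobE (coRep E 2) g y)) := rfl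
  have h4 : B.Q E (x : B.TL (E.X.H 2)) (y : B.TL (E.X.H 2)) =
    B.t ^ 2 * algebraMap B.C B.L (B.qD E hμ x y) := B.qD_spec E hμ x y
  have h5 : algebraMap Ω B.L (E.mu (G.res g)) * algebraMap Ω B.L (χ (G.res g)) ^ 2 = 1 := by
    rw [← map_pow, ← map_mul, hμ, map_one]
  rw [← h1, ← h3, h2, h4, map_mul, map_pow, B.τ_t, AlgEquiv.commutes, map_mul, map_pow,
    map_zpow₀, map_natCast]
  calc _ = (algebraMap Ω B.L (E.mu (G.res g)) * algebraMap Ω B.L (χ (G.res g)) ^ 2) *
      (B.t ^ 2 * (((Ideal.absNorm u.asIdeal : B.L) ^ G.deg g) ^ 2 *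
        algebraMap B.C B.L (B.qD E hμ x y))) := by ring
    _ = _ := by rw [h5, one_mul]

lemma PeriodField.ρD_equi (g : G.W) (i : ℕ) (A : Module.End B.C (B.Dpst (coRep E 2)))
    (x : B.Dpst (coRep E i)) :
    B.frobE (coRep E i) g (B.ρD E hpst i A x) =
      B.ρD E hpst i ((B.frobE (coRep E 2) g).toLinearMap ∘ₗ A ∘ₗ
        (B.frobE (coRep E 2) g).symm.toLinearMap) (B.frobE (coRep E i) g x) := by
  refine Subtype.ext ?_
  change B.act (coRep E i) g (B.R E i (eH (B.jD (hpst 2)) A) x) =
    B.R E i (eH (B.jD (hpst 2)) ((B.frobE (coRep E 2) g).toLinearMap ∘ₗ A ∘ₗ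
      (B.frobE (coRep E 2) g).symm.toLinearMap)) (B.act (coRep E i) g x)
  rw [← B.ad_frobE E hpst 2, B.R_ad, B.ad_act]

/-- The action of an element of the Weil group. -/
noncomputable def PeriodField.FD (g : G.W) : (B.XD E hμ hpst).Auto where
  φ i := B.frobE (coRep E i) g
  μ := ((Ideal.absNorm u.asIdeal : B.C) ^ G.deg g) ^ 2
  μ_ne := by
    refine pow_ne_zero 2 (zpow_ne_zero _ ?_)
    have := NumberField.HeightOneSpectrum.one_lt_absNorm u
    exact_mod_cast (by omega : Ideal.absNorm u.asIdeal ≠ 0)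
  similar := B.qD_similar E hμ g
  equi i A := LinearMap.ext fun x => B.ρD_equi E hpst g i A x

lemma PeriodField.mon_R (i : ℕ) (A A' : Module.End B.L (B.TL (E.X.H 2)))
    (h : ∀ x, A' x = B.mon _ (A x) - A (B.mon _ x)) (x : B.TL (E.X.H i)) :
    B.R E i A' x = B.mon _ (B.R E i A x) - B.R E i A (B.mon _ x) := by
  have hA : A ∈ Submodule.span B.L (Set.range (eH (B.jX (E.X.H 2)))) := by
    rw [bc_span (eH_bc (B.jX (E.X.H 2)))]
    exact Submodule.mem_top
  -- monodromy of rational operators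
  have hmon : ∀ (V : Type) [AddCommGroup V] [Module Ω V] [FiniteDimensional Ω V]
      (a : Module.End Ω V) (x : B.TL V),
      B.mon V (eH (B.jX V) a x) = eH (B.jX V) a (B.mon V x) := by
    intro V _ _ _ a x
    refine B.tl_ind x (by simp) (fun l v => ?_) fun x y hx hy => by
      rw [map_add, map_add, map_add, map_add, hx, hy]
    have h1 : ∀ l : B.L, eH (B.jX V) a (B.tm l v) = B.tm l (a v) := by
      intro l
      have h2 : ∀ w : V, B.tm l w = l • B.al V w := by
        intro w
        have : B.al V w = B.tm 1 w := rfl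
        rw [this, B.smul_tm, mul_one]
      rw [h2, h2, map_smul, eH_apply]
    rw [h1, B.mon_tmul, B.mon_tmul, h1]
  revert A'
  refine Submodule.span_induction
    (p := fun A _ => ∀ A', (∀ x, A' x = B.mon _ (A x) - A (B.mon _ x)) →
      B.R E i A' x = B.mon _ (B.R E i A x) - B.R E i A (B.mon _ x))
    ?_ ?_ ?_ ?_ hA
  · rintro _ ⟨a, rfl⟩ A' h
    have h1 : A' = 0 := LinearMap.ext fun x => by
      rw [h, hmon, sub_self]; rfl
    rw [h1, map_zero, B.R_eH, hmon, sub_self]; rfl
  · intro A' h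
    have h1 : A' = 0 := LinearMap.ext fun x => by
      rw [h]; simp
    rw [h1]; simp
  · intro A₁ A₂ _ _ h₁ h₂ A' h
    -- the two parts
    have hex : ∀ A : Module.End B.L (B.TL (E.X.H 2)), ∃ A' : Module.End B.L (B.TL (E.X.H 2)),
        ∀ x, A' x = B.mon _ (A x) - A (B.mon _ x) := by
      intro A
      refine ⟨{ toFun := fun x => B.mon _ (A x) - A (B.mon _ x)
                map_add' := fun x y => by simp only [map_add]; abel
                map_smul' := fun l x => by
                  rw [map_smul, B.mon_smul, B.mon_smul, map_add, map_smul, map_smul,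
                    RingHom.id_apply, smul_sub]
                  abel }, fun x => rfl⟩
    obtain ⟨A₁', h₁'⟩ := hex A₁
    obtain ⟨A₂', h₂'⟩ := hex A₂
    have h3 : A' = A₁' + A₂' := LinearMap.ext fun x => by
      rw [h, LinearMap.add_apply, LinearMap.add_apply, LinearMap.add_apply, h₁', h₂', map_add]
      abel
    rw [h3, map_add, map_add, LinearMap.add_apply, h₁ A₁' h₁', h₂ A₂' h₂', LinearMap.add_apply,
      LinearMap.add_apply, map_add]
    abel
  · intro l A _ hA A' h
    have hex : ∃ A'' : Module.End B.L (B.TL (E.X.H 2)),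
        ∀ x, A'' x = B.mon _ (A x) - A (B.mon _ x) := by
      refine ⟨{ toFun := fun x => B.mon _ (A x) - A (B.mon _ x)
                map_add' := fun x y => by simp only [map_add]; abel
                map_smul' := fun l x => by
                  rw [map_smul, B.mon_smul, B.mon_smul, map_add, map_smul, map_smul,
                    RingHom.id_apply, smul_sub]
                  abel }, fun x => rfl⟩
    obtain ⟨A'', h''⟩ := hex
    have h3 : A' = B.N l • A + l • A'' := LinearMap.ext fun x => by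
      rw [h, LinearMap.add_apply, LinearMap.smul_apply, LinearMap.smul_apply, LinearMap.smul_apply,
        LinearMap.smul_apply, h'', B.mon_smul, smul_sub]
      abel
    rw [h3, map_add, map_smul, map_smul, map_smul, LinearMap.add_apply, LinearMap.smul_apply,
      LinearMap.smul_apply, hA A'' h'', LinearMap.smul_apply, LinearMap.smul_apply, B.mon_smul,
      smul_sub]
    abel

lemma PeriodField.qD_skew (x y : B.Dpst (coRep E 2)) :
    B.qD E hμ (B.monD (coRep E 2) x) y + B.qD E hμ x (B.monD (coRep E 2) y) = 0 := by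
  apply (algebraMap B.C B.L).injective
  apply mul_left_cancel₀ (pow_ne_zero 2 B.t_ne)
  have h1 := B.qD_spec E hμ (B.monD (coRep E 2) x) y
  have h2 := B.qD_spec E hμ x (B.monD (coRep E 2) y)
  have h3 : B.Q E (x : B.TL (E.X.H 2)) (y : B.TL (E.X.H 2)) =
    B.t ^ 2 * algebraMap B.C B.L (B.qD E hμ x y) := B.qD_spec E hμ x y
  have h4 := B.Q_mon E x y
  have h5 : B.N (B.t ^ 2) = 0 := by
    rw [pow_two, B.leibniz, B.N_t]; ring
  have h6 : B.N (algebraMap B.C B.L (B.qD E hμ x y)) = 0 := by
    have h := B.leibniz 1 1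
    rw [mul_one, mul_one, one_mul] at h
    rw [Algebra.algebraMap_eq_smul_one, map_smul, left_eq_add.1 h, smul_zero]
  rw [h3, B.leibniz, h5, h6, zero_mul, mul_zero, add_zero] at h4
  rw [map_add, mul_add, ← h1, ← h2, map_zero, mul_zero]
  exact h4

lemma PeriodField.eH_mon (A : Module.End B.C (B.Dpst (coRep E 2))) (y : B.TL (E.X.H 2)) :
    eH (B.jD (hpst 2)) (B.monD (coRep E 2) * A - A * B.monD (coRep E 2)) y =
      B.mon _ (eH (B.jD (hpst 2)) A y) - eH (B.jD (hpst 2)) A (B.mon _ y) := by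
  set A' : Module.End B.C (B.Dpst (coRep E 2)) :=
    B.monD (coRep E 2) * A - A * B.monD (coRep E 2) with hA'
  have hex : ∃ A'' : Module.End B.L (B.TL (E.X.H 2)),
      ∀ y, A'' y = B.mon _ (eH (B.jD (hpst 2)) A y) - eH (B.jD (hpst 2)) A (B.mon _ y) := by
    refine ⟨{ toFun := fun x => B.mon _ (eH (B.jD (hpst 2)) A x) -
                eH (B.jD (hpst 2)) A (B.mon _ x)
              map_add' := fun x y => by simp only [map_add]; abel
              map_smul' := fun l x => by
                rw [map_smul, B.mon_smul, B.mon_smul, map_add, map_smul, map_smul,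
                  RingHom.id_apply, smul_sub]
                abel }, fun x => rfl⟩
  obtain ⟨A'', h''⟩ := hex
  have h2 : eH (B.jD (hpst 2)) A' = A'' := by
    refine B.eH_restrict (hpst 2) A' fun z => ?_
    rw [h'']
    have h3 : eH (B.jD (hpst 2)) A (z : B.TL (E.X.H 2)) = (A z : B.TL (E.X.H 2)) :=
      eH_apply (B.jD (hpst 2)) A z
    have h4 : eH (B.jD (hpst 2)) A (B.mon _ (z : B.TL (E.X.H 2))) =
        (A (B.monD (coRep E 2) z) : B.TL (E.X.H 2)) :=
      eH_apply (B.jD (hpst 2)) A (B.monD (coRep E 2) z)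
    rw [h3, h4]
    rfl
  rw [h2, h'']

lemma PeriodField.ρD_mon (i : ℕ) (A : Module.End B.C (B.Dpst (coRep E 2)))
    (x : B.Dpst (coRep E i)) :
    B.monD (coRep E i) (B.ρD E hpst i A x) - B.ρD E hpst i A (B.monD (coRep E i) x) =
      B.ρD E hpst i (B.monD (coRep E 2) * A - A * B.monD (coRep E 2)) x := by
  refine Subtype.ext ?_
  exact (B.mon_R E i (eH (B.jD (hpst 2)) A)
    (eH (B.jD (hpst 2)) (B.monD (coRep E 2) * A - A * B.monD (coRep E 2)))
    (B.eH_mon E hpst A) x).symm

lemma PeriodField.mon_frobD (g : G.W) {n : ℕ} (hg : G.deg g = n) (i : ℕ)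
    (x : B.Dpst (coRep E i)) :
    B.monD (coRep E i) (B.frobD (coRep E i) g x) =
      ((Ideal.absNorm u.asIdeal ^ n : ℕ) : B.C) •
        B.frobD (coRep E i) g (B.monD (coRep E i) x) := by
  apply Subtype.ext
  have h1 := B.mon_act (coRep E i) g x
  rw [hg, zpow_natCast, ← Nat.cast_pow] at h1
  exact h1

/-- The monodromy. -/
noncomputable def PeriodField.MD (g : G.W) {n : ℕ} (hg : G.deg g = n)
    (hw : ∀ i ≤ d, Weighted (Ideal.absNorm u.asIdeal ^ n) (B.frobD (coRep E i) g))
    (h2 : IsMWPure (Ideal.absNorm u.asIdeal ^ n) 2 (B.frobD (coRep E 2) g)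
      (B.monD (coRep E 2))) :
    Monodromy (B.FD E hμ hpst g) (Ideal.absNorm u.asIdeal ^ n) where
  mult := by
    change ((Ideal.absNorm u.asIdeal : B.C) ^ G.deg g) ^ 2 = _
    rw [hg, zpow_natCast, ← Nat.cast_pow]
  N i := B.monD (coRep E i)
  skew := B.qD_skew E hμ
  compat i _ A _ := LinearMap.ext fun x => B.ρD_mon E hpst i A x
  twist i _ := B.mon_frobD E g hg i
  weights := hw
  mw_two := h2

end

end Pool.Agent.H66PH
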