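import Pool.Agent.H66PH.Lin
import Pool.Agent.N184.HK.Coh

/-!
# Cohomology of hyperkähler varieties: forms over subfields
-/

set_option autoImplicit false

namespace Pool.Agent.H66PH

open Module Pool.Agent.N184.HK

section

variable {k L : Type} [Field k] [Field L] [Algebra k L]
  {V U : ℕ → Type} [∀ i, AddCommGroup (V i)] [∀ i, Module k (V i)]
  [∀ i, AddCommGroup (U i)] [∀ i, Module k (U i)] [∀ i, Module L (U i)]
  [∀ i, IsScalarTower k L (U i)] {α : ∀ i, V i →ₗ[k] U i} (j : ∀ i, IsBaseChange L (α i))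
  {q : LinearMap.BilinForm k (V 2)} {Q : LinearMap.BilinForm L (U 2)} {s : L} (hs : s ≠ 0)
  (hq : ∀ x y, Q (α 2 x) (α 2 y) = s * algebraMap k L (q x y))
  {ρ : ∀ i, Act k (V 2) (V i)} {R : ∀ i, Act L (U 2) (U i)}
  (hR : ∀ i a, R i (eH (j 2) a) = eH (j i) (ρ i a))

include j in
/-- Bilinear forms on the base change. -/
lemma form_ext {B B' : LinearMap.BilinForm L (U 2)}
    (h : ∀ x y, B (α 2 x) (α 2 y) = B' (α 2 x) (α 2 y)) : B = B' :=
  bc_ext (j 2) fun x => bc_ext (j 2) fun y => h x y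

include hs hq in
lemma skew_eH {a : Module.End k (V 2)} : Skew Q (eH (j 2) a) ↔ Skew q a := by
  constructor
  · intro h x y
    have h1 := h (α 2 x) (α 2 y)
    rw [eH_apply, eH_apply, hq, hq, ← mul_add, ← map_add] at h1
    have h2 := (mul_eq_zero.1 h1).resolve_left hs
    exact (map_eq_zero (algebraMap k L)).1 h2
  · intro h
    have h1 : Q ∘ₗ (eH (j 2) a) + Q.compl₂ (eH (j 2) a) = 0 := by
      refine form_ext j fun x y => ?_
      change Q (eH (j 2) a (α 2 x)) (α 2 y) + Q (α 2 x) (eH (j 2) a (α 2 y)) = 0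
      rw [eH_apply, eH_apply, hq, hq, ← mul_add, ← map_add, h x y, map_zero, mul_zero]
    intro x y
    exact congrArg (fun B : LinearMap.BilinForm L (U 2) => B x y) h1

include hs hq in
/-- The skew operators are linear combinations of rational skew operators. -/
lemma skew_span [FiniteDimensional k (V 2)] {A : Module.End L (U 2)} (hA : Skew Q A) :
    A ∈ Submodule.span L (eH (j 2) '' {a | Skew q a}) := by
  have h := ker_span (eH_bc (j 2)) (ι := V 2 × V 2) (V' := fun _ => k)
    (U' := fun _ => L) (fun _ => Algebra.linearMap k L) (fun _ => IsBaseChange.linearMap k L)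
    (fun p => s⁻¹ • ((Q.flip (α 2 p.2)) ∘ₗ LinearMap.applyₗ (α 2 p.1) +
      (Q (α 2 p.1)) ∘ₗ LinearMap.applyₗ (α 2 p.2)))
    (fun p => (q.flip p.2) ∘ₗ LinearMap.applyₗ p.1 + (q p.1) ∘ₗ LinearMap.applyₗ p.2)
    (fun p a => by
      change s⁻¹ * (Q (eH (j 2) a (α 2 p.1)) (α 2 p.2) + Q (α 2 p.1) (eH (j 2) a (α 2 p.2))) =
        algebraMap k L (q (a p.1) p.2 + q p.1 (a p.2))
      rw [eH_apply, eH_apply, hq, hq, ← mul_add, ← map_add, ← mul_assoc, inv_mul_cancel₀ hs,
        one_mul])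
    A (fun p => by
      change s⁻¹ * (Q (A (α 2 p.1)) (α 2 p.2) + Q (α 2 p.1) (A (α 2 p.2))) = 0
      rw [hA, mul_zero])
  refine Submodule.span_mono ?_ h
  rintro _ ⟨a, ha, rfl⟩
  exact ⟨a, fun x y => ha (x, y), rfl⟩

/-! ### From `k` to `L` -/

include j hq in
lemma up_symm (h : q.IsSymm) : Q.IsSymm := by
  refine ⟨fun x y => ?_⟩
  have h1 : Q = Q.flip := form_ext j fun x y => by
    change Q (α 2 x) (α 2 y) = Q (α 2 y) (α 2 x)
    rw [hq, hq, h.eq x y]
  exact congrArg (fun B : LinearMap.BilinForm L (U 2) => B x y) h1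

omit [Field k] [Algebra k L] [∀ i, Module k (V i)] [∀ i, Module k (U i)]
  [∀ i, IsScalarTower k L (U i)] in
lemma nondeg_of {W : Type} [AddCommGroup W] [Module L W] {B : LinearMap.BilinForm L W}
    (h : B.IsSymm) (hl : ∀ x, (∀ y, B x y = 0) → x = 0) : B.Nondegenerate :=
  ⟨hl, fun y hy => hl y fun x => by rw [h.eq]; exact hy x⟩

include j hs hq in
lemma up_nondeg (h : q.IsSymm) (hn : q.Nondegenerate) : Q.Nondegenerate := by
  refine nondeg_of (up_symm j hq h) fun x hx => ?_
  have h1 := ker_span (j 2) (ι := V 2) (V' := fun _ => k)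
    (U' := fun _ => L) (fun _ => Algebra.linearMap k L) (fun _ => IsBaseChange.linearMap k L)
    (fun y => s⁻¹ • Q.flip (α 2 y)) (fun y => q.flip y)
    (fun y v => by
      change s⁻¹ * Q (α 2 v) (α 2 y) = algebraMap k L (q v y)
      rw [hq, ← mul_assoc, inv_mul_cancel₀ hs, one_mul])
    x (fun y => by
      change s⁻¹ * Q x (α 2 y) = 0
      rw [hx, mul_zero])
  have h2 : {v : V 2 | ∀ y, q.flip y v = 0} ⊆ {0} := fun v hv => hn.1 v hv
  have h3 := Submodule.span_mono (R := L) (Set.image_mono (f := α 2) h2) h1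
  rw [Set.image_singleton, map_zero, Submodule.span_zero_singleton, Submodule.mem_bot] at h3
  exact h3

include hs hq hR in
lemma up_two [FiniteDimensional k (V 2)] (h : (ρ 2).IsStd q) : (R 2).IsStd Q := by
  intro A hA
  refine Submodule.span_induction (p := fun A _ => R 2 A = A) ?_ (map_zero _)
    (fun x y _ _ hx hy => by rw [map_add, hx, hy]) (fun c x _ hx => by rw [map_smul, hx])
    (skew_span j hs hq hA)
  rintro _ ⟨a, ha, rfl⟩
  rw [hR, h a ha]

/-- Bilinear identities for skew operators. -/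
lemma span_two {E M : Type} [AddCommGroup E] [Module L E] [AddCommGroup M] [Module L M]
    {S : Set E} (Φ : E →ₗ[L] E →ₗ[L] M) (h : ∀ a ∈ S, ∀ b ∈ S, Φ a b = 0) {A B : E}
    (hA : A ∈ Submodule.span L S) (hB : B ∈ Submodule.span L S) : Φ A B = 0 := by
  refine Submodule.span_induction (p := fun A _ => Φ A B = 0) ?_ (by simp)
    (fun x y _ _ hx hy => by rw [map_add, LinearMap.add_apply, hx, hy, add_zero])
    (fun c x _ hx => by rw [map_smul, LinearMap.smul_apply, hx, smul_zero]) hA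
  intro a ha
  refine Submodule.span_induction (p := fun B _ => Φ a B = 0) ?_ (map_zero _)
    (fun x y _ _ hx hy => by rw [map_add, hx, hy, add_zero])
    (fun c x _ hx => by rw [map_smul, hx, smul_zero]) hB
  exact fun b hb => h a ha b hb

include hs hq hR in
lemma up_bracket [FiniteDimensional k (V 2)] {i : ℕ} (h : (ρ i).IsRep q) : (R i).IsRep Q := by
  intro A B hA hB
  set Φ : Module.End L (U 2) →ₗ[L] Module.End L (U 2) →ₗ[L] Module.End L (U i) :=
    (LinearMap.mul L (Module.End L (U 2)) - (LinearMap.mul L (Module.End L (U 2))).flip).compr₂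
      (R i) - (LinearMap.mul L (Module.End L (U i)) -
        (LinearMap.mul L (Module.End L (U i))).flip).compl₁₂ (R i) (R i) with hΦ
  have hΦa : ∀ A B, Φ A B = R i (A * B - B * A) - (R i A * R i B - R i B * R i A) := fun A B => rfl
  have h1 := span_two Φ (S := eH (j 2) '' {a | Skew q a}) ?_ (skew_span j hs hq hA)
    (skew_span j hs hq hB)
  · rw [hΦa, sub_eq_zero] at h1
    exact h1
  · rintro _ ⟨a, ha, rfl⟩ _ ⟨b, hb, rfl⟩
    rw [hΦa, sub_eq_zero, ← eH_mul, ← eH_mul, ← map_sub, hR, hR, hR, ← eH_mul, ← eH_mul, ← map_sub,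
      h a b ha hb]

include hs hq hR in
lemma up_index [∀ i, FiniteDimensional k (V i)] {d : ℕ} {c : ℚ} [CharZero k]
    (h : TraceForm q (fun A B => ∑ i ∈ Finset.range (d + 1), (ρ i).form A B) c) :
    TraceForm Q (fun A B => ∑ i ∈ Finset.range (d + 1), (R i).form A B) c := by
  have : ∀ i, FiniteDimensional L (U i) := fun i => bc_finite (j i)
  intro A B hA hB
  set Φ : Module.End L (U 2) →ₗ[L] Module.End L (U 2) →ₗ[L] L :=
    (∑ i ∈ Finset.range (d + 1), ((LinearMap.mul L (Module.End L (U i))).compl₁₂ (R i) (R i)).compr₂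
      (LinearMap.trace L (U i))) - (c : L) • (LinearMap.mul L (Module.End L (U 2))).compr₂
      (LinearMap.trace L (U 2)) with hΦ
  have hΦa : ∀ A B, Φ A B = (∑ i ∈ Finset.range (d + 1), LinearMap.trace L (U i) (R i A * R i B)) -
      c * LinearMap.trace L (U 2) (A * B) := by
    intro A B
    rw [hΦ, LinearMap.sub_apply, LinearMap.sub_apply, LinearMap.sum_apply, LinearMap.sum_apply]
    rfl
  have h1 := span_two Φ (S := eH (j 2) '' {a | Skew q a}) ?_ (skew_span j hs hq hA)
    (skew_span j hs hq hB)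
  · rw [hΦa, sub_eq_zero] at h1
    exact h1
  · rintro _ ⟨a, ha, rfl⟩ _ ⟨b, hb, rfl⟩
    have h2 := congrArg (algebraMap k L) (h a b ha hb)
    rw [hΦa, sub_eq_zero, ← eH_mul, eH_trace]
    rw [map_sum, map_mul, map_ratCast] at h2
    rw [← h2]
    refine Finset.sum_congr rfl fun i _ => ?_
    rw [hR, hR, ← eH_mul, eH_trace]
    rfl

/-! ### From `L` to `k` -/

include hs hq in
lemma down_symm (h : Q.IsSymm) : q.IsSymm := by
  refine ⟨fun x y => ?_⟩
  have h1 := h.eq (α 2 x) (α 2 y)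
  rw [hq, hq] at h1
  exact (algebraMap k L).injective (mul_left_cancel₀ hs h1)

include j hs hq in
lemma down_nondeg (h : Q.IsSymm) (hn : Q.Nondegenerate) : q.Nondegenerate := by
  refine nondeg_of (L := k) (down_symm hs hq h) fun x hx => ?_
  apply bc_injective (j 2)
  rw [map_zero]
  refine hn.1 _ fun y => ?_
  have h1 : Q (α 2 x) = 0 := bc_ext (j 2) fun y => by
    rw [hq, hx, map_zero, mul_zero]; rfl
  rw [h1]; rfl

include hs hq hR in
lemma down_two (h : (R 2).IsStd Q) : (ρ 2).IsStd q := by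
  intro a ha
  apply eH_inj (j 2)
  rw [← hR, h _ ((skew_eH j hs hq).2 ha)]

include hs hq hR in
lemma down_bracket {i : ℕ} (h : (R i).IsRep Q) : (ρ i).IsRep q := by
  intro a b ha hb
  have h1 := h _ _ ((skew_eH j hs hq).2 ha) ((skew_eH j hs hq).2 hb)
  rw [← eH_mul, ← eH_mul, ← map_sub, hR, hR, hR, ← eH_mul, ← eH_mul, ← map_sub] at h1
  exact eH_inj (j i) h1

include hs hq hR in
lemma down_index [∀ i, FiniteDimensional k (V i)] {d : ℕ} {c : ℚ} [CharZero k]
    (h : TraceForm Q (fun A B => ∑ i ∈ Finset.range (d + 1), (R i).form A B) c) :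
    TraceForm q (fun A B => ∑ i ∈ Finset.range (d + 1), (ρ i).form A B) c := by
  intro a b ha hb
  apply (algebraMap k L).injective
  have h1 := h _ _ ((skew_eH j hs hq).2 ha) ((skew_eH j hs hq).2 hb)
  rw [map_sum, map_mul, map_ratCast, ← eH_trace (j 2), eH_mul, ← h1]
  refine Finset.sum_congr rfl fun i _ => ?_
  rw [Act.form, Act.form, ← eH_trace (j i), eH_mul, hR, hR]

end

end Pool.Agent.H66PH
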