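import Mathlib

/-!
# Linear algebra over an extension of fields: coordinates, rationality of kernels
-/

set_option autoImplicit false

namespace Pool.Agent.H66PH

open Module TensorProduct

section crd

variable {k L : Type} [Field k] [Field L] [Algebra k L]
  {V U : Type} [AddCommGroup V] [Module k V] [AddCommGroup U] [Module k U] [Module L U]
  [IsScalarTower k L U] {α : V →ₗ[k] U}

/-- The index set of a basis of `L` over `k`. -/
abbrev BI (k L : Type) [Field k] [Field L] [Algebra k L] : Type :=
  Basis.ofVectorSpaceIndex k L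

/-- A basis of `L` over `k`. -/
noncomputable def bL (k L : Type) [Field k] [Field L] [Algebra k L] : Basis (BI k L) k L :=
  Basis.ofVectorSpace k L

/-- All coordinates. -/
noncomputable def crdAll (j : IsBaseChange L α) : U →ₗ[k] (BI k L →₀ V) := by
  classical
  exact (TensorProduct.equivFinsuppOfBasisLeft (bL k L)).toLinearMap ∘ₗ
    (j.equiv.symm.restrictScalars k).toLinearMap

/-- The coordinate with index `i`. -/
noncomputable def crd (j : IsBaseChange L α) (i : BI k L) : U →ₗ[k] V :=
  (Finsupp.lapply i) ∘ₗ crdAll j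

lemma crd_smul (j : IsBaseChange L α) (i : BI k L) (l : L) (v : V) :
    crd j i (l • α v) = ((bL k L).repr l i) • v := by
  classical
  rw [crd, crdAll, LinearMap.comp_apply, LinearMap.comp_apply]
  have h1 : (j.equiv.symm.restrictScalars k).toLinearMap (l • α v) = l ⊗ₜ[k] v := by
    change j.equiv.symm (l • α v) = _
    rw [LinearEquiv.symm_apply_eq, IsBaseChange.equiv_tmul]
  rw [h1]
  simp

lemma crd_nat (j : IsBaseChange L α) {V' U' : Type} [AddCommGroup V'] [Module k V']
    [AddCommGroup U'] [Module k U'] [Module L U'] [IsScalarTower k L U'] {α' : V' →ₗ[k] U'}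
    (j' : IsBaseChange L α') (T : U →ₗ[L] U') (t : V →ₗ[k] V') (h : ∀ v, T (α v) = α' (t v))
    (i : BI k L) (x : U) : crd j' i (T x) = t (crd j i x) := by
  have key : ∀ y : L ⊗[k] V, crd j' i (T (j.equiv y)) = t (crd j i (j.equiv y)) := by
    intro y
    induction y using TensorProduct.induction_on with
    | zero => simp
    | tmul l v => rw [IsBaseChange.equiv_tmul, map_smul, h, crd_smul, crd_smul, map_smul]
    | add a b ha hb => rw [map_add, map_add, map_add, map_add, map_add, ha, hb]
  have := key (j.equiv.symm x)
  rwa [LinearEquiv.apply_symm_apply] at this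

lemma crd_sum (j : IsBaseChange L α) (x : U) :
    x = (crdAll j x).sum fun i v => bL k L i • α v := by
  classical
  have key : ∀ y : L ⊗[k] V, j.equiv y =
      (TensorProduct.equivFinsuppOfBasisLeft (bL k L) y).sum fun i v => bL k L i • α v := by
    intro y
    induction y using TensorProduct.induction_on with
    | zero => simp
    | tmul l v =>
      rw [IsBaseChange.equiv_tmul]
      conv_lhs => rw [← (bL k L).linearCombination_repr l]
      rw [TensorProduct.equivFinsuppOfBasisLeft_apply_tmul, Finsupp.linearCombination_apply,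
        Finsupp.sum, Finset.sum_smul]
      rw [Finsupp.sum_mapRange_index (by intro i; rw [map_zero, smul_zero])]
      refine Finset.sum_congr rfl fun i _ => ?_
      change _ = (bL k L) i • α (((bL k L).repr l) i • v)
      rw [map_smul, smul_assoc, smul_comm]
    | add a b ha hb =>
      rw [map_add, map_add, Finsupp.sum_add_index', ← ha, ← hb]
      · intro i; rw [map_zero, smul_zero]
      · intro i v w; rw [map_add, smul_add]
  have h1 := key (j.equiv.symm x)
  rw [LinearEquiv.apply_symm_apply] at h1
  exact h1

lemma mem_span_crd (j : IsBaseChange L α) (x : U) {P : Submodule k V}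
    (h : ∀ i, crd j i x ∈ P) : x ∈ Submodule.span L (α '' P) := by
  rw [crd_sum j x]
  refine Submodule.sum_mem _ fun i _ => Submodule.smul_mem _ _ (Submodule.subset_span ⟨_, ?_, rfl⟩)
  exact h i

/-- Rationality of kernels. -/
lemma ker_span (j : IsBaseChange L α) {ι : Type} {V' U' : ι → Type}
    [∀ s, AddCommGroup (V' s)] [∀ s, Module k (V' s)]
    [∀ s, AddCommGroup (U' s)] [∀ s, Module k (U' s)] [∀ s, Module L (U' s)]
    [∀ s, IsScalarTower k L (U' s)] (α' : ∀ s, V' s →ₗ[k] U' s)
    (j' : ∀ s, IsBaseChange L (α' s)) (T : ∀ s, U →ₗ[L] U' s) (t : ∀ s, V →ₗ[k] V' s)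
    (h : ∀ s v, T s (α v) = α' s (t s v)) (x : U) (hx : ∀ s, T s x = 0) :
    x ∈ Submodule.span L (α '' {v | ∀ s, t s v = 0}) := by
  have h1 : ({v | ∀ s, t s v = 0} : Set V) = ((⨅ s, LinearMap.ker (t s) : Submodule k V) : Set V) := by
    ext v
    simp
  rw [h1]
  refine mem_span_crd j x fun i => ?_
  rw [Submodule.mem_iInf]
  intro s
  rw [LinearMap.mem_ker, ← crd_nat j (j' s) (T s) (t s) (h s) i x, hx s, map_zero]

lemma bc_injective (j : IsBaseChange L α) : Function.Injective α := by
  have h1 : ∃ i, (bL k L).repr 1 i ≠ 0 := by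
    by_contra hcon
    push Not at hcon
    have : (bL k L).repr (1 : L) = 0 := Finsupp.ext hcon
    rw [LinearEquiv.map_eq_zero_iff] at this
    exact one_ne_zero this
  obtain ⟨i, hi⟩ := h1
  intro v w hvw
  have h2 := crd_smul j i 1 v
  have h3 := crd_smul j i 1 w
  rw [hvw, h3] at h2
  exact (smul_right_injective V hi h2).symm

lemma bc_ext (j : IsBaseChange L α) {U' : Type} [AddCommGroup U'] [Module L U']
    {T T' : U →ₗ[L] U'} (h : ∀ v, T (α v) = T' (α v)) : T = T' :=
  IsBaseChange.algHom_ext j T T' h

lemma bc_span (j : IsBaseChange L α) : Submodule.span L (Set.range α) = ⊤ := by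
  rw [eq_top_iff]
  intro x _
  have := mem_span_crd j x (P := ⊤) fun i => Submodule.mem_top
  rwa [Submodule.top_coe, Set.image_univ] at this

end crd

section fin

variable {k L : Type} [Field k] [Field L] [Algebra k L]
  {V U : Type} [AddCommGroup V] [Module k V] [FiniteDimensional k V] [AddCommGroup U] [Module k U]
  [Module L U] [IsScalarTower k L U] {α : V →ₗ[k] U}

lemma bc_finite (j : IsBaseChange L α) : FiniteDimensional L U :=
  Module.Finite.of_basis (j.basis (Module.finBasis k V))

lemma bc_finrank (j : IsBaseChange L α) : finrank L U = finrank k V := by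
  rw [Module.finrank_eq_card_basis (j.basis (Module.finBasis k V)), Fintype.card_fin]

/-- The base change of an endomorphism. -/
noncomputable abbrev eH (j : IsBaseChange L α) : Module.End k V →ₗ[k] Module.End L U :=
  IsBaseChange.endHom j

omit [FiniteDimensional k V] in
@[simp] lemma eH_apply (j : IsBaseChange L α) (a : Module.End k V) (v : V) :
    eH j a (α v) = α (a v) := IsBaseChange.endHom_comp_apply j a v

omit [FiniteDimensional k V] in
lemma eH_mul (j : IsBaseChange L α) (a b : Module.End k V) : eH j (a * b) = eH j a * eH j b :=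
  bc_ext j fun v => by
    rw [Module.End.mul_apply, eH_apply, eH_apply, eH_apply, Module.End.mul_apply]

omit [FiniteDimensional k V] in
lemma eH_one (j : IsBaseChange L α) : eH j 1 = 1 := IsBaseChange.endHom_one j

lemma eH_bc (j : IsBaseChange L α) : IsBaseChange L (eH j) := IsBaseChange.end j

omit [FiniteDimensional k V] in
lemma eH_inj (j : IsBaseChange L α) : Function.Injective (eH j) := by
  intro a b hab
  ext v
  apply bc_injective j
  rw [← eH_apply j, ← eH_apply j, hab]

lemma eH_trace (j : IsBaseChange L α) (a : Module.End k V) :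
    LinearMap.trace L U (eH j a) = algebraMap k L (LinearMap.trace k V a) := by
  rw [LinearMap.trace_eq_matrix_trace k (Module.finBasis k V),
    LinearMap.trace_eq_matrix_trace L (j.basis (Module.finBasis k V)),
    IsBaseChange.endHom_toMatrix, Matrix.trace, Matrix.trace, map_sum]
  rfl

/-- Rationality of commutants. -/
lemma comm_span (j : IsBaseChange L α) (S : Set (Module.End k V)) (B : Module.End L U)
    (hB : ∀ b ∈ S, Commute (eH j b) B) :
    B ∈ Submodule.span L (eH j '' {a | ∀ b ∈ S, Commute b a}) := by
  have h := ker_span (eH_bc j) (ι := S) (V' := fun _ => Module.End k V)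
    (U' := fun _ => Module.End L U) (fun _ => eH j) (fun _ => eH_bc j)
    (fun b => LinearMap.mulLeft L (eH j b.1) - LinearMap.mulRight L (eH j b.1))
    (fun b => LinearMap.mulLeft k b.1 - LinearMap.mulRight k b.1)
    (fun b a => by
      change eH j b.1 * eH j a - eH j a * eH j b.1 = eH j (b.1 * a - a * b.1)
      rw [map_sub, eH_mul, eH_mul])
    B (fun b => sub_eq_zero.2 (hB b.1 b.2).eq)
  refine Submodule.span_mono ?_ h
  rintro _ ⟨a, ha, rfl⟩
  exact ⟨a, fun b hb => sub_eq_zero.1 (ha ⟨b, hb⟩), rfl⟩

end fin

end Pool.Agent.H66PH
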