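import Pool.Agent.H66PH.Act
import Pool.Agent.H66PH.Frm

/-!
# The cohomology `D_pst(H^i)`
-/

set_option autoImplicit false

namespace Pool.Agent.H66PH

open Module TensorProduct NumberField IsDedekindDomain Filter Topology
open Pool.Agent.W401.Cheb Pool.Agent.N184.HK

section

variable {K : Type} [Field K] [NumberField K] {u : HeightOneSpectrum (𝓞 K)} {G : WeilGroup K u}
  {Ω : Type} [Field Ω] [TopologicalSpace Ω] {χ : GK K → Ω} (B : PeriodField G Ω χ)
  {d : ℕ} {c : ℚ} (E : GaloisCohomology K Ω d c)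

/-- The action of the operators on `L ⊗ H²` on `L ⊗ H^i`. -/
noncomputable def PeriodField.R (i : ℕ) : Act B.L (B.TL (E.X.H 2)) (B.TL (E.X.H i)) :=
  (eH_bc (B.jX (E.X.H 2))).lift ((eH (B.jX (E.X.H i))) ∘ₗ E.X.ρ i)

lemma PeriodField.R_eH (i : ℕ) (a : Module.End Ω (E.X.H 2)) :
    B.R E i (eH (B.jX (E.X.H 2)) a) = eH (B.jX (E.X.H i)) (E.X.ρ i a) :=
  IsBaseChange.lift_eq _ _ _

/-- The form on `L ⊗ H²`. -/
noncomputable def PeriodField.Q : LinearMap.BilinForm B.L (B.TL (E.X.H 2)) :=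
  (LinearMap.BilinForm.baseChange B.L E.X.q : LinearMap.BilinForm B.L (B.L ⊗[Ω] E.X.H 2))

lemma PeriodField.Q_tm (l l' : B.L) (x y : E.X.H 2) :
    B.Q E (B.tm l x) (B.tm l' y) = l * l' * algebraMap Ω B.L (E.X.q x y) := by
  have h : B.Q E (B.tm l x) (B.tm l' y) = (E.X.q x y) • (l * l') :=
    LinearMap.BilinForm.baseChange_tmul _ _ _ _ _
  rw [h, Algebra.smul_def, mul_comm]

lemma PeriodField.Q_al (x y : E.X.H 2) :
    B.Q E (B.al _ x) (B.al _ y) = 1 * algebraMap Ω B.L (E.X.q x y) := by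
  have h : B.Q E (B.al _ x) (B.al _ y) = B.Q E (B.tm 1 x) (B.tm 1 y) := rfl
  rw [h, B.Q_tm, mul_one]

/-- Equivariance of `R`. -/
lemma PeriodField.R_ad (i : ℕ) (g : G.W) (A : Module.End B.L (B.TL (E.X.H 2))) :
    B.R E i (B.ad (coRep E 2) g A) = B.ad (coRep E i) g (B.R E i A) := by
  have hA : A ∈ Submodule.span B.L (Set.range (eH (B.jX (E.X.H 2)))) := by
    rw [bc_span (eH_bc (B.jX (E.X.H 2)))]
    exact Submodule.mem_top
  refine Submodule.span_induction
    (p := fun A _ => B.R E i (B.ad (coRep E 2) g A) = B.ad (coRep E i) g (B.R E i A))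
    ?_ ?_ ?_ ?_ hA
  · rintro _ ⟨a, rfl⟩
    set φ := (E.F (G.res g)).φ with hφ
    rw [B.ad_eH (coRep E 2) g a (adE (φ 2) a), B.R_eH, B.R_eH,
      B.ad_eH (coRep E i) g (E.X.ρ i a) (adE (φ i) (E.X.ρ i a))]
    · rw [(E.F (G.res g)).hc]
    · ext x
      exact adE_apply (φ i) _ x
    · ext x
      exact adE_apply (φ 2) _ x
  · rw [B.ad_zero, map_zero, B.ad_zero]
  · intro x y _ _ hx hy
    rw [B.ad_add, map_add, map_add, B.ad_add, hx, hy]
  · intro l x _ hx
    rw [B.ad_smul, map_smul, map_smul, B.ad_smul, hx]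

/-- Equivariance of `Q`. -/
lemma PeriodField.Q_act (g : G.W) (x y : B.TL (E.X.H 2)) :
    B.Q E (B.act (coRep E 2) g x) (B.act (coRep E 2) g y) =
      algebraMap Ω B.L (E.mu (G.res g)) * B.τ g (B.Q E x y) := by
  refine B.tl_ind x ?_ (fun l v => ?_) fun a b ha hb => ?_
  · simp
  · refine B.tl_ind y ?_ (fun l' w => ?_) fun a b ha hb => ?_
    · simp
    · have h1 : E.X.q (coRep E 2 (G.res g) v) (coRep E 2 (G.res g) w) =
          E.mu (G.res g) * E.X.q v w := (E.F (G.res g)).similar v w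
      have h2 : B.τ g (algebraMap Ω B.L (E.X.q v w)) = algebraMap Ω B.L (E.X.q v w) := by
        rw [IsScalarTower.algebraMap_apply Ω B.C B.L, AlgEquiv.commutes]
      rw [B.act_tmul, B.act_tmul, B.Q_tm, B.Q_tm, h1, map_mul, map_mul, map_mul, h2]
      ring
    · rw [map_add, map_add, map_add, map_add, ha, hb, mul_add]
  · rw [map_add, map_add, map_add, LinearMap.add_apply, LinearMap.add_apply, map_add, ha, hb,
      mul_add]

/-- The monodromy operator is a derivation for `Q`. -/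
lemma PeriodField.Q_mon (x y : B.TL (E.X.H 2)) :
    B.Q E (B.mon _ x) y + B.Q E x (B.mon _ y) = B.N (B.Q E x y) := by
  refine B.tl_ind x ?_ (fun l v => ?_) fun a b ha hb => ?_
  · simp
  · refine B.tl_ind y ?_ (fun l' w => ?_) fun a b ha hb => ?_
    · simp
    · have h2 : B.N (algebraMap Ω B.L (E.X.q v w)) = 0 := by
        have h := B.leibniz 1 1
        rw [mul_one, mul_one, one_mul] at h
        rw [IsScalarTower.algebraMap_apply Ω B.C B.L, Algebra.algebraMap_eq_smul_one, map_smul,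
          left_eq_add.1 h, smul_zero]
      rw [B.mon_tmul, B.mon_tmul, B.Q_tm, B.Q_tm, B.Q_tm, B.leibniz, B.leibniz, h2]
      ring
    · rw [map_add, map_add, map_add, map_add, map_add, ← ha, ← hb]
      abel
  · rw [map_add, map_add, map_add, LinearMap.add_apply, LinearMap.add_apply, LinearMap.add_apply,
      map_add, ← ha, ← hb]
    abel

end

section

variable {K : Type} [Field K] [NumberField K] {u : HeightOneSpectrum (𝓞 K)} {G : WeilGroup K u}
  {Ω : Type} [Field Ω] [CharZero Ω] [TopologicalSpace Ω] {χ : GK K → Ω} (B : PeriodField G Ω χ)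
  {d : ℕ} {c : ℚ} (E : GaloisCohomology K Ω d c) (hμ : ∀ g, E.mu g * χ g ^ 2 = 1)
  (hpst : ∀ i, B.IsPst (coRep E i))

instance : CharZero B.C := charZero_of_injective_algebraMap (algebraMap Ω B.C).injective

instance : CharZero B.L := charZero_of_injective_algebraMap (algebraMap Ω B.L).injective

include hμ in
lemma PeriodField.q_exists (x y : B.Dpst (coRep E 2)) :
    ∃ c : B.C, algebraMap B.C B.L c = (B.t ^ 2)⁻¹ * B.Q E x y := by
  refine B.const' _ ?_
  have h0 : ∀ᶠ g in G.filt, G.deg g = 0 := by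
    rw [WeilGroup.filt]
    exact Filter.eventually_inf_principal.2 (Eventually.of_forall fun g hg => hg)
  filter_upwards [B.near_all (coRep E 2), h0] with g hg hd
  have h1 := B.Q_act E g x y
  rw [hg x x.2, hg y y.2] at h1
  have h2 := B.τ_t g
  rw [hd, zpow_zero, mul_one] at h2
  have h3 : algebraMap Ω B.L (E.mu (G.res g)) * algebraMap Ω B.L (χ (G.res g)) ^ 2 = 1 := by
    rw [← map_pow, ← map_mul, hμ, map_one]
  rw [map_mul, map_inv₀, map_pow, h2]
  have h4 : algebraMap Ω B.L (χ (G.res g)) ≠ 0 := by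
    intro h
    rw [h] at h3
    simp at h3
  have h5 := B.t_ne
  have h6 : B.τ g (B.Q E x y) = algebraMap Ω B.L (χ (G.res g)) ^ 2 * B.Q E x y := by
    calc B.τ g (B.Q E x y) = (algebraMap Ω B.L (E.mu (G.res g)) *
          algebraMap Ω B.L (χ (G.res g)) ^ 2) * B.τ g (B.Q E x y) := by rw [h3, one_mul]
      _ = algebraMap Ω B.L (χ (G.res g)) ^ 2 *
          (algebraMap Ω B.L (E.mu (G.res g)) * B.τ g (B.Q E x y)) := by ring
      _ = _ := by rw [← h1]
  rw [h6]
  field_simp

/-- The values of the form on `D_pst(H²)`. -/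
noncomputable def PeriodField.qv (x y : B.Dpst (coRep E 2)) : B.C :=
  (B.q_exists E hμ x y).choose

lemma PeriodField.qv_spec (x y : B.Dpst (coRep E 2)) :
    algebraMap B.C B.L (B.qv E hμ x y) = (B.t ^ 2)⁻¹ * B.Q E x y :=
  (B.q_exists E hμ x y).choose_spec

/-- The form on `D_pst(H²)`. -/
noncomputable def PeriodField.qD : LinearMap.BilinForm B.C (B.Dpst (coRep E 2)) :=
  LinearMap.mk₂ B.C (B.qv E hμ)
    (fun x x' y => (algebraMap B.C B.L).injective (by
      rw [map_add, B.qv_spec, B.qv_spec, B.qv_spec, Submodule.coe_add, map_add,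
        LinearMap.add_apply, mul_add]))
    (fun a x y => (algebraMap B.C B.L).injective (by
      rw [smul_eq_mul, map_mul, B.qv_spec, B.qv_spec, Submodule.coe_smul,
        ← algebraMap_smul B.L a (x : B.TL (E.X.H 2)), map_smul, LinearMap.smul_apply, smul_eq_mul]
      ring))
    (fun x y y' => (algebraMap B.C B.L).injective (by
      rw [map_add, B.qv_spec, B.qv_spec, B.qv_spec, Submodule.coe_add, map_add, mul_add]))
    (fun a x y => (algebraMap B.C B.L).injective (by
      rw [smul_eq_mul, map_mul, B.qv_spec, B.qv_spec, Submodule.coe_smul,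
        ← algebraMap_smul B.L a (y : B.TL (E.X.H 2)), map_smul, smul_eq_mul]
      ring))

lemma PeriodField.qD_spec (x y : B.Dpst (coRep E 2)) :
    B.Q E ((B.Dpst (coRep E 2)).subtype x) ((B.Dpst (coRep E 2)).subtype y) =
      B.t ^ 2 * algebraMap B.C B.L (B.qD E hμ x y) := by
  have h : B.qD E hμ x y = B.qv E hμ x y := rfl
  rw [h, B.qv_spec, ← mul_assoc, mul_inv_cancel₀ (pow_ne_zero 2 B.t_ne), one_mul]
  rfl

/-- The action of the operators on `D_pst(H²)` on `D_pst(H^i)`. -/
noncomputable def PeriodField.ρD (i : ℕ) :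
    Act B.C (B.Dpst (coRep E 2)) (B.Dpst (coRep E i)) where
  toFun a :=
    { toFun := fun x => ⟨B.R E i (eH (B.jD (hpst 2)) a) x, by
        refine B.preserves (coRep E i) ?_ x.2
        filter_upwards [B.near_ad (hpst 2) a] with g hg
        rw [← B.R_ad, hg]⟩
      map_add' := fun x y => Subtype.ext (by
        change B.R E i (eH (B.jD (hpst 2)) a) ((x : B.TL (E.X.H i)) + y) =
          B.R E i (eH (B.jD (hpst 2)) a) (x : B.TL (E.X.H i)) +
            B.R E i (eH (B.jD (hpst 2)) a) (y : B.TL (E.X.H i))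
        rw [map_add])
      map_smul' := fun l x => Subtype.ext (by
        change B.R E i (eH (B.jD (hpst 2)) a) (l • (x : B.TL (E.X.H i))) =
          l • B.R E i (eH (B.jD (hpst 2)) a) (x : B.TL (E.X.H i))
        rw [← algebraMap_smul B.L l (x : B.TL (E.X.H i)), map_smul, algebraMap_smul]) }
  map_add' a b := by
    refine LinearMap.ext fun x => Subtype.ext ?_
    change B.R E i (eH (B.jD (hpst 2)) (a + b)) (x : B.TL (E.X.H i)) =
      B.R E i (eH (B.jD (hpst 2)) a) (x : B.TL (E.X.H i)) +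
        B.R E i (eH (B.jD (hpst 2)) b) (x : B.TL (E.X.H i))
    rw [map_add, map_add, LinearMap.add_apply]
  map_smul' l a := by
    refine LinearMap.ext fun x => Subtype.ext ?_
    change B.R E i (eH (B.jD (hpst 2)) (l • a)) (x : B.TL (E.X.H i)) =
      l • B.R E i (eH (B.jD (hpst 2)) a) (x : B.TL (E.X.H i))
    rw [map_smul, ← algebraMap_smul B.L l (eH (B.jD (hpst 2)) a), map_smul, LinearMap.smul_apply,
      algebraMap_smul]

lemma PeriodField.ρD_spec (i : ℕ) (a : Module.End B.C (B.Dpst (coRep E 2))) :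
    B.R E i (eH (B.jD (hpst 2)) a) = eH (B.jD (hpst i)) (B.ρD E hpst i a) :=
  (B.eH_restrict (hpst i) _ fun _ => rfl).symm

end

end Pool.Agent.H66PH
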