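import Pool.Agent.H66PH.XD
import Pool.Agent.N184.HK.WDefs

/-!
# The cohomology `D_pst(H^i)`
-/

set_option autoImplicit false

namespace Pool.Agent.H66PH

open Module TensorProduct NumberField IsDedekindDomain Filter Topology
open Pool.Agent.W401.Cheb Pool.Agent.N184.HK Pool.Agent.Y143

section

variable {K : Type} [Field K] [NumberField K] {u : HeightOneSpectrum (𝓞 K)} {G : WeilGroup K u}
  {Ω : Type} [Field Ω] [CharZero Ω] [TopologicalSpace Ω] {χ : GK K → Ω} (B : PeriodField G Ω χ)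
  {d : ℕ} {c : ℚ} (E : GaloisCohomology K Ω d c) (hμ : ∀ g, E.mu g * χ g ^ 2 = 1)
  (hpst : ∀ i, B.IsPst (coRep E i))

lemma PeriodField.Q_symm : (B.Q E).IsSymm :=
  up_symm (V := E.X.H) (U := fun i => B.TL (E.X.H i)) (fun i => B.jX (E.X.H i)) (B.Q_al E) E.X.symm

lemma PeriodField.Q_nondeg : (B.Q E).Nondegenerate :=
  up_nondeg (V := E.X.H) (U := fun i => B.TL (E.X.H i)) (fun i => B.jX (E.X.H i)) one_ne_zero
    (B.Q_al E) E.X.symm E.X.nondeg

lemma PeriodField.R_two : (B.R E 2).IsStd (B.Q E) :=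
  up_two (V := E.X.H) (U := fun i => B.TL (E.X.H i)) (fun i => B.jX (E.X.H i)) one_ne_zero
    (B.Q_al E) (B.R_eH E) E.X.ρ_two

lemma PeriodField.R_bracket (i : ℕ) : (B.R E i).IsRep (B.Q E) :=
  up_bracket (V := E.X.H) (U := fun i => B.TL (E.X.H i)) (fun i => B.jX (E.X.H i)) one_ne_zero
    (B.Q_al E) (B.R_eH E) (E.X.bracket i)

lemma PeriodField.R_index :
    TraceForm (B.Q E) (fun A A' => ∑ i ∈ Finset.range (d + 1), (B.R E i).form A A') c :=
  up_index (V := E.X.H) (U := fun i => B.TL (E.X.H i)) (fun i => B.jX (E.X.H i)) one_ne_zero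
    (B.Q_al E) (B.R_eH E) E.X.index

lemma PeriodField.qD_symm : (B.qD E hμ).IsSymm :=
  down_symm (k := B.C) (L := B.L) (V := fun i => B.Dpst (coRep E i))
    (U := fun i => B.TL (E.X.H i)) (α := fun i => (B.Dpst (coRep E i)).subtype) (Q := B.Q E)
    (pow_ne_zero 2 B.t_ne) (B.qD_spec E hμ) (B.Q_symm E)

include hpst in
lemma PeriodField.qD_nondeg : (B.qD E hμ).Nondegenerate :=
  down_nondeg (k := B.C) (L := B.L) (V := fun i => B.Dpst (coRep E i))
    (U := fun i => B.TL (E.X.H i)) (α := fun i => (B.Dpst (coRep E i)).subtype) (Q := B.Q E)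
    (fun i => B.jD (hpst i))
    (pow_ne_zero 2 B.t_ne) (B.qD_spec E hμ) (B.Q_symm E) (B.Q_nondeg E)

lemma PeriodField.ρD_two : (B.ρD E hpst 2).IsStd (B.qD E hμ) :=
  down_two (k := B.C) (L := B.L) (V := fun i => B.Dpst (coRep E i))
    (U := fun i => B.TL (E.X.H i)) (α := fun i => (B.Dpst (coRep E i)).subtype) (Q := B.Q E)
    (R := B.R E) (fun i => B.jD (hpst i))
    (pow_ne_zero 2 B.t_ne) (B.qD_spec E hμ) (B.ρD_spec E hpst) (B.R_two E)

lemma PeriodField.ρD_bracket (i : ℕ) : (B.ρD E hpst i).IsRep (B.qD E hμ) :=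
  down_bracket (k := B.C) (L := B.L) (V := fun i => B.Dpst (coRep E i))
    (U := fun i => B.TL (E.X.H i)) (α := fun i => (B.Dpst (coRep E i)).subtype) (Q := B.Q E)
    (R := B.R E) (fun i => B.jD (hpst i))
    (pow_ne_zero 2 B.t_ne) (B.qD_spec E hμ) (B.ρD_spec E hpst) (B.R_bracket E i)

lemma PeriodField.ρD_index :
    TraceForm (B.qD E hμ) (fun A A' => ∑ i ∈ Finset.range (d + 1), (B.ρD E hpst i).form A A') c :=
  down_index (k := B.C) (L := B.L) (V := fun i => B.Dpst (coRep E i))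
    (U := fun i => B.TL (E.X.H i)) (α := fun i => (B.Dpst (coRep E i)).subtype) (Q := B.Q E)
    (R := B.R E) (fun i => B.jD (hpst i))
    (pow_ne_zero 2 B.t_ne) (B.qD_spec E hμ) (B.ρD_spec E hpst) (B.R_index E)

/-- The cohomology `D_pst(H^i)`. -/
noncomputable def PeriodField.XD : Cohomology B.C d c where
  H i := B.Dpst (coRep E i)
  q := B.qD E hμ
  symm := B.qD_symm E hμ
  nondeg := B.qD_nondeg E hμ hpst
  dim3 := by
    have h1 := bc_finrank (B.jD (hpst 2))
    have h2 := bc_finrank (B.jX (E.X.H 2))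
    rw [← h1, h2]
    exact E.X.dim3
  ρ := B.ρD E hpst
  ρ_two := B.ρD_two E hμ hpst
  bracket := B.ρD_bracket E hμ hpst
  index := B.ρD_index E hμ hpst

end

end Pool.Agent.H66PH
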